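import Mathlib

/-!
# Project VP (helper64): MP_8eef66_an (Veron): `V₊` is strongly dense in the nonnegative good measures

PROOF of Q1 for every `g` and every bounded open `Ω`. Idea: `μ` good, `f = g(u)`, `F = f⁺ dx`,
`P = P_D` the (truncated) potential `∫_0^D σ(B(x,s)) s^(1-N) ds`; locally `c u ≥ P_μ - P_F - C`. On the
diffuse part `{P_μ < ∞}` restrict `μ` to a compact set on which `P_μ` is bounded. On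
`Z = {P_μ = ∞}` (null set) `F(B(x,s)) / μ(B(x,s)) → 0` for `μ`-a.e. `x` (Besicovitch); restrict to a
compact `A` where this is uniform and take `ν = (1-e) μ|_A`. For `y` at distance `r` from `A`, in a
ball `B(y, η r)` one has `P_F ≤ κ P_μ + C` on at least one half of the ball, so `c u ≥ (1-κ) P_μ - C`
there, whereas `P_ν(y) ≤ (1+η)^(N-2) P_ν(z) + C` for `z` in the ball: `g(P_ν(y)/c + C')` is bounded by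
the average of `g(u)⁺ + C` on the ball.
-/

open MeasureTheory Filter Topology Set Metric
open scoped ENNReal NNReal ContDiff Laplacian

namespace Pool.Agent.Q64.VP

abbrev E (N : ℕ) := EuclideanSpace ℝ (Fin N)

/-- the potential `∫_0^D σ(B(x,s)) s^(1-N) ds` -/
noncomputable def P {N : ℕ} (D : ℝ) (σ : Measure (E N)) (x : E N) : ℝ≥0∞ :=
  ∫⁻ s in Ioo 0 D, σ (closedBall x s) * ENNReal.ofReal (s ^ (1 - (N : ℝ)))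

/-- its kernel `∫_t^D s^(1-N) ds` -/
noncomputable def kk (N : ℕ) (D t : ℝ) : ℝ≥0∞ :=
  ∫⁻ s in Ioo t D, ENNReal.ofReal (s ^ (1 - (N : ℝ)))

/-- test functions: smooth, zero on the boundary -/
def IsT {N : ℕ} (Ω : Set (E N)) (ζ : E N → ℝ) : Prop :=
  ContDiff ℝ ∞ ζ ∧ ∀ x ∈ frontier Ω, ζ x = 0

/-- `μ` is a good measure -/
def Good {N : ℕ} (Ω : Set (E N)) (g : ℝ → ℝ) (μ : Measure (E N)) : Prop :=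
  ∃ u : E N → ℝ, IntegrableOn u Ω ∧ IntegrableOn (fun x => g (u x)) Ω ∧ ∀ ζ : E N → ℝ, IsT Ω ζ →
    -(∫ x in Ω, u x * (Δ ζ) x) + ∫ x in Ω, g (u x) * ζ x = ∫ x, ζ x ∂μ

/-- `μ ∈ V`: the potential `w` of `μ` satisfies `g(w) ∈ L¹` -/
def InV {N : ℕ} (Ω : Set (E N)) (g : ℝ → ℝ) (μ : Measure (E N)) : Prop :=
  ∃ w : E N → ℝ, IntegrableOn w Ω ∧ IntegrableOn (fun x => g (w x)) Ω ∧ ∀ ζ : E N → ℝ, IsT Ω ζ →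
    -(∫ x in Ω, w x * (Δ ζ) x) = ∫ x, ζ x ∂μ

/-! ## Potentials as measure-theoretic objects -/

/-- TON. Tonelli, and measurability (`kk N D` is monotone; `(x,y) ↦ ‖x-y‖` continuous). -/
def S_TON : Prop := ∀ (N : ℕ) (D : ℝ) (σ : Measure (E N)), IsFiniteMeasure σ →
  (∀ x, P D σ x = ∫⁻ y, kk N D ‖x - y‖ ∂σ) ∧ Measurable (P D σ)

/-- INT. Proof. Tonelli: `∫ σ(B(x,s)) dx = σ(univ) ω_N s^N`, so `∫ P = σ(univ) ω_N ∫_0^D s ds`. -/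
def S_INT : Prop := ∀ (N : ℕ), 1 ≤ N → ∀ (D : ℝ) (σ : Measure (E N)), IsFiniteMeasure σ →
  ∫⁻ x, P D σ x < ⊤

/-- FRO. Proof. For `y ∉ A` let `x ∈ A` be nearest, `r = ‖x-y‖`. `σ(B(y,s)) = 0` for `s < r` and
`B(y,s) ⊆ B(x,2s)` for `s ≥ r`; so
`P σ y ≤ ∫_r^D σ(B(x,2s)) s^(1-N) ds = 2^(N-2) ∫_{2r}^{2D} σ(B(x,s)) s^(1-N) ds
≤ 2^(N-2) (P σ x + σ(univ) ∫_D^{2D} s^(1-N) ds)`. -/
def S_FRO : Prop := ∀ (N : ℕ), 2 ≤ N → ∀ (D : ℝ) (σ : Measure (E N)) (A : Set (E N)) (M : ℝ≥0),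
  0 < D → IsFiniteMeasure σ → IsCompact A → σ Aᶜ = 0 → (∀ x ∈ A, P D σ x ≤ M) →
  ∃ M' : ℝ≥0, ∀ x, P D σ x ≤ M'

/-- SELD. Proof. `P D μ` is measurable, inner regularity (closed/compact sets) of finite Borel
measures. -/
def S_SELD : Prop := ∀ (N : ℕ) (D : ℝ) (μ : Measure (E N)) (Ω : Set (E N)) (δ : ℝ),
  IsFiniteMeasure μ → MeasurableSet Ω → 0 < δ → ∃ (A : Set (E N)) (M : ℝ≥0), IsCompact A ∧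
    A ⊆ Ω ∩ {x | P D μ x < ⊤} ∧ (∀ x ∈ A, P D μ x ≤ M) ∧
    μ ((Ω ∩ {x | P D μ x < ⊤}) \ A) ≤ ENNReal.ofReal δ

/-- SEL. Proof. `Z = {P D μ = ⊤}` is Lebesgue null (S_INT), so `F Z = 0`. By
`Besicovitch.ae_tendsto_rnDeriv`, `F(B(x,r)) / μ(B(x,r)) → rnDeriv F μ x` for `μ`-a.e. `x`, and
`∫_Z rnDeriv F μ dμ ≤ F Z = 0`, so the limit is `0` `μ`-a.e. on `Z`. Egorov for `r = 2^(-j)` and inner
regularity give `A` with `F(B(x,2^(-j))) ≤ ε μ(B(x,2^(-j)))` for `j ≥ j0`, `x ∈ A`; for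
`2^(-j-1) < s ≤ 2^(-j)`: `F(B(x,s)) ≤ F(B(x,2^(-j))) ≤ ε μ(B(x,2^(-j))) ≤ ε μ(B(x,2s))`. -/
def S_SEL : Prop := ∀ (N : ℕ), 1 ≤ N → ∀ (D : ℝ) (μ F : Measure (E N)) (Ω : Set (E N)) (ε δ : ℝ),
  IsFiniteMeasure μ → IsFiniteMeasure F → F ≪ volume → MeasurableSet Ω → 0 < ε → 0 < δ →
  ∃ (A : Set (E N)) (ρ0 : ℝ), 0 < ρ0 ∧ IsCompact A ∧ A ⊆ Ω ∩ {x | P D μ x = ⊤} ∧
    volume A = 0 ∧ μ ((Ω ∩ {x | P D μ x = ⊤}) \ A) ≤ ENNReal.ofReal δ ∧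
    ∀ x ∈ A, ∀ s : ℝ, 0 < s → s < ρ0 →
      F (closedBall x s) ≤ ENNReal.ofReal ε * μ (closedBall x (2 * s))

/-- NEAR. (One half of the ball.) Proof. `r = infDist y A`, `x ∈ A` nearest, `B = ball y (η r)`,
`η ≤ 1/4`. Put `near z = ∫_0^{r/2} F(B(z,s)) s^(1-N) ds`, `far z = ∫_{r/2}^D`. For `z ∈ B`, `s ≥ r/2`:
`B(z,s) ⊆ B(x,4s)` and `B(x,8s) ⊆ B(z,11s)`, so for `4s < ρ0` `F(B(z,s)) ≤ κ μ(B(z,11s))` and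
`far z ≤ κ 11^(N-2) P_μ(z) + F(univ) ∫_{ρ0/4}^D s^(1-N) ds` (shrink `ρ0` so that `11ρ0/4 ≤ D`).
Tonelli: `∫_B near ≤ ∫_0^{r/2} s^(1-N) F(B(y,r)) ω_N s^N ds ≤ F(B(y,r)) ω_N r²/8`, and
`F(B(y,r)) ≤ F(B(x,2r)) ≤ κ μ(B(x,4r))`. For `z ∈ B`: `B(x,4r) ⊆ B(z,6r)`, so
`P_μ(z) ≥ ∫_{6r}^{12r} μ(B(x,4r)) s^(1-N) ds ≥ μ(B(x,4r)) (12r)^(2-N)/2` (`12r ≤ D`). So the mean of
`near` over `B` is `≤ κ C₂ inf_B P_μ`, `C₂ = 12^(N-2)/(4η^N)`, and by Markov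
`near ≤ 2κC₂ P_μ` on at least half of `B`. Total factor: `κ (2C₂ + 11^(N-2)) ≤ κ'` for small `κ`. -/
def S_NEAR : Prop := ∀ (N : ℕ), 2 ≤ N → ∀ η κ' : ℝ, 0 < η → η ≤ 1 / 4 → 0 < κ' →
  ∃ κ : ℝ, 0 < κ ∧ ∀ (D : ℝ) (μ F : Measure (E N)) (A : Set (E N)) (ρ0 : ℝ), 0 < D →
    IsFiniteMeasure μ → IsFiniteMeasure F → IsCompact A → A.Nonempty → 0 < ρ0 →
    (∀ x ∈ A, ∀ s : ℝ, 0 < s → s < ρ0 →
      F (closedBall x s) ≤ ENNReal.ofReal κ * μ (closedBall x (2 * s))) →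
    ∃ (r2 : ℝ) (C : ℝ≥0), 0 < r2 ∧ ∀ y, 0 < infDist y A → infDist y A < r2 →
      volume (ball y (η * infDist y A)) ≤ 2 * volume {z ∈ ball y (η * infDist y A) |
        P D F z ≤ ENNReal.ofReal κ' * P D μ z + C}

/-- HAR. Proof. `r = infDist y A`. `ν(B(y,s)) = 0` for `s < r`, and `B(y,s) ⊆ B(z,(1+η)s)` for
`s ≥ r`, `‖z-y‖ ≤ ηr`; substitute `s' = (1+η)s`. (`ν(univ) ∫_D^{2D} s^(1-N) ds` for `s' > D`.) -/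
def S_HAR : Prop := ∀ (N : ℕ), 2 ≤ N → ∀ (η D : ℝ) (ν : Measure (E N)) (A : Set (E N)), 0 < η →
  η ≤ 1 / 4 → 0 < D → IsFiniteMeasure ν → IsCompact A → A.Nonempty → ν Aᶜ = 0 → ∃ C : ℝ≥0,
    ∀ y z, 0 < infDist y A → z ∈ ball y (η * infDist y A) →
      P D ν y ≤ ENNReal.ofReal ((1 + η) ^ (N - 2)) * P D ν z + C

/-- PT (from S_NEAR, S_HAR, S_INT). Proof. Choose `η` and `κ'` small:
`θ = (1+η)^(N-2) (1-e) / (1-κ') < 1`. For a.e. `z` in the good half of the ball (`P_μ z < ⊤` a.e.):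
`(1-κ') P_μ z ≤ C₁ + (c u z + C)⁺`, and
`P_ν y + C' ≤ (1+η)^(N-2) (1-e) P_μ z + C₃ ≤ θ (c u z)⁺ + C₄ ≤ max (c u z) M`, `M = C₄/(1-θ)`. -/
def S_PT : Prop := ∀ (N : ℕ), 2 ≤ N → ∀ e : ℝ, 0 < e → e < 1 → ∃ η κ : ℝ, 0 < η ∧ η ≤ 1 / 4 ∧ 0 < κ ∧
  ∀ (D c r1 ρ0 : ℝ) (μ F ν : Measure (E N)) (A : Set (E N)) (u : E N → ℝ) (C : ℝ), 0 < D → 0 < c →
    0 < r1 → 0 < ρ0 → IsFiniteMeasure μ → IsFiniteMeasure F → IsFiniteMeasure ν → IsCompact A →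
    A.Nonempty → ν Aᶜ = 0 → ν ≤ ENNReal.ofReal (1 - e) • μ →
    (∀ x ∈ A, ∀ s : ℝ, 0 < s → s < ρ0 →
      F (closedBall x s) ≤ ENNReal.ofReal κ * μ (closedBall x (2 * s))) →
    (∀ᵐ z : E N, infDist z A ≤ r1 → P D μ z ≤ P D F z + ENNReal.ofReal (c * u z + C)) →
    ∀ C' : ℝ≥0, ∃ r2 M : ℝ, 0 < r2 ∧ 0 < M ∧ ∀ y, 0 < infDist y A → infDist y A < r2 →
      volume (ball y (η * infDist y A)) ≤ 2 * volume {z ∈ ball y (η * infDist y A) |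
        P D ν y + C' ≤ ENNReal.ofReal (max (c * u z) M)}

/-- AVG. Proof. `r(y) = infDist y A` is 1-Lipschitz. `V y ≤ (2 / |B(y,ηr(y))|) ∫_{B(y,ηr(y))} q`
(Markov: `V y |{z ∈ B : V y ≤ q z}| ≤ ∫_B q`). Tonelli; for fixed `z` the `y` with
`‖z-y‖ < η r(y)` satisfy `(2/3) r(z) ≤ r(y) ≤ 2 r(z)` and lie in `B(z, 2ηr(z))`, so
`∫ 1_{‖z-y‖<ηr(y)} / |B(y,ηr(y))| dy ≤ 3^N`; and `r(z) < 2 r2`, `r(z) > 0`. -/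
def S_AVG : Prop := ∀ (N : ℕ), 1 ≤ N → ∀ (A : Set (E N)) (η r2 : ℝ) (V q : E N → ℝ≥0∞), IsCompact A →
  A.Nonempty → 0 < η → η ≤ 1 / 4 → 0 < r2 → Measurable V → Measurable q →
  (∀ y, 0 < infDist y A → infDist y A < r2 →
    volume (ball y (η * infDist y A)) ≤ 2 * volume {z ∈ ball y (η * infDist y A) | V y ≤ q z}) →
  ∫⁻ y in {y | 0 < infDist y A ∧ infDist y A < r2}, V y ≤
    2 * 3 ^ N * ∫⁻ z in {z | infDist z A < 2 * r2}, q z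

/-- SING (from S_PT, S_AVG, S_TON). Proof. `η, κ` of S_PT. `A = ∅`: `ν = 0`, `P = 0`, trivial. `r1` with
`{infDist · A ≤ r1} ⊆ Ω` (compact). Replace `C'` by `|C'|`. PT with the constant `c |C'|`:
`(P ν y).toReal / c + C' ≤ max (u z) (M/c)` on half of the ball, so with
`V y = ofReal (g ((P ν y).toReal / c + C'))`, `q z = ofReal (g (u z)) + ofReal (g (M/c))` AVG bounds
the integral over `0 < infDist < r2` (`2 r2 < r1`; `u` may be replaced by a measurable version on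
`Ω`, `q = 0` off `Ω`). For `infDist y A ≥ r2`: `P ν y ≤ ν(univ) ∫_{r2}^D s^(1-N) ds`: bounded, and
`Ω` is bounded. -/
def S_SING : Prop := ∀ (N : ℕ), 2 ≤ N → ∀ e : ℝ, 0 < e → e < 1 → ∃ κ : ℝ, 0 < κ ∧
  ∀ (D c ρ0 : ℝ) (Ω : Set (E N)) (μ F ν : Measure (E N)) (A : Set (E N)) (u : E N → ℝ) (g : ℝ → ℝ),
    0 < D → 0 < c → 0 < ρ0 → IsOpen Ω → Bornology.IsBounded Ω → IsFiniteMeasure μ →
    IsFiniteMeasure F → IsFiniteMeasure ν → IsCompact A → A ⊆ Ω → ν Aᶜ = 0 →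
    ν ≤ ENNReal.ofReal (1 - e) • μ → Monotone g → Continuous g → IntegrableOn u Ω →
    IntegrableOn (fun x => g (u x)) Ω →
    (∀ x ∈ A, ∀ s : ℝ, 0 < s → s < ρ0 →
      F (closedBall x s) ≤ ENNReal.ofReal κ * μ (closedBall x (2 * s))) →
    (∀ K : Set (E N), IsCompact K → K ⊆ Ω → ∃ C : ℝ, ∀ᵐ z : E N, z ∈ K →
      P D μ z ≤ P D F z + ENNReal.ofReal (c * u z + C)) →
    ∀ C' : ℝ, ∫⁻ x in Ω \ A, ENNReal.ofReal (g ((P D ν x).toReal / c + C')) < ⊤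

/-! ## The Laplacian -/

/-- `c` is the constant of the fundamental solution; `k` is the truncated (cut off) kernel, and
`Δ k = - c δ_0 + m` -/
def CK (N : ℕ) (c : ℝ) : Prop := ∀ ρ : ℝ, 0 < ρ → ∃ (k m : E N → ℝ) (M : ℝ), Measurable k ∧
  Integrable k ∧ Continuous m ∧ (∀ x, 0 ≤ k x ∧ |m x| ≤ M) ∧
  (∀ x, ρ ≤ ‖x‖ → k x = 0 ∧ m x = 0) ∧
  (∀ D : ℝ, ρ ≤ D → ∀ x, x ≠ 0 → ENNReal.ofReal (k x) ≤ kk N D ‖x‖) ∧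
  (∀ D : ℝ, ρ ≤ D → ∃ M' : ℝ≥0, ∀ x, x ≠ 0 → kk N D ‖x‖ ≤ ENNReal.ofReal (k x) + M') ∧
  ∀ ζ : E N → ℝ, ContDiff ℝ ∞ ζ → ∀ a, ∫ x, k (x - a) * (Δ ζ) x =
    -c * ζ a + ∫ x, m (x - a) * ζ x

/-- CK. Proof. `K(x) = ∫_{‖x‖}^ρ s^(1-N) ds` (`(‖x‖^(2-N) - ρ^(2-N))/(N-2)`, resp. `log (ρ/‖x‖)`),
`k = χ K` with a smooth radial cut-off `χ` (`1` for `‖x‖ ≤ ρ/3`, `0` for `‖x‖ ≥ 2ρ/3`). Regularise:
`K_ε(x) = Φ(‖x‖² + ε²)`, `Φ' (q) = - q^(-N/2)/2`, so `Δ K_ε = -N ε² (‖x‖²+ε²)^(-N/2-1)`, whose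
integral against `ψ` tends to `-c ψ(0)`, `c = N ∫ (1+‖x‖²)^(-N/2-1) dx`. For smooth `ζ` (`a = 0`)
`∫ χ K_ε Δζ = ∫ Δ(χ K_ε) ζ = ∫ (χ ΔK_ε + 2 ∇χ·∇K_ε + K_ε Δχ) ζ` and `ε → 0`:
`m = 2 ∇χ·∇K + K Δχ` (supported in the annulus). For `N ≥ 3` see also
`Pool.Agent.Helper486.TP.NewtonLap` (`newton_laplacian`, `fe_lap`, `green`, ...). -/
def S_CK : Prop := ∀ N : ℕ, 2 ≤ N → ∃ c : ℝ, 0 < c ∧ CK N c

/-- CK2: the case `N = 2` of S_CK (`K = log (ρ/‖x‖)`, `K_ε = -(1/2) log (‖x‖²+ε²) + const`,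
`∇K_ε = -x/(‖x‖²+ε²)`, `ΔK_ε = -2ε²/(‖x‖²+ε²)²`). -/
def S_CK2 : Prop := ∃ c : ℝ, 0 < c ∧ CK 2 c

/-- CK3: the case `N ≥ 3` of S_CK (`K_ε = ((‖x‖²+ε²)^((2-N)/2) - ρ^(2-N))/(N-2)`,
`∇K_ε = -x (‖x‖²+ε²)^(-N/2)`). See the lemmas of `Pool.Agent.Helper486.TP.NewtonLap`. -/
def S_CK3 : Prop := ∀ N : ℕ, 3 ≤ N → ∃ c : ℝ, 0 < c ∧ CK N c

/-- REG. Proof. `w_ε = w 1_Ω * ρ_ε` (smooth bump): for `dist(x, Ωᶜ) > ε`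
`Δ w_ε (x) = ∫ w(y) Δρ_ε(x-y) dy = ∫ b(y) ρ_ε(x-y) dy`, so `|Δ w_ε| ≤ B`. With `CK`,
`ρ = dist(K, Ωᶜ)/3`, `z ∈ K`: `c |w_ε(z)| ≤ B ∫ k + M ∫ |w_ε| ≤ B ∫ k + M ∫_Ω |w|`; and `w_ε → w`
a.e. (`ContDiffBump.ae_convolution_tendsto_right_of_locallyIntegrable`). -/
def S_REG : Prop := ∀ (N : ℕ) (c : ℝ), 2 ≤ N → 0 < c → CK N c → ∀ (Ω : Set (E N)) (w b : E N → ℝ)
  (B : ℝ), IsOpen Ω → Bornology.IsBounded Ω → IntegrableOn w Ω → IntegrableOn b Ω → (∀ x, |b x| ≤ B) →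
  (∀ φ : E N → ℝ, ContDiff ℝ ∞ φ → HasCompactSupport φ → tsupport φ ⊆ Ω →
    ∫ x in Ω, w x * (Δ φ) x = ∫ x in Ω, b x * φ x) →
  ∀ K : Set (E N), IsCompact K → K ⊆ Ω → ∃ C : ℝ, ∀ᵐ x : E N, x ∈ K → |w x| ≤ C

/-- LOW (from S_REG, S_TON, S_INT). Proof. `0 < ρ ≤ D`, `ρ < dist(K, Ωᶜ)/3`, `k, m` of `CK N c`,
`Ω' = {x ∈ Ω : dist(x, Ωᶜ) > ρ}` (an open nbhd of `K`), `F⁻ = f⁻ dx` on `Ω`,
`U_σ(x) = ∫ k(x-y) dσ(y)` (integrable). Then `w = c u - U_μ + U_F - U_{F⁻}` satisfies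
`∫ w Δφ = ∫ b φ` for `φ ∈ C_c^∞(Ω')` with the bounded `b = (m̌ * (-μ + F - F⁻))`, i.e.
`∫ U_σ Δφ = -c ∫ φ dσ + ∫ (∫ m(x-y) dσ(y)) φ(x) dx` (Fubini). By REG `|w| ≤ C` on `K`, so
`c u ≥ U_μ - U_F - C`, with `U_μ ≥ P_D μ - M' μ(univ)`, `U_F ≤ P_D F` (a.e. `x` is no atom). -/
def S_LOW : Prop := ∀ (N : ℕ) (c : ℝ), 2 ≤ N → 0 < c → CK N c → ∀ (Ω : Set (E N)) (D : ℝ)
  (μ : Measure (E N)) (u f : E N → ℝ), IsOpen Ω → Bornology.IsBounded Ω → 0 < D →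
  IsFiniteMeasure μ → μ Ωᶜ = 0 →
  IntegrableOn u Ω → IntegrableOn f Ω →
  (∀ φ : E N → ℝ, ContDiff ℝ ∞ φ → HasCompactSupport φ → tsupport φ ⊆ Ω →
    -(∫ x in Ω, u x * (Δ φ) x) + ∫ x in Ω, f x * φ x = ∫ x, φ x ∂μ) →
  ∀ K : Set (E N), IsCompact K → K ⊆ Ω → ∃ C : ℝ, ∀ᵐ x : E N, x ∈ K →
    P D μ x ≤ P D ((volume.restrict Ω).withDensity fun y => ENNReal.ofReal (f y)) x +
      ENNReal.ofReal (c * u x + C)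

/-- EST. Proof. `v = (R² - ‖x‖²)/(2N) ≥ 0`, `-Δv = 1`. Let `j` be smooth, convex, even, `j = 0` on
`[-δ,δ]`, `|j'| ≤ 1`, `|t| - 3δ ≤ j t ≤ |t|`. `J = 1_Ω j∘ζ` is smooth with compact support in `Ω`
(`ζ = 0` on the boundary). `∫ J = -∫ J Δv = -∫ v ΔJ = -∫_Ω v (j''(ζ)|∇ζ|² + j'(ζ) Δζ) ≤ ∫_Ω v |Δζ|`.
`δ → 0`. -/
def S_EST : Prop := ∀ (N : ℕ), 1 ≤ N → ∀ (Ω : Set (E N)) (R : ℝ) (ζ : E N → ℝ), IsOpen Ω →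
  Ω ⊆ ball 0 R → IsT Ω ζ → ∫ x in Ω, |ζ x| ≤ R ^ 2 * ∫ x in Ω, |(Δ ζ) x|

/-- HB (from S_EST). Proof. On the subspace `{Δζ|_Ω}` of `L²(Ω)` the functional `Δζ ↦ -∫_Ω h ζ` is
well defined and `≤ M ‖Δζ‖_{L¹(Ω)}` (EST). Hahn-Banach with the sublinear `M ‖φ‖_{L¹(Ω)}` on `L²(Ω)`
(`exists_extension_of_le_sublinear`), the extension is continuous on `L²(Ω)`, Riesz: `v ∈ L²(Ω)` with
`|∫ v φ| ≤ M ∫ |φ|`, so `|v| ≤ M` a.e. -/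
def S_HB : Prop := ∀ (N : ℕ), 1 ≤ N → ∀ (Ω : Set (E N)) (h : E N → ℝ) (H : ℝ), IsOpen Ω →
  Bornology.IsBounded Ω → Measurable h → (∀ x, |h x| ≤ H) → ∃ (v : E N → ℝ) (M : ℝ), Measurable v ∧
    (∀ x, |v x| ≤ M) ∧ ∀ ζ : E N → ℝ, IsT Ω ζ → -(∫ x in Ω, v x * (Δ ζ) x) = ∫ x in Ω, h x * ζ x

/-- EX (from S_HB, S_TON, S_INT). Proof. `0 < ρ ≤ D`, `ρ < dist(K, Ωᶜ)`, `k, m` of `CK N c`,
`w₁ x = c⁻¹ ∫ k(x-y) dν(y) ≥ 0`, `h x = c⁻¹ ∫ m(x-y) dν(y)` (both vanish off `Ω`; `h` continuous,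
bounded). Fubini: `∫ w₁ Δζ = -∫ ζ dν + ∫ h ζ`. `v` of HB for `h`; `w = w₁ + v`.
`c w₁ ≤ P_D ν` (a.e. `x` is no atom of `ν`). -/
def S_EX : Prop := ∀ (N : ℕ) (c : ℝ), 2 ≤ N → 0 < c → CK N c → ∀ (Ω K : Set (E N)) (D : ℝ)
  (ν : Measure (E N)), IsOpen Ω → Bornology.IsBounded Ω → IsCompact K → K ⊆ Ω → 0 < D →
  IsFiniteMeasure ν → ν Kᶜ = 0 → ∃ (w : E N → ℝ) (C : ℝ), IntegrableOn w Ω ∧
    (∀ ζ : E N → ℝ, IsT Ω ζ → -(∫ x in Ω, w x * (Δ ζ) x) = ∫ x, ζ x ∂ν) ∧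
    ∀ᵐ x : E N, -C ≤ w x ∧ ENNReal.ofReal (c * w x) ≤ P D ν x + ENNReal.ofReal C

/-- MAIN (from S_CK, S_LOW, S_EX, S_FRO, S_SELD, S_SEL, S_SING, S_TON, S_INT). Proof. `c` of S_CK, `D = 1`, `u` of `Good`, `f = g ∘ u`, `F`. LOW. Take
`e < 1` with `e μ(univ) ≤ δ/3`, `κ` of SING, `A_s` of SEL (`κ`, `δ/3`), `A_d` of SELD (`δ/3`);
`ν_d = μ.restrict A_d`, `ν_s = ofReal (1-e) • μ.restrict A_s`, `ν = ν_d + ν_s`,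
`σ = μ.restrict (A_d ∪ A_s)ᶜ + ofReal e • μ.restrict A_s`. `P ν_d ≤ M'` by FRO. `w` of EX for `ν`:
`-C ≤ w ≤ (P ν_s x).toReal / c + C''` a.e., so `g(-C) ≤ g(w) ≤ g((P ν_s x).toReal/c + C'')`, and SING
(`volume A_s = 0`) gives `g(w) ∈ L¹(Ω)`. -/
def S_MAIN : Prop := ∀ (N : ℕ), 2 ≤ N → ∀ (Ω : Set (E N)) (g : ℝ → ℝ) (μ : Measure (E N)), IsOpen Ω →
  Bornology.IsBounded Ω → Continuous g → Monotone g → IsFiniteMeasure μ → μ Ωᶜ = 0 →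
  Good Ω g μ → ∀ δ : ℝ, 0 < δ → ∃ ν σ : Measure (E N), μ = ν + σ ∧ σ univ ≤ ENNReal.ofReal δ ∧
    InV Ω g ν

end Pool.Agent.Q64.VP
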