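import Pool.Agent.Q64.VP.Stm

/-!
# VP-AVG: averaging over the balls `B(y, η r(y))`, `r = infDist · A`
-/

open MeasureTheory Filter Topology Set Metric
open scoped ENNReal NNReal ContDiff Laplacian

namespace Pool.Agent.Q64.VP.AVG

/-- Markov's inequality on one ball -/
lemma one_ball {N : ℕ} (V q : E N → ℝ≥0∞) (hq : Measurable q) (y : E N) (r : ℝ) (hr : 0 < r)
    (h : volume (ball y r) ≤ 2 * volume {z ∈ ball y r | V y ≤ q z}) :
    V y ≤ 2 * ((volume (ball y r))⁻¹ * ∫⁻ z in ball y r, q z) := by
  have hB0 : volume (ball y r) ≠ 0 := (measure_ball_pos volume y hr).ne'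
  have hBt : volume (ball y r) ≠ ⊤ := measure_ball_lt_top.ne
  have h1 : V y * volume {z ∈ ball y r | V y ≤ q z} ≤ ∫⁻ z in ball y r, q z := by
    have h2 := mul_meas_ge_le_lintegral (μ := volume.restrict (ball y r)) hq (V y)
    have h3 : (volume.restrict (ball y r)) {z | V y ≤ q z} = volume {z ∈ ball y r | V y ≤ q z} := by
      rw [Measure.restrict_apply (measurableSet_le measurable_const hq)]
      congr 1
      ext z
      simp only [mem_inter_iff, mem_setOf_eq]
      tauto
    rw [h3] at h2
    exact h2
  have h4 : V y * volume (ball y r) ≤ 2 * ∫⁻ z in ball y r, q z := by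
    calc V y * volume (ball y r) ≤ V y * (2 * volume {z ∈ ball y r | V y ≤ q z}) := by gcongr
      _ = 2 * (V y * volume {z ∈ ball y r | V y ≤ q z}) := by ring
      _ ≤ 2 * ∫⁻ z in ball y r, q z := by gcongr
  calc V y = V y * volume (ball y r) * (volume (ball y r))⁻¹ := by
        rw [mul_assoc, ENNReal.mul_inv_cancel hB0 hBt, mul_one]
    _ ≤ 2 * (∫⁻ z in ball y r, q z) * (volume (ball y r))⁻¹ := by gcongr
    _ = 2 * ((volume (ball y r))⁻¹ * ∫⁻ z in ball y r, q z) := by ring

/-- the kernel -/
noncomputable def G {N : ℕ} (A : Set (E N)) (η : ℝ) (q : E N → ℝ≥0∞) (y z : E N) : ℝ≥0∞ :=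
  {p : E N × E N | dist p.2 p.1 < η * infDist p.1 A}.indicator
    (fun p => (ENNReal.ofReal ((η * infDist p.1 A) ^ N) * volume (ball (0 : E N) 1))⁻¹ * q p.2) (y, z)

lemma meas_G {N : ℕ} (A : Set (E N)) (η : ℝ) (q : E N → ℝ≥0∞) (hq : Measurable q) :
    Measurable (Function.uncurry (G A η q)) := by
  have h1 : MeasurableSet {p : E N × E N | dist p.2 p.1 < η * infDist p.1 A} := by
    refine measurableSet_lt ?_ ?_
    · exact (continuous_snd.dist continuous_fst).measurable
    · exact ((continuous_infDist_pt A).comp continuous_fst).measurable.const_mul η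
  have h2 : Measurable (fun p : E N × E N =>
      (ENNReal.ofReal ((η * infDist p.1 A) ^ N) * volume (ball (0 : E N) 1))⁻¹ * q p.2) := by
    refine Measurable.mul ?_ (hq.comp measurable_snd)
    refine Measurable.inv ?_
    refine Measurable.mul_const ?_ _
    refine ENNReal.measurable_ofReal.comp ?_
    exact (((continuous_infDist_pt A).comp continuous_fst).measurable.const_mul η).pow_const N
  have h3 : Function.uncurry (G A η q) = {p : E N × E N | dist p.2 p.1 < η * infDist p.1 A}.indicator
    (fun p => (ENNReal.ofReal ((η * infDist p.1 A) ^ N) * volume (ball (0 : E N) 1))⁻¹ * q p.2) := by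
    ext p
    rfl
  rw [h3]
  exact h2.indicator h1

lemma int_G {N : ℕ} (A : Set (E N)) (η : ℝ) (hη : 0 < η) (q : E N → ℝ≥0∞) (hq : Measurable q)
    (y : E N) (hy : 0 < infDist y A) :
    (volume (ball y (η * infDist y A)))⁻¹ * ∫⁻ z in ball y (η * infDist y A), q z =
      ∫⁻ z, G A η q y z := by
  have hr : 0 < η * infDist y A := by positivity
  have h1 : volume (ball y (η * infDist y A)) =
      ENNReal.ofReal ((η * infDist y A) ^ N) * volume (ball (0 : E N) 1) := by
    rw [Measure.addHaar_ball_of_pos volume y hr, finrank_euclideanSpace_fin]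
  rw [h1, ← lintegral_const_mul _ hq, ← lintegral_indicator measurableSet_ball]
  refine lintegral_congr fun z => ?_
  unfold G
  by_cases hz : dist z y < η * infDist y A
  · rw [indicator_of_mem (show z ∈ ball y (η * infDist y A) from hz),
      indicator_of_mem (show (y, z) ∈ {p : E N × E N | dist p.2 p.1 < η * infDist p.1 A} from hz)]
  · rw [indicator_of_notMem (show z ∉ ball y (η * infDist y A) from hz),
      indicator_of_notMem (show (y, z) ∉ {p : E N × E N | dist p.2 p.1 < η * infDist p.1 A} from hz)]

lemma swap_G {N : ℕ} (A : Set (E N)) (η r2 : ℝ) (hη : 0 < η) (hη4 : η ≤ 1 / 4)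
    (q : E N → ℝ≥0∞) (z : E N) :
    ∫⁻ y in {y | 0 < infDist y A ∧ infDist y A < r2}, G A η q y z ≤
      {z | infDist z A < 2 * r2}.indicator (fun z => 3 ^ N * q z) z := by
  have hS : MeasurableSet {y : E N | 0 < infDist y A ∧ infDist y A < r2} := by
    refine MeasurableSet.inter ?_ ?_
    · exact measurableSet_lt measurable_const (continuous_infDist_pt A).measurable
    · exact measurableSet_lt (continuous_infDist_pt A).measurable measurable_const
  -- the geometry
  have key : ∀ y : E N, 0 < infDist y A → dist z y < η * infDist y A →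
      infDist z A < 5 / 4 * infDist y A ∧ 3 / 4 * infDist y A < infDist z A := by
    intro y hy hzy
    have h1 : infDist z A ≤ infDist y A + dist z y := infDist_le_infDist_add_dist
    have h2 : infDist y A ≤ infDist z A + dist y z := infDist_le_infDist_add_dist
    rw [dist_comm y z] at h2
    have h3 : η * infDist y A ≤ 1 / 4 * infDist y A := by gcongr
    constructor <;> linarith
  set r := infDist z A with hrdef
  set ρ := 4 / 5 * η * r with hρ
  by_cases hz : r < 2 * r2 ∧ 0 < r
  · obtain ⟨hz2, hr0⟩ := hz
    rw [indicator_of_mem (show z ∈ {z | infDist z A < 2 * r2} from hz2)]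
    have hρ0 : 0 < ρ := by positivity
    set om := volume (ball (0 : E N) 1) with hom
    have hom0 : om ≠ 0 := (measure_ball_pos volume _ one_pos).ne'
    have homt : om ≠ ⊤ := measure_ball_lt_top.ne
    have hb : ∀ y ∈ {y : E N | 0 < infDist y A ∧ infDist y A < r2}, G A η q y z ≤
        (ball z (3 * ρ)).indicator (fun _ => (ENNReal.ofReal (ρ ^ N) * om)⁻¹ * q z) y := by
      rintro y ⟨hy, hy2⟩
      unfold G
      by_cases hzy : dist z y < η * infDist y A
      · obtain ⟨k1, k2⟩ := key y hy hzy
        rw [indicator_of_mem (show (y, z) ∈ {p : E N × E N | dist p.2 p.1 < η * infDist p.1 A} from hzy)]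
        have hyb : y ∈ ball z (3 * ρ) := by
          rw [mem_ball, dist_comm]
          have : η * infDist y A ≤ 3 * ρ := by
            have : infDist y A ≤ 4 / 3 * r := by linarith
            calc η * infDist y A ≤ η * (4 / 3 * r) := by gcongr
              _ ≤ 3 * ρ := by rw [hρ]; nlinarith
          linarith
        rw [indicator_of_mem hyb]
        have hle : ρ ≤ η * infDist y A := by
          have : 4 / 5 * r ≤ infDist y A := by linarith
          calc ρ = η * (4 / 5 * r) := by rw [hρ]; ring
            _ ≤ η * infDist y A := by gcongr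
        dsimp only
        gcongr
      · rw [indicator_of_notMem
          (show (y, z) ∉ {p : E N × E N | dist p.2 p.1 < η * infDist p.1 A} from hzy)]
        exact bot_le
    calc ∫⁻ y in {y | 0 < infDist y A ∧ infDist y A < r2}, G A η q y z
        ≤ ∫⁻ y in {y | 0 < infDist y A ∧ infDist y A < r2},
          (ball z (3 * ρ)).indicator (fun _ => (ENNReal.ofReal (ρ ^ N) * om)⁻¹ * q z) y :=
          setLIntegral_mono' hS hb
      _ ≤ ∫⁻ y, (ball z (3 * ρ)).indicator (fun _ => (ENNReal.ofReal (ρ ^ N) * om)⁻¹ * q z) y :=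
          setLIntegral_le_lintegral _ _
      _ = (ENNReal.ofReal (ρ ^ N) * om)⁻¹ * q z * volume (ball z (3 * ρ)) := by
          rw [lintegral_indicator measurableSet_ball, setLIntegral_const]
      _ = (ENNReal.ofReal (ρ ^ N) * om)⁻¹ * q z * (3 ^ N * (ENNReal.ofReal (ρ ^ N) * om)) := by
          congr 1
          rw [Measure.addHaar_ball_of_pos volume z (by positivity), finrank_euclideanSpace_fin, mul_pow,
            ENNReal.ofReal_mul (by positivity), ENNReal.ofReal_pow (by norm_num : (0:ℝ) ≤ 3), mul_assoc]
          norm_num [hom]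
      _ = (ENNReal.ofReal (ρ ^ N) * om)⁻¹ * (ENNReal.ofReal (ρ ^ N) * om) * (3 ^ N * q z) := by ring
      _ = 3 ^ N * q z := by
          rw [ENNReal.inv_mul_cancel, one_mul]
          · refine mul_ne_zero ?_ hom0
            have : 0 < ρ ^ N := by positivity
            simpa using this
          · exact ENNReal.mul_ne_top ENNReal.ofReal_ne_top homt
  · -- the kernel vanishes
    have h0 : ∀ y ∈ {y : E N | 0 < infDist y A ∧ infDist y A < r2}, G A η q y z ≤ 0 := by
      rintro y ⟨hy, hy2⟩
      unfold G
      rw [indicator_of_notMem]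
      intro hmem
      have hzy : dist z y < η * infDist y A := hmem
      obtain ⟨k1, k2⟩ := key y hy hzy
      apply hz
      constructor
      · linarith
      · linarith
    calc ∫⁻ y in {y | 0 < infDist y A ∧ infDist y A < r2}, G A η q y z
        ≤ ∫⁻ y in {y : E N | 0 < infDist y A ∧ infDist y A < r2}, 0 := setLIntegral_mono' hS h0
      _ = 0 := by simp
      _ ≤ _ := bot_le

end Pool.Agent.Q64.VP.AVG

namespace Pool.Agent.Q64.VP

open AVG

theorem t_AVG : S_AVG := by
  intro N hN A η r2 V q hA hAn hη hη4 hr2 hV hq h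
  have hS : MeasurableSet {y : E N | 0 < infDist y A ∧ infDist y A < r2} := by
    refine MeasurableSet.inter ?_ ?_
    · exact measurableSet_lt measurable_const (continuous_infDist_pt A).measurable
    · exact measurableSet_lt (continuous_infDist_pt A).measurable measurable_const
  have hS2 : MeasurableSet {z : E N | infDist z A < 2 * r2} :=
    measurableSet_lt (continuous_infDist_pt A).measurable measurable_const
  calc ∫⁻ y in {y | 0 < infDist y A ∧ infDist y A < r2}, V y
      ≤ ∫⁻ y in {y | 0 < infDist y A ∧ infDist y A < r2}, 2 * ∫⁻ z, G A η q y z := by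
        refine setLIntegral_mono' hS ?_
        rintro y ⟨hy, hy2⟩
        rw [← int_G A η hη q hq y hy]
        exact one_ball V q hq y _ (by positivity) (h y hy hy2)
    _ = 2 * ∫⁻ y in {y | 0 < infDist y A ∧ infDist y A < r2}, ∫⁻ z, G A η q y z := by
        rw [lintegral_const_mul' _ _ (by norm_num)]
    _ = 2 * ∫⁻ z, ∫⁻ y in {y | 0 < infDist y A ∧ infDist y A < r2}, G A η q y z := by
        rw [lintegral_lintegral_swap]
        exact (meas_G A η q hq).aemeasurable
    _ ≤ 2 * ∫⁻ z, {z | infDist z A < 2 * r2}.indicator (fun z => 3 ^ N * q z) z := by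
        gcongr with z
        exact swap_G A η r2 hη hη4 q z
    _ = 2 * 3 ^ N * ∫⁻ z in {z | infDist z A < 2 * r2}, q z := by
        rw [lintegral_indicator hS2, lintegral_const_mul _ hq, mul_assoc]

end Pool.Agent.Q64.VP
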