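import Pool.Agent.Q64.VP.Stm

/-! # EST: the `L¹` estimate for smooth functions which vanish on the boundary -/

set_option autoImplicit false

open MeasureTheory Filter Topology Set Metric
open scoped ENNReal NNReal ContDiff Laplacian

namespace Pool.Agent.Q64.VP.EST

open Pool.Agent.Q64.VP

/-- a primitive of the smooth transition -/
noncomputable def H (t : ℝ) : ℝ := ∫ s in (0 : ℝ)..t, Real.smoothTransition s

lemma H_hasDeriv (t : ℝ) : HasDerivAt H (Real.smoothTransition t) t :=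
  (Real.smoothTransition.continuous.integral_hasStrictDerivAt 0 t).hasDerivAt

lemma H_contDiff : ContDiff ℝ ∞ H := by
  rw [contDiff_infty_iff_deriv]
  refine ⟨fun t => (H_hasDeriv t).differentiableAt, ?_⟩
  have : deriv H = Real.smoothTransition := by ext t; exact (H_hasDeriv t).deriv
  rw [this]
  exact Real.smoothTransition.contDiff

lemma H_nonpos {t : ℝ} (ht : t ≤ 0) : H t = 0 := by
  unfold H
  have : ∫ s in (0 : ℝ)..t, Real.smoothTransition s = ∫ s in (0 : ℝ)..t, (0 : ℝ) := by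
    apply intervalIntegral.integral_congr
    intro s hs
    rw [uIcc_of_ge ht] at hs
    exact Real.smoothTransition.zero_of_nonpos hs.2
  rw [this]; simp

lemma H_nonneg (t : ℝ) : 0 ≤ H t := by
  rcases le_total t 0 with h | h
  · rw [H_nonpos h]
  · exact intervalIntegral.integral_nonneg h fun s _ => Real.smoothTransition.nonneg s

lemma H_lower (t : ℝ) : t - 1 ≤ H t := by
  rcases le_total t 1 with h | h
  · linarith [H_nonneg t]
  · have h1 : H t = H 1 + ∫ s in (1 : ℝ)..t, Real.smoothTransition s := by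
      unfold H
      rw [intervalIntegral.integral_add_adjacent_intervals]
      · exact Real.smoothTransition.continuous.intervalIntegrable _ _
      · exact Real.smoothTransition.continuous.intervalIntegrable _ _
    have h2 : ∫ s in (1 : ℝ)..t, Real.smoothTransition s = ∫ s in (1 : ℝ)..t, (1 : ℝ) := by
      apply intervalIntegral.integral_congr
      intro s hs
      rw [uIcc_of_le h] at hs
      exact Real.smoothTransition.one_of_one_le hs.1
    rw [h1, h2]
    simp
    linarith [H_nonneg 1]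

/-- the convex truncation of the absolute value -/
noncomputable def j (t : ℝ) : ℝ := H (t - 1) + H (-t - 1)

noncomputable def j1 (t : ℝ) : ℝ := Real.smoothTransition (t - 1) - Real.smoothTransition (-t - 1)

noncomputable def j2 (t : ℝ) : ℝ :=
  deriv Real.smoothTransition (t - 1) + deriv Real.smoothTransition (-t - 1)

lemma j_contDiff : ContDiff ℝ ∞ j :=
  (H_contDiff.comp (contDiff_id.sub contDiff_const)).add
    (H_contDiff.comp (contDiff_id.neg.sub contDiff_const))

lemma aff1 (t : ℝ) : HasDerivAt (fun s : ℝ => s - 1) 1 t := (hasDerivAt_id t).sub_const 1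

lemma aff2 (t : ℝ) : HasDerivAt (fun s : ℝ => -s - 1) (-1) t := (hasDerivAt_id t).neg.sub_const 1

lemma j_deriv (t : ℝ) : HasDerivAt j (j1 t) t := by
  have h1 : HasDerivAt (fun s : ℝ => H (s - 1)) (Real.smoothTransition (t - 1) * 1) t :=
    HasDerivAt.comp t (h₂ := H) (h := fun s => s - 1) (H_hasDeriv (t - 1)) (aff1 t)
  have h2 : HasDerivAt (fun s : ℝ => H (-s - 1)) (Real.smoothTransition (-t - 1) * (-1)) t :=
    HasDerivAt.comp t (h₂ := H) (h := fun s => -s - 1) (H_hasDeriv (-t - 1)) (aff2 t)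
  have h3 := h1.add h2
  have h4 : j1 t = Real.smoothTransition (t - 1) * 1 + Real.smoothTransition (-t - 1) * (-1) := by
    unfold j1; ring
  rw [h4]
  exact h3

lemma st_deriv (t : ℝ) : HasDerivAt Real.smoothTransition (deriv Real.smoothTransition t) t :=
  ((Real.smoothTransition.contDiff (n := 1)).differentiable (by norm_num) t).hasDerivAt

lemma j1_deriv (t : ℝ) : HasDerivAt j1 (j2 t) t := by
  have h1 : HasDerivAt (fun s : ℝ => Real.smoothTransition (s - 1))
      (deriv Real.smoothTransition (t - 1) * 1) t :=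
    HasDerivAt.comp t (h₂ := Real.smoothTransition) (h := fun s => s - 1) (st_deriv (t - 1)) (aff1 t)
  have h2 : HasDerivAt (fun s : ℝ => Real.smoothTransition (-s - 1))
      (deriv Real.smoothTransition (-t - 1) * (-1)) t :=
    HasDerivAt.comp t (h₂ := Real.smoothTransition) (h := fun s => -s - 1) (st_deriv (-t - 1)) (aff2 t)
  have h3 := h1.sub h2
  have h4 : j2 t = deriv Real.smoothTransition (t - 1) * 1 -
      deriv Real.smoothTransition (-t - 1) * (-1) := by
    unfold j2; ring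
  rw [h4]
  exact h3

lemma j2_nonneg (t : ℝ) : 0 ≤ j2 t :=
  add_nonneg Real.smoothTransition.monotone.deriv_nonneg
    Real.smoothTransition.monotone.deriv_nonneg

lemma j1_abs (t : ℝ) : |j1 t| ≤ 1 := by
  unfold j1
  rw [abs_le]
  constructor <;> linarith [Real.smoothTransition.nonneg (t - 1), Real.smoothTransition.nonneg (-t - 1),
    Real.smoothTransition.le_one (t - 1), Real.smoothTransition.le_one (-t - 1)]

lemma j_zero {t : ℝ} (ht : |t| ≤ 1) : j t = 0 := by
  unfold j
  rw [abs_le] at ht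
  rw [H_nonpos (by linarith), H_nonpos (by linarith), add_zero]

lemma j_lower (t : ℝ) : |t| ≤ j t + 2 := by
  unfold j
  rcases abs_cases t with ⟨h, _⟩ | ⟨h, _⟩
  · rw [h]; linarith [H_lower (t - 1), H_nonneg (-t - 1)]
  · rw [h]; linarith [H_lower (-t - 1), H_nonneg (t - 1)]

lemma lap_eq {N : ℕ} {φ : E N → ℝ} (hφ : ContDiff ℝ ∞ φ) (y : E N) :
    (Δ φ) y = ∑ i, fderiv ℝ (fun z => fderiv ℝ φ z (EuclideanSpace.basisFun (Fin N) ℝ i)) y
        (EuclideanSpace.basisFun (Fin N) ℝ i) := by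
  rw [InnerProductSpace.laplacian_eq_iteratedFDeriv_orthonormalBasis φ
    (EuclideanSpace.basisFun (Fin N) ℝ)]
  apply Finset.sum_congr rfl
  intro i _
  rw [iteratedFDeriv_two_apply]
  have h1 : DifferentiableAt ℝ (fderiv ℝ φ) y :=
    ((hφ.fderiv_right (m := 1) (by norm_cast)).differentiable (by norm_num)) y
  have h2 : fderiv ℝ (fun z => fderiv ℝ φ z (EuclideanSpace.basisFun (Fin N) ℝ i)) y
      = (ContinuousLinearMap.apply ℝ ℝ (EuclideanSpace.basisFun (Fin N) ℝ i)).comp
        (fderiv ℝ (fderiv ℝ φ) y) := by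
    have := (ContinuousLinearMap.apply ℝ ℝ (EuclideanSpace.basisFun (Fin N) ℝ i)).hasFDerivAt.comp y
      h1.hasFDerivAt
    exact this.fderiv
  rw [h2]
  simp

lemma int_parts {N : ℕ} (f g : E N → ℝ) (hf : ContDiff ℝ 1 f) (hg : ContDiff ℝ 1 g)
    (hs : HasCompactSupport g) (v : E N) :
    ∫ x, f x * fderiv ℝ g x v = - ∫ x, fderiv ℝ f x v * g x := by
  have hfc : Continuous (fun x => fderiv ℝ f x v) :=
    (hf.continuous_fderiv (by norm_num)).clm_apply continuous_const
  have hgc : Continuous (fun x => fderiv ℝ g x v) :=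
    (hg.continuous_fderiv (by norm_num)).clm_apply continuous_const
  have hgs : HasCompactSupport (fun x => fderiv ℝ g x v) := hs.fderiv_apply (𝕜 := ℝ) v
  apply integral_mul_fderiv_eq_neg_fderiv_mul_of_integrable
  · exact (hfc.mul hg.continuous).integrable_of_hasCompactSupport hs.mul_left
  · exact (hf.continuous.mul hgc).integrable_of_hasCompactSupport hgs.mul_left
  · exact (hf.continuous.mul hg.continuous).integrable_of_hasCompactSupport hs.mul_left
  · intro x _; exact hf.differentiable (by norm_num) x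
  · intro x _; exact hg.differentiable (by norm_num) x

lemma cd_dir {N : ℕ} {ψ : E N → ℝ} (h : ContDiff ℝ ∞ ψ) (v : E N) :
    ContDiff ℝ ∞ (fun z => fderiv ℝ ψ z v) :=
  (h.fderiv_right (m := ∞) (by norm_cast)).clm_apply contDiff_const

lemma green {N : ℕ} {f φ : E N → ℝ} (hf : ContDiff ℝ ∞ f) (hφ : ContDiff ℝ ∞ φ)
    (hs : HasCompactSupport φ) : ∫ y, f y * (Δ φ) y = ∫ y, (Δ f) y * φ y := by
  simp_rw [lap_eq hf, lap_eq hφ, Finset.mul_sum, Finset.sum_mul]
  rw [integral_finsetSum, integral_finsetSum]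
  · apply Finset.sum_congr rfl
    intro i _
    set v := EuclideanSpace.basisFun (Fin N) ℝ i
    rw [int_parts f (fun z => fderiv ℝ φ z v) (hf.of_le (by norm_cast))
      ((cd_dir hφ v).of_le (by norm_cast)) (hs.fderiv_apply (𝕜 := ℝ) v) v]
    rw [int_parts (fun z => fderiv ℝ f z v) φ ((cd_dir hf v).of_le (by norm_cast))
      (hφ.of_le (by norm_cast)) hs v]
    ring
  · intro i _
    refine Continuous.integrable_of_hasCompactSupport ?_ (hs.mul_left)
    exact (cd_dir (cd_dir hf _) _).continuous.mul hφ.continuous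
  · intro i _
    refine Continuous.integrable_of_hasCompactSupport ?_ (HasCompactSupport.mul_left ?_)
    · exact hf.continuous.mul (cd_dir (cd_dir hφ _) _).continuous
    · exact (hs.fderiv_apply (𝕜 := ℝ) _).fderiv_apply (𝕜 := ℝ) _

lemma lap_cont {N : ℕ} {φ : E N → ℝ} (hφ : ContDiff ℝ ∞ φ) : Continuous (Δ φ) := by
  have h : (Δ φ) = fun y => ∑ i, fderiv ℝ (fun z => fderiv ℝ φ z (EuclideanSpace.basisFun (Fin N) ℝ i)) y
        (EuclideanSpace.basisFun (Fin N) ℝ i) := by
    ext y; exact lap_eq hφ y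
  rw [h]
  exact continuous_finsetSum _ (fun i _ => (cd_dir (cd_dir hφ _) _).continuous)

noncomputable def vv (N : ℕ) (R : ℝ) (z : E N) : ℝ := (R ^ 2 - ‖z‖ ^ 2) / (2 * N)

lemma vv_contDiff (N : ℕ) (R : ℝ) : ContDiff ℝ ∞ (vv N R) :=
  (contDiff_const.sub (contDiff_norm_sq ℝ)).div_const _

lemma vv_lap {N : ℕ} (hN : 1 ≤ N) (R : ℝ) (x : E N) : (Δ (vv N R)) x = -1 := by
  have hN' : (N : ℝ) ≠ 0 := by positivity
  rw [lap_eq (vv_contDiff N R)]
  have h1 : ∀ i : Fin N, (fun z : E N => fderiv ℝ (vv N R) z (EuclideanSpace.basisFun (Fin N) ℝ i))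
      = fun z => -(1 / (N : ℝ)) * z i := by
    intro i; ext z
    have h : HasFDerivAt (vv N R) ((1 / (2 * (N : ℝ))) • (-(2 • (innerSL ℝ z)) : E N →L[ℝ] ℝ)) z := by
      have := (((hasStrictFDerivAt_norm_sq z).hasFDerivAt.const_sub (R ^ 2)).const_mul (1 / (2 * (N : ℝ))))
      refine this.congr_of_eventuallyEq (Eventually.of_forall fun y => ?_)
      simp only [vv]; ring
    rw [h.fderiv]
    simp
    field_simp
    rw [EuclideanSpace.inner_single_right]
    simp
  have h2 : ∀ i : Fin N, fderiv ℝ (fun z : E N => fderiv ℝ (vv N R) z (EuclideanSpace.basisFun (Fin N) ℝ i)) x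
      (EuclideanSpace.basisFun (Fin N) ℝ i) = -(1 / (N : ℝ)) := by
    intro i
    rw [h1 i]
    have h : HasFDerivAt (fun z : E N => -(1 / (N : ℝ)) * z i)
        (-(1 / (N : ℝ)) • (EuclideanSpace.proj i : E N →L[ℝ] ℝ)) x :=
      ((EuclideanSpace.proj i : E N →L[ℝ] ℝ).hasFDerivAt).const_mul _
    rw [h.fderiv]
    simp
  rw [Finset.sum_congr rfl fun i _ => h2 i]
  simp
  field_simp

lemma lap_comp {N : ℕ} {ζ : E N → ℝ} (hζ : ContDiff ℝ ∞ ζ) (x : E N) :
    (Δ (fun y => j (ζ y))) x = j2 (ζ x) * ∑ i, (fderiv ℝ ζ x (EuclideanSpace.basisFun (Fin N) ℝ i)) ^ 2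
      + j1 (ζ x) * (Δ ζ) x := by
  have hd : ∀ z, HasFDerivAt ζ (fderiv ℝ ζ z) z := fun z =>
    (hζ.differentiable (by norm_num) z).hasFDerivAt
  rw [lap_eq (φ := fun y => j (ζ y)) (j_contDiff.comp hζ), lap_eq hζ, Finset.mul_sum, Finset.mul_sum,
    ← Finset.sum_add_distrib]
  apply Finset.sum_congr rfl
  intro i _
  set e := EuclideanSpace.basisFun (Fin N) ℝ i
  have h1 : (fun z : E N => fderiv ℝ (fun y => j (ζ y)) z e) = fun z => j1 (ζ z) * fderiv ℝ ζ z e := by
    ext z
    have : HasFDerivAt (fun y => j (ζ y)) (j1 (ζ z) • fderiv ℝ ζ z) z :=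
      (j_deriv (ζ z)).comp_hasFDerivAt z (hd z)
    rw [this.fderiv]
    simp
  rw [h1]
  have h2 : HasFDerivAt (fun z => j1 (ζ z)) (j2 (ζ x) • fderiv ℝ ζ x) x :=
    (j1_deriv (ζ x)).comp_hasFDerivAt x (hd x)
  have h3 : HasFDerivAt (fun z => fderiv ℝ ζ z e) (fderiv ℝ (fun z => fderiv ℝ ζ z e) x) x :=
    ((cd_dir hζ e).differentiable (by norm_num) x).hasFDerivAt
  have h4 : HasFDerivAt (fun z => j1 (ζ z) * fderiv ℝ ζ z e) _ x := h2.mul h3
  rw [h4.fderiv]
  simp
  ring

lemma J_smooth {N : ℕ} {Ω : Set (E N)} {ζ : E N → ℝ} (hO : IsOpen Ω) (hζ : IsT Ω ζ) :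
    ContDiff ℝ ∞ (Ω.indicator fun x => j (ζ x)) ∧
    (∀ x ∈ Ω, (Δ (Ω.indicator fun x => j (ζ x))) x = (Δ (fun x => j (ζ x))) x) ∧
    (∀ x ∉ Ω, (Δ (Ω.indicator fun x => j (ζ x))) x = 0) := by
  have hin : ∀ x ∈ Ω, (Ω.indicator fun x => j (ζ x)) =ᶠ[𝓝 x] fun x => j (ζ x) := by
    intro x hx
    filter_upwards [hO.mem_nhds hx] with y hy
    exact indicator_of_mem hy _
  have hout : ∀ x ∉ Ω, (Ω.indicator fun x => j (ζ x)) =ᶠ[𝓝 x] fun _ => (0 : ℝ) := by
    intro x hx
    by_cases hc : x ∈ closure Ω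
    · have hf : ζ x = 0 := hζ.2 x (by rw [hO.frontier_eq]; exact ⟨hc, hx⟩)
      have hn : ∀ᶠ y in 𝓝 x, |ζ y| < 1 := by
        have h1 : ContinuousAt (fun y => |ζ y|) x := hζ.1.continuous.abs.continuousAt
        exact h1.eventually_lt continuousAt_const (by simp [hf])
      filter_upwards [hn] with y hy
      by_cases hy' : y ∈ Ω
      · rw [indicator_of_mem hy']; exact j_zero hy.le
      · exact indicator_of_notMem hy' _
    · filter_upwards [isClosed_closure.isOpen_compl.mem_nhds hc] with y hy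
      exact indicator_of_notMem (fun h => hy (subset_closure h)) _
  refine ⟨?_, ?_, ?_⟩
  · rw [contDiff_iff_contDiffAt]
    intro x
    by_cases hx : x ∈ Ω
    · exact ((j_contDiff.comp hζ.1).contDiffAt).congr_of_eventuallyEq (hin x hx)
    · exact contDiffAt_const.congr_of_eventuallyEq (hout x hx)
  · intro x hx
    exact (InnerProductSpace.laplacian_congr_nhds (hin x hx)).eq_of_nhds
  · intro x hx
    rw [(InnerProductSpace.laplacian_congr_nhds (hout x hx)).eq_of_nhds]
    simp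

lemma main1 {N : ℕ} (hN : 1 ≤ N) {Ω : Set (E N)} {R : ℝ} {ζ : E N → ℝ} (hO : IsOpen Ω)
    (hR : Ω ⊆ ball 0 R) (hζ : IsT Ω ζ) :
    ∫ x in Ω, |ζ x| ≤ 2 * volume.real Ω + R ^ 2 * ∫ x in Ω, |(Δ ζ) x| := by
  obtain ⟨hs, hin, hout⟩ := J_smooth hO hζ
  set J := Ω.indicator fun x => j (ζ x) with hJ
  have hcs : HasCompactSupport J := by
    refine HasCompactSupport.of_support_subset_isCompact (isCompact_closedBall 0 R) ?_
    intro x hx
    have : x ∈ Ω := by
      by_contra h
      exact hx (indicator_of_notMem h _)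
    exact ball_subset_closedBall (hR this)
  have hg := green (vv_contDiff N R) hs hcs
  simp_rw [vv_lap hN R] at hg
  have hvol : volume Ω < ⊤ := (measure_mono hR).trans_lt measure_ball_lt_top
  have hio : ∀ f : E N → ℝ, Continuous f → IntegrableOn f Ω := fun f hf =>
    (hf.continuousOn.integrableOn_compact (isCompact_closedBall 0 R)).mono_set
      (hR.trans ball_subset_closedBall)
  have hjc : Continuous (fun x => j (ζ x)) := (j_contDiff.comp hζ.1).continuous
  have e1 : ∫ x in Ω, j (ζ x) = ∫ x, J x := (integral_indicator hO.measurableSet).symm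
  have e2 : ∫ x, J x = - ∫ x, vv N R x * (Δ J) x := by
    rw [hg, integral_const_mul]; ring
  have e3 : ∫ x, vv N R x * (Δ J) x = ∫ x in Ω, vv N R x * (Δ (fun y => j (ζ y))) x := by
    rw [← integral_indicator hO.measurableSet]
    congr 1; ext x
    by_cases hx : x ∈ Ω
    · rw [indicator_of_mem hx, hin x hx]
    · rw [indicator_of_notMem hx, hout x hx, mul_zero]
  have e4 : - ∫ x in Ω, vv N R x * (Δ (fun y => j (ζ y))) x ≤ ∫ x in Ω, R ^ 2 * |(Δ ζ) x| := by
    rw [← integral_neg]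
    apply setIntegral_mono_on
    · exact (hio _ ((vv_contDiff N R).continuous.mul (lap_cont (j_contDiff.comp hζ.1)))).neg
    · exact hio _ (continuous_const.mul (lap_cont hζ.1).abs)
    · exact hO.measurableSet
    · intro x hx
      have hxR : ‖x‖ < R := by simpa using hR hx
      have hN' : (1 : ℝ) ≤ N := by exact_mod_cast hN
      have hsq : ‖x‖ ^ 2 ≤ R ^ 2 := by
        have := norm_nonneg x
        gcongr
      have hv0 : 0 ≤ vv N R x := by
        unfold vv
        apply div_nonneg <;> linarith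
      have hv1 : vv N R x ≤ R ^ 2 := by
        unfold vv
        rw [div_le_iff₀ (by linarith)]
        nlinarith [sq_nonneg R, sq_nonneg ‖x‖]
      have hl : -|(Δ ζ) x| ≤ (Δ (fun y => j (ζ y))) x := by
        rw [lap_comp hζ.1 x]
        have h1 := j1_abs (ζ x)
        have h2 : |j1 (ζ x) * (Δ ζ) x| ≤ |(Δ ζ) x| := by
          rw [abs_mul]; exact mul_le_of_le_one_left (abs_nonneg _) h1
        have h3 : 0 ≤ j2 (ζ x) * ∑ i, (fderiv ℝ ζ x (EuclideanSpace.basisFun (Fin N) ℝ i)) ^ 2 :=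
          mul_nonneg (j2_nonneg _) (Finset.sum_nonneg fun i _ => sq_nonneg _)
        linarith [neg_abs_le (j1 (ζ x) * (Δ ζ) x)]
      have h5 := mul_le_mul_of_nonneg_left hl hv0
      have h6 := mul_le_mul_of_nonneg_right hv1 (abs_nonneg ((Δ ζ) x))
      linarith
  have e5 : ∫ x in Ω, |ζ x| ≤ ∫ x in Ω, (j (ζ x) + 2) := by
    apply setIntegral_mono
    · exact hio _ hζ.1.continuous.abs
    · exact hio _ (hjc.add continuous_const)
    · intro x; exact j_lower _
  have e6 : ∫ x in Ω, (j (ζ x) + 2) = (∫ x in Ω, j (ζ x)) + 2 * volume.real Ω := by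
    rw [integral_add (hio _ hjc) (hio _ continuous_const), setIntegral_const]
    simp; ring
  rw [integral_const_mul] at e4
  linarith

theorem main : S_EST := by
  intro N hN Ω R ζ hO hR hζ
  have key : ∀ n : ℕ, ∫ x in Ω, |ζ x| ≤
      (2 * volume.real Ω) * (1 / ((n : ℝ) + 1)) + R ^ 2 * ∫ x in Ω, |(Δ ζ) x| := by
    intro n
    have h := main1 hN hO hR (ζ := fun x => ((n : ℝ) + 1) * ζ x)
      ⟨contDiff_const.mul hζ.1, fun x hx => by simp [hζ.2 x hx]⟩
    have hl : ∀ x, (Δ (fun x => ((n : ℝ) + 1) * ζ x)) x = ((n : ℝ) + 1) * (Δ ζ) x := by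
      intro x
      have := InnerProductSpace.laplacian_smul (f := ζ) ((n : ℝ) + 1)
        ((hζ.1.contDiffAt (x := x)).of_le (by norm_cast))
      exact this
    have hp : (0 : ℝ) < (n : ℝ) + 1 := by positivity
    simp_rw [hl, abs_mul, abs_of_pos hp] at h
    rw [integral_const_mul, integral_const_mul] at h
    have h7 : ((n : ℝ) + 1) * (∫ x in Ω, |ζ x|) ≤ ((n : ℝ) + 1) *
        ((2 * volume.real Ω) * (1 / ((n : ℝ) + 1)) + R ^ 2 * ∫ x in Ω, |(Δ ζ) x|) := by
      have : ((n : ℝ) + 1) * ((2 * volume.real Ω) * (1 / ((n : ℝ) + 1)) +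
          R ^ 2 * ∫ x in Ω, |(Δ ζ) x|) =
          2 * volume.real Ω + R ^ 2 * (((n : ℝ) + 1) * ∫ x in Ω, |(Δ ζ) x|) := by
        field_simp
      rw [this]; exact h
    exact le_of_mul_le_mul_left h7 hp
  have ht : Tendsto (fun n : ℕ => (2 * volume.real Ω) * (1 / ((n : ℝ) + 1)) +
      R ^ 2 * ∫ x in Ω, |(Δ ζ) x|) atTop
      (𝓝 ((2 * volume.real Ω) * 0 + R ^ 2 * ∫ x in Ω, |(Δ ζ) x|)) :=
    (tendsto_one_div_add_atTop_nhds_zero_nat.const_mul _).add_const _
  have := ge_of_tendsto' ht key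
  simpa using this

end Pool.Agent.Q64.VP.EST

namespace Pool.Agent.Q64.VP

theorem t_EST : S_EST := EST.main

end Pool.Agent.Q64.VP
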