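import Pool.Agent.Q64.VP.Stm

/-!
# Project VP, lemma FRO: weak maximum principle (Frostman) for the truncated potential
-/

open MeasureTheory Filter Topology Set Metric
open scoped ENNReal NNReal ContDiff Laplacian

namespace Pool.Agent.Q64.VP

namespace FRO

/-- If `x` is a nearest point of `A` to `y` and `σ` lives on `A`, then
`σ (closedBall y s) ≤ σ (closedBall x (2 s))`. -/
theorem ball_le {N : ℕ} (σ : Measure (E N)) (A : Set (E N)) (hσ : σ Aᶜ = 0) (x y : E N)
    (hxA : ∀ a ∈ A, dist y x ≤ dist y a) (s : ℝ) :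
    σ (closedBall y s) ≤ σ (closedBall x (2 * s)) := by
  rcases lt_or_ge s (dist y x) with h | h
  · have h1 : closedBall y s ⊆ Aᶜ := by
      intro z hz hzA
      have h1 := hxA z hzA
      rw [mem_closedBall, dist_comm] at hz
      linarith
    rw [measure_mono_null h1 hσ]
    exact zero_le
  · apply measure_mono
    intro z hz
    rw [mem_closedBall] at hz ⊢
    have := dist_triangle z y x
    linarith

/-- substitution `t = 2 s` -/
theorem comp_two (D : ℝ) (h : ℝ → ℝ≥0∞) :
    ∫⁻ s in Ioo 0 D, h (2 * s) = ENNReal.ofReal |(2 : ℝ)⁻¹| * ∫⁻ t in Ioo 0 (2 * D), h t := by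
  have h1 : MeasurableEmbedding (fun s : ℝ => 2 * s) :=
    (Homeomorph.mulLeft₀ (2 : ℝ) two_ne_zero).measurableEmbedding
  have h2 := Real.map_volume_mul_left (a := (2 : ℝ)) two_ne_zero
  have h3 := h1.lintegral_map (μ := volume) ((Ioo 0 (2 * D)).indicator h)
  rw [← lintegral_indicator measurableSet_Ioo, ← lintegral_indicator measurableSet_Ioo]
  calc ∫⁻ s, (Ioo 0 D).indicator (fun s => h (2 * s)) s
      = ∫⁻ s, (Ioo 0 (2 * D)).indicator h (2 * s) := by
        apply lintegral_congr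
        intro s
        by_cases hs : s ∈ Ioo 0 D
        · have hs2 : 2 * s ∈ Ioo 0 (2 * D) := ⟨by linarith [hs.1], by linarith [hs.2]⟩
          rw [indicator_of_mem hs, indicator_of_mem hs2]
        · have hs2 : 2 * s ∉ Ioo 0 (2 * D) := by
            intro h4
            exact hs ⟨by linarith [h4.1], by linarith [h4.2]⟩
          rw [indicator_of_notMem hs, indicator_of_notMem hs2]
    _ = ∫⁻ t, (Ioo 0 (2 * D)).indicator h t ∂(Measure.map (fun s : ℝ => 2 * s) volume) := h3.symm
    _ = _ := by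
        rw [h2, lintegral_smul_measure, smul_eq_mul]

/-- the estimate at a nearest point -/
theorem main_est {N : ℕ} (hN : 2 ≤ N) (D : ℝ) (hD : 0 < D) (σ : Measure (E N)) (A : Set (E N))
    (hσ : σ Aᶜ = 0) (x y : E N) (hxA : ∀ a ∈ A, dist y x ≤ dist y a) :
    P D σ y ≤ ENNReal.ofReal |(2 : ℝ)⁻¹| *
      (P D σ x * ENNReal.ofReal ((1 / 2 : ℝ) ^ (1 - (N : ℝ))) +
        σ univ * ENNReal.ofReal ((D / 2) ^ (1 - (N : ℝ))) * ENNReal.ofReal (2 * D - D)) := by
  have hN' : (2 : ℝ) ≤ N := by exact_mod_cast hN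
  have h0 : P D σ y ≤ ∫⁻ s in Ioo 0 D,
      (fun t => σ (closedBall x t) * ENNReal.ofReal ((t / 2) ^ (1 - (N : ℝ)))) (2 * s) := by
    unfold P
    apply setLIntegral_mono' measurableSet_Ioo
    intro s _
    have h1 : 2 * s / 2 = s := by ring
    simp only [h1]
    exact mul_le_mul' (ball_le σ A hσ x y hxA s) le_rfl
  refine h0.trans ?_
  refine (comp_two D (fun t => σ (closedBall x t) *
    ENNReal.ofReal ((t / 2) ^ (1 - (N : ℝ))))).le.trans ?_
  apply mul_le_mul' le_rfl
  have h1 : Ioo 0 (2 * D) ⊆ Ioo 0 D ∪ Ico D (2 * D) := by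
    intro t ht
    rcases lt_or_ge t D with h | h
    · exact Or.inl ⟨ht.1, h⟩
    · exact Or.inr ⟨h, ht.2⟩
  refine (lintegral_mono_set h1).trans ((lintegral_union_le _ _ _).trans ?_)
  gcongr
  · unfold P
    have hc : ENNReal.ofReal ((1 / 2 : ℝ) ^ (1 - (N : ℝ))) ≠ ⊤ := ENNReal.ofReal_ne_top
    rw [← lintegral_mul_const' _ _ hc]
    apply setLIntegral_mono' measurableSet_Ioo
    intro t ht
    rw [mul_assoc, ← ENNReal.ofReal_mul (Real.rpow_nonneg ht.1.le _),
      ← Real.mul_rpow ht.1.le (by norm_num)]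
    have h2 : t * (1 / 2) = t / 2 := by ring
    rw [h2]
  · calc ∫⁻ t in Ico D (2 * D), σ (closedBall x t) * ENNReal.ofReal ((t / 2) ^ (1 - (N : ℝ)))
        ≤ ∫⁻ _ in Ico D (2 * D), σ univ * ENNReal.ofReal ((D / 2) ^ (1 - (N : ℝ))) := by
          apply setLIntegral_mono' measurableSet_Ico
          intro t ht
          apply mul_le_mul' (measure_mono (subset_univ _))
          apply ENNReal.ofReal_le_ofReal
          apply Real.rpow_le_rpow_of_nonpos (by linarith) (by linarith [ht.1])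
          linarith
      _ = _ := by
          rw [setLIntegral_const, Real.volume_Ico]

end FRO

open FRO in
theorem t_FRO : S_FRO := by
  intro N hN D σ A M hD hfin hA hσ hM
  rcases A.eq_empty_or_nonempty with h | h
  · refine ⟨0, fun x => ?_⟩
    have h1 : σ univ = 0 := by rw [h, compl_empty] at hσ; exact hσ
    unfold P
    have h2 : ∀ s : ℝ, σ (closedBall x s) = 0 := fun s => measure_mono_null (subset_univ _) h1
    simp [h2]
  · refine ⟨(ENNReal.ofReal |(2 : ℝ)⁻¹| * ((M : ℝ≥0∞) * ENNReal.ofReal ((1 / 2 : ℝ) ^ (1 - (N : ℝ))) +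
      σ univ * ENNReal.ofReal ((D / 2) ^ (1 - (N : ℝ))) * ENNReal.ofReal (2 * D - D))).toNNReal,
      fun y => ?_⟩
    rw [ENNReal.coe_toNNReal]
    · obtain ⟨x, hx, hxA⟩ := hA.exists_infDist_eq_dist h y
      have h1 : ∀ a ∈ A, dist y x ≤ dist y a := by
        intro a ha
        rw [← hxA]
        exact infDist_le_dist_of_mem ha
      refine (main_est hN D hD σ A hσ x y h1).trans ?_
      gcongr
      exact hM x hx
    · have := measure_ne_top σ univ
      apply ENNReal.mul_ne_top ENNReal.ofReal_ne_top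
      apply ENNReal.add_ne_top.2 ⟨?_, ?_⟩
      · exact ENNReal.mul_ne_top ENNReal.coe_ne_top ENNReal.ofReal_ne_top
      · exact ENNReal.mul_ne_top (ENNReal.mul_ne_top this ENNReal.ofReal_ne_top) ENNReal.ofReal_ne_top

end Pool.Agent.Q64.VP
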