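import Pool.Agent.Q64.VP.Stm

open MeasureTheory Filter Topology Set Metric
open scoped ENNReal NNReal ContDiff Laplacian

namespace Pool.Agent.Q64.VP

namespace HAR

/-- scaling of the weight -/
theorem weight {N : ℕ} (hN : 2 ≤ N) {a s : ℝ} (ha : 0 < a) (hs : 0 < s) :
    ENNReal.ofReal (s ^ (1 - (N : ℝ))) =
      ENNReal.ofReal (a ^ (N - 2)) * (ENNReal.ofReal |a| *
        ENNReal.ofReal ((a * s) ^ (1 - (N : ℝ)))) := by
  rw [← ENNReal.ofReal_mul (abs_nonneg a), ← ENNReal.ofReal_mul (by positivity), abs_of_pos ha]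
  congr 1
  rw [Real.mul_rpow ha.le hs.le]
  have h1 : a ^ (N - 2) = a ^ ((N : ℝ) - 2) := by
    rw [← Real.rpow_natCast]
    congr 1
    push_cast [Nat.cast_sub hN]
    ring
  have h2 : a ^ (N - 2) * (a * (a ^ (1 - (N : ℝ)))) = 1 := by
    rw [h1]
    have h3 : a * a ^ (1 - (N : ℝ)) = a ^ (1 + (1 - (N : ℝ))) := by
      rw [Real.rpow_add ha, Real.rpow_one]
    rw [h3, ← Real.rpow_add ha]
    have : (N : ℝ) - 2 + (1 + (1 - (N : ℝ))) = 0 := by ring
    rw [this, Real.rpow_zero]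
  calc s ^ (1 - (N : ℝ)) = (a ^ (N - 2) * (a * (a ^ (1 - (N : ℝ))))) * s ^ (1 - (N : ℝ)) := by
        rw [h2, one_mul]
    _ = _ := by ring

/-- substitution -/
theorem subst {N : ℕ} (hN : 2 ≤ N) (ν : Measure (E N)) (z : E N) {a D : ℝ} (ha : 0 < a) :
    ∫⁻ s in Ioo 0 D, ν (closedBall z (a * s)) * ENNReal.ofReal (s ^ (1 - (N : ℝ))) =
      ENNReal.ofReal (a ^ (N - 2)) *
        ∫⁻ s in Ioo 0 (a * D), ν (closedBall z s) * ENNReal.ofReal (s ^ (1 - (N : ℝ))) := by
  have him : (fun s : ℝ => a * s) '' Ioo 0 D = Ioo 0 (a * D) := by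
    have := Set.image_mul_left_Ioo ha 0 D
    simpa using this
  rw [← him, lintegral_image_eq_lintegral_abs_deriv_mul measurableSet_Ioo
    (f := fun s : ℝ => a * s) (f' := fun _ => a)
    (fun x _ => by simpa using ((hasDerivAt_id x).const_mul a).hasDerivWithinAt)
    (fun x _ y _ h => mul_left_cancel₀ ha.ne' h)]
  rw [← lintegral_const_mul' _ _ ENNReal.ofReal_ne_top]
  refine setLIntegral_congr_fun measurableSet_Ioo fun s hs => ?_
  rw [weight hN ha hs.1]
  ring

end HAR

theorem t_HAR : S_HAR := by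
  intro N hN η D ν A hη hη4 hD hν hA hne hνA
  have ha : (0 : ℝ) < 1 + η := by linarith
  set K : ℝ≥0∞ := ENNReal.ofReal ((1 + η) ^ (N - 2)) *
    ∫⁻ s in Ico D ((1 + η) * D), ν univ * ENNReal.ofReal (D ^ (1 - (N : ℝ))) with hK
  have hKt : K ≠ ⊤ := by
    rw [hK, setLIntegral_const]
    refine ENNReal.mul_ne_top ENNReal.ofReal_ne_top (ENNReal.mul_ne_top
      (ENNReal.mul_ne_top (measure_ne_top ν _) ENNReal.ofReal_ne_top) ?_)
    rw [Real.volume_Ico]
    exact ENNReal.ofReal_ne_top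
  refine ⟨K.toNNReal, fun y z hy hz => ?_⟩
  rw [ENNReal.coe_toNNReal hKt]
  set r := infDist y A with hr
  have h1 : P D ν y ≤ ∫⁻ s in Ioo 0 D, ν (closedBall z ((1 + η) * s)) *
      ENNReal.ofReal (s ^ (1 - (N : ℝ))) := by
    unfold P
    refine lintegral_mono fun s => ?_
    gcongr ?_ * _
    rcases lt_or_ge s r with hs | hs
    · have : ν (closedBall y s) = 0 := by
        refine measure_mono_null (fun x hx => ?_) hνA
        intro hxA
        have h2 := infDist_le_dist_of_mem (x := y) hxA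
        rw [mem_closedBall, dist_comm] at hx
        linarith
      rw [this]
      exact zero_le
    · refine measure_mono fun x hx => ?_
      rw [mem_closedBall] at hx ⊢
      rw [mem_ball] at hz
      have h2 := dist_triangle x y z
      rw [dist_comm y z] at h2
      have h3 : η * r ≤ η * s := by gcongr
      linarith
  rw [HAR.subst hN ν z ha] at h1
  have hsplit : ∫⁻ s in Ioo 0 ((1 + η) * D), ν (closedBall z s) * ENNReal.ofReal (s ^ (1 - (N : ℝ)))
      ≤ P D ν z + ∫⁻ s in Ico D ((1 + η) * D), ν univ * ENNReal.ofReal (D ^ (1 - (N : ℝ))) := by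
    have hsub : Ioo 0 ((1 + η) * D) ⊆ Ioo 0 D ∪ Ico D ((1 + η) * D) := by
      intro s hs
      rcases lt_or_ge s D with h | h
      · exact Or.inl ⟨hs.1, h⟩
      · exact Or.inr ⟨h, hs.2⟩
    refine (lintegral_mono_set hsub).trans ((lintegral_union_le _ _ _).trans ?_)
    unfold P
    refine add_le_add le_rfl ?_
    refine setLIntegral_mono' measurableSet_Ico fun s hs => ?_
    have : s ^ (1 - (N : ℝ)) ≤ D ^ (1 - (N : ℝ)) := by
      apply Real.rpow_le_rpow_of_nonpos hD hs.1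
      have : (2 : ℝ) ≤ N := by exact_mod_cast hN
      linarith
    gcongr
    exact subset_univ _
  calc P D ν y ≤ _ := h1
    _ ≤ ENNReal.ofReal ((1 + η) ^ (N - 2)) * (P D ν z +
        ∫⁻ s in Ico D ((1 + η) * D), ν univ * ENNReal.ofReal (D ^ (1 - (N : ℝ)))) := by
      gcongr
    _ = _ := by rw [mul_add, hK]

end Pool.Agent.Q64.VP
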