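import Pool.Agent.Q64.VP.Stm

/-!
# HB of the VP project: the bounded solution by duality

`t_HB : S_EST → S_HB`. Hahn-Banach with the seminorm `M ∫ |φ|` on `L²(Ω)`, Riesz' theorem in
`L²(Ω)`, and the bound of the representing function by `M`.
-/

open MeasureTheory Filter Topology Set Metric
open scoped ENNReal NNReal ContDiff Laplacian

namespace Pool.Agent.Q64.VP.HB

variable {α : Type*} [MeasurableSpace α] {μ : Measure α}

lemma int_lp [IsFiniteMeasure μ] (f : Lp ℝ 2 μ) : Integrable f μ :=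
  (Lp.memLp f).integrable (by norm_num)

/-- the seminorm `M ∫ |x|` on `L²` -/
noncomputable def sn (μ : Measure α) [IsFiniteMeasure μ] (M : ℝ) (hM : 0 ≤ M) :
    Seminorm ℝ (Lp ℝ 2 μ) :=
  Seminorm.of (fun f => M * ∫ x, |f x| ∂μ) (fun f g => by
    have h1 : ∫ x, |(f + g : Lp ℝ 2 μ) x| ∂μ ≤ ∫ x, (|f x| + |g x|) ∂μ := by
      refine integral_mono_ae (int_lp _).abs ((int_lp _).abs.add (int_lp _).abs) ?_
      filter_upwards [Lp.coeFn_add f g] with x hx
      rw [hx]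
      exact abs_add_le _ _
    rw [integral_add (int_lp _).abs (int_lp _).abs] at h1
    nlinarith [mul_le_mul_of_nonneg_left h1 hM]) (fun c f => by
    have h1 : ∫ x, |(c • f : Lp ℝ 2 μ) x| ∂μ = ∫ x, |c| * |f x| ∂μ := by
      refine integral_congr_ae ?_
      filter_upwards [Lp.coeFn_smul c f] with x hx
      rw [hx]
      simp [abs_mul]
    rw [h1, integral_const_mul]
    simp only [Real.norm_eq_abs]
    ring)

lemma sn_apply [IsFiniteMeasure μ] (M : ℝ) (hM : 0 ≤ M) (f : Lp ℝ 2 μ) :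
    sn μ M hM f = M * ∫ x, |f x| ∂μ := rfl

lemma l1_le [IsFiniteMeasure μ] : ∃ C : ℝ, 0 ≤ C ∧ ∀ f : Lp ℝ 2 μ, ∫ x, |f x| ∂μ ≤ C * ‖f‖ := by
  refine ⟨(μ univ ^ (1 / (1 : ℝ≥0∞).toReal - 1 / (2 : ℝ≥0∞).toReal)).toReal,
    ENNReal.toReal_nonneg, fun f => ?_⟩
  have h := eLpNorm_le_eLpNorm_mul_rpow_measure_univ (μ := μ) (p := 1) (q := 2) (by norm_num)
    (Lp.aestronglyMeasurable f)
  have h2 : ∫ x, |f x| ∂μ = (eLpNorm f 1 μ).toReal := by
    rw [eLpNorm_one_eq_lintegral_enorm,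
      ← integral_norm_eq_lintegral_enorm (Lp.aestronglyMeasurable f)]
    rfl
  rw [h2, Lp.norm_def, mul_comm, ← ENNReal.toReal_mul]
  refine ENNReal.toReal_mono ?_ h
  refine ENNReal.mul_ne_top (Lp.memLp f).2.ne (ENNReal.rpow_ne_top_of_nonneg ?_ (measure_ne_top _ _))
  norm_num

lemma rep [IsFiniteMeasure μ] (M : ℝ) (hM : 0 ≤ M) {T : Type*} [AddCommGroup T] [Module ℝ T]
    (A : T →ₗ[ℝ] Lp ℝ 2 μ) (B : T →ₗ[ℝ] ℝ) (hB : ∀ t, |B t| ≤ M * ∫ x, |A t x| ∂μ) :
    ∃ v : α → ℝ, Measurable v ∧ (∀ x, |v x| ≤ M) ∧ ∀ t, ∫ x, v x * A t x ∂μ = B t := by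
  obtain ⟨r, hr⟩ := A.rangeRestrict.exists_rightInverse_of_surjective
    (LinearMap.range_rangeRestrict A)
  have hker : ∀ t : T, A t = 0 → B t = 0 := by
    intro t ht
    have h := hB t
    rw [ht] at h
    have h0 : ∫ x, |(0 : Lp ℝ 2 μ) x| ∂μ = 0 := by
      rw [← integral_zero α ℝ (μ := μ)]
      refine integral_congr_ae ?_
      filter_upwards [Lp.coeFn_zero ℝ 2 μ] with x hx
      rw [hx]
      simp
    rw [h0, mul_zero] at h
    exact abs_nonpos_iff.1 h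
  have hrA : ∀ y : LinearMap.range A, A (r y) = y := by
    intro y
    have := LinearMap.congr_fun hr y
    exact congrArg Subtype.val this
  obtain ⟨g, hg1, hg2⟩ := Module.Dual.exists_extension_of_le_seminorm_real (LinearMap.range A)
    (B.comp r) (p := sn μ M hM) (by
      intro y
      rw [sn_apply, LinearMap.comp_apply, ← hrA y]
      have := hB (r y)
      rw [hrA y] at this ⊢
      exact (le_abs_self _).trans this)
  have hgA : ∀ t : T, g (A t) = B t := by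
    intro t
    have h := hg1 ⟨A t, LinearMap.mem_range_self A t⟩
    rw [LinearMap.comp_apply] at h
    have h2 : B (r ⟨A t, LinearMap.mem_range_self A t⟩ - t) = 0 := by
      refine hker _ ?_
      rw [map_sub, hrA]
      simp
    rw [map_sub, sub_eq_zero] at h2
    rw [← h2, ← h]
  obtain ⟨C, hC0, hC⟩ := l1_le (μ := μ)
  let G : Lp ℝ 2 μ →L[ℝ] ℝ := g.mkContinuous (M * C) (by
    intro f
    rw [Real.norm_eq_abs]
    refine (hg2 f).trans ?_
    rw [sn_apply, mul_assoc]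
    exact mul_le_mul_of_nonneg_left (hC f) hM)
  have hG : ∀ f, G f = g f := fun f => rfl
  let w : Lp ℝ 2 μ := (InnerProductSpace.toDual ℝ (Lp ℝ 2 μ)).symm G
  have hw : ∀ f : Lp ℝ 2 μ, ∫ x, w x * f x ∂μ = g f := by
    intro f
    rw [← hG, ← InnerProductSpace.toDual_symm_apply (𝕜 := ℝ) (x := f) (y := G), L2.inner_def]
    refine integral_congr_ae (Eventually.of_forall fun x => ?_)
    simp [w, mul_comm]
  have hind : ∀ s : Set α, MeasurableSet s → |∫ x in s, w x ∂μ| ≤ M * (μ s).toReal := by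
    intro s hs
    have hμs : μ s ≠ ⊤ := measure_ne_top _ _
    have h1 := hg2 (indicatorConstLp 2 hs hμs (1 : ℝ))
    rw [← hw, sn_apply] at h1
    have h2 : ∫ x, w x * (indicatorConstLp 2 hs hμs (1 : ℝ)) x ∂μ = ∫ x in s, w x ∂μ := by
      rw [← integral_indicator hs]
      refine integral_congr_ae ?_
      filter_upwards [indicatorConstLp_coeFn (p := 2) (hs := hs) (hμs := hμs) (c := (1 : ℝ))]
        with x hx
      rw [hx]
      by_cases hxs : x ∈ s <;> simp [hxs]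
    have h3 : ∫ x, |(indicatorConstLp 2 hs hμs (1 : ℝ)) x| ∂μ = (μ s).toReal := by
      have : ∫ x, |(indicatorConstLp 2 hs hμs (1 : ℝ)) x| ∂μ = ∫ x in s, (1 : ℝ) ∂μ := by
        rw [← integral_indicator hs]
        refine integral_congr_ae ?_
        filter_upwards [indicatorConstLp_coeFn (p := 2) (hs := hs) (hμs := hμs) (c := (1 : ℝ))]
          with x hx
        rw [hx]
        by_cases hxs : x ∈ s <;> simp [hxs]
      rw [this]
      simp [Measure.real]
    rw [h2, h3] at h1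
    exact h1
  have hup : (w : α → ℝ) ≤ᵐ[μ] fun _ => M := by
    refine ae_le_of_forall_setIntegral_le (int_lp w) (integrable_const _) ?_
    intro s hs _
    refine (le_abs_self _).trans ((hind s hs).trans (le_of_eq ?_))
    simp [Measure.real, mul_comm]
  have hlo : (fun _ => -M) ≤ᵐ[μ] (w : α → ℝ) := by
    refine ae_le_of_forall_setIntegral_le (integrable_const _) (int_lp w) ?_
    intro s hs _
    have := (abs_le.1 (hind s hs)).1
    refine le_trans (le_of_eq ?_) this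
    simp [Measure.real, mul_comm]
  obtain ⟨w', hw'm, hw'⟩ := (Lp.aestronglyMeasurable w)
  refine ⟨fun x => max (-M) (min M (w' x)), ?_, ?_, ?_⟩
  · exact measurable_const.max (measurable_const.min hw'm.measurable)
  · intro x
    rw [abs_le]
    refine ⟨le_max_left _ _, max_le (by linarith) (min_le_left _ _)⟩
  · intro t
    rw [← hgA, ← hw]
    refine integral_congr_ae ?_
    filter_upwards [hup, hlo, hw'] with x h1 h2 h3
    rw [← h3, min_eq_right h1, max_eq_right h2]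


/-! ## The Laplacian of a smooth function -/

lemma lap_cont {N : ℕ} {ζ : E N → ℝ} (hζ : ContDiff ℝ ∞ ζ) : Continuous (Δ ζ) := by
  rw [InnerProductSpace.laplacian_eq_iteratedFDeriv_stdOrthonormalBasis]
  refine continuous_finsetSum _ fun i _ => ?_
  have h : Continuous (iteratedFDeriv ℝ 2 ζ) := (contDiff_infty.1 hζ 2).continuous_iteratedFDeriv'
  exact (ContinuousMultilinearMap.apply ℝ (fun _ : Fin 2 => E N) ℝ
    ![(stdOrthonormalBasis ℝ (E N)) i, (stdOrthonormalBasis ℝ (E N)) i]).continuous.comp h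

lemma c2 {N : ℕ} {ζ : E N → ℝ} (hζ : ContDiff ℝ ∞ ζ) (x : E N) : ContDiffAt ℝ 2 ζ x :=
  (contDiff_infty.1 hζ 2).contDiffAt

lemma bdd_cont {N : ℕ} {Ω : Set (E N)} (hb : Bornology.IsBounded Ω) {f : E N → ℝ}
    (hf : Continuous f) : ∃ C : ℝ, ∀ x ∈ Ω, ‖f x‖ ≤ C := by
  obtain ⟨C, hC⟩ := (hb.isCompact_closure).exists_bound_of_continuousOn hf.continuousOn
  exact ⟨C, fun x hx => hC x (subset_closure hx)⟩

lemma lap_mem {N : ℕ} {Ω : Set (E N)} (hΩ : IsOpen Ω) (hb : Bornology.IsBounded Ω)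
    {ζ : E N → ℝ} (hζ : ContDiff ℝ ∞ ζ) : MemLp (Δ ζ) 2 (volume.restrict Ω) := by
  have : IsFiniteMeasure (volume.restrict Ω) :=
    ⟨by rw [Measure.restrict_apply_univ]; exact hb.measure_lt_top⟩
  obtain ⟨C, hC⟩ := bdd_cont hb (lap_cont hζ)
  refine MemLp.of_bound (lap_cont hζ).aestronglyMeasurable C ?_
  exact (ae_restrict_iff' hΩ.measurableSet).2 (Eventually.of_forall hC)

lemma mul_int {N : ℕ} {Ω : Set (E N)} (hΩ : IsOpen Ω) (hb : Bornology.IsBounded Ω)
    {h : E N → ℝ} {H : ℝ} (hm : Measurable h) (hH : ∀ x, |h x| ≤ H)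
    {ζ : E N → ℝ} (hζ : ContDiff ℝ ∞ ζ) : IntegrableOn (fun x => h x * ζ x) Ω := by
  have : IsFiniteMeasure (volume.restrict Ω) :=
    ⟨by rw [Measure.restrict_apply_univ]; exact hb.measure_lt_top⟩
  obtain ⟨C, hC⟩ := bdd_cont hb hζ.continuous
  have hH0 : 0 ≤ H := (abs_nonneg _).trans (hH 0)
  refine Integrable.of_bound (hm.aestronglyMeasurable.mul
    hζ.continuous.aestronglyMeasurable) (H * C) ?_
  refine (ae_restrict_iff' hΩ.measurableSet).2 (Eventually.of_forall fun x hx => ?_)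
  rw [norm_mul]
  exact mul_le_mul (hH x) (hC x hx) (norm_nonneg _) hH0

/-- the space of test functions -/
def TT {N : ℕ} (Ω : Set (E N)) : Submodule ℝ (E N → ℝ) where
  carrier := {ζ | IsT Ω ζ}
  add_mem' := by
    rintro a b ⟨ha, ha'⟩ ⟨hb, hb'⟩
    refine ⟨ha.add hb, fun x hx => ?_⟩
    simp [ha' x hx, hb' x hx]
  zero_mem' := ⟨contDiff_const, fun x _ => rfl⟩
  smul_mem' := by
    rintro c a ⟨ha, ha'⟩
    refine ⟨ha.const_smul c, fun x hx => ?_⟩
    simp [ha' x hx]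

/-- `ζ ↦ Δζ ∈ L²(Ω)` -/
noncomputable def AA {N : ℕ} {Ω : Set (E N)} (hΩ : IsOpen Ω) (hb : Bornology.IsBounded Ω) :
    TT Ω →ₗ[ℝ] Lp ℝ 2 (volume.restrict Ω) where
  toFun ζ := (lap_mem hΩ hb ζ.2.1).toLp _
  map_add' a b := by
    rw [← MemLp.toLp_add]
    refine MemLp.toLp_congr _ _ (Eventually.of_forall fun x => ?_)
    exact (c2 a.2.1 x).laplacian_add (c2 b.2.1 x)
  map_smul' c a := by
    rw [RingHom.id_apply, ← MemLp.toLp_const_smul]
    refine MemLp.toLp_congr _ _ (Eventually.of_forall fun x => ?_)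
    exact InnerProductSpace.laplacian_smul c (c2 a.2.1 x)

/-- `ζ ↦ -∫ h ζ` -/
noncomputable def BB {N : ℕ} {Ω : Set (E N)} (hΩ : IsOpen Ω) (hb : Bornology.IsBounded Ω)
    {h : E N → ℝ} {H : ℝ} (hm : Measurable h) (hH : ∀ x, |h x| ≤ H) : TT Ω →ₗ[ℝ] ℝ where
  toFun ζ := -∫ x in Ω, h x * ζ.1 x
  map_add' a b := by
    have h1 : ∫ x in Ω, h x * (a + b).1 x = ∫ x in Ω, (h x * a.1 x + h x * b.1 x) :=
      integral_congr_ae (Eventually.of_forall fun x => by
        show h x * (a.1 x + b.1 x) = _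
        ring)
    rw [h1, integral_add (mul_int hΩ hb hm hH a.2.1) (mul_int hΩ hb hm hH b.2.1)]
    ring
  map_smul' c a := by
    have h1 : ∫ x in Ω, h x * (c • a).1 x = ∫ x in Ω, c * (h x * a.1 x) :=
      integral_congr_ae (Eventually.of_forall fun x => by
        show h x * (c * a.1 x) = _
        ring)
    rw [h1, integral_const_mul, RingHom.id_apply, smul_eq_mul]
    ring

lemma abs_BB {N : ℕ} {Ω : Set (E N)} (hΩ : IsOpen Ω) (hb : Bornology.IsBounded Ω)
    {h : E N → ℝ} {H : ℝ} (hm : Measurable h) (hH : ∀ x, |h x| ≤ H) (ζ : TT Ω) :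
    |BB hΩ hb hm hH ζ| ≤ H * ∫ x in Ω, |ζ.1 x| := by
  show |-∫ x in Ω, h x * ζ.1 x| ≤ _
  rw [abs_neg, ← integral_const_mul]
  have hfin : IsFiniteMeasure (volume.restrict Ω) :=
    ⟨by rw [Measure.restrict_apply_univ]; exact hb.measure_lt_top⟩
  have hζi : IntegrableOn ζ.1 Ω := by
    obtain ⟨C, hC⟩ := bdd_cont hb ζ.2.1.continuous
    refine Integrable.of_bound ζ.2.1.continuous.aestronglyMeasurable C ?_
    exact (ae_restrict_iff' hΩ.measurableSet).2 (Eventually.of_forall hC)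
  refine (abs_integral_le_integral_abs).trans ?_
  refine integral_mono_ae (mul_int hΩ hb hm hH ζ.2.1).abs (hζi.abs.const_mul H)
    (Eventually.of_forall fun x => ?_)
  show |h x * ζ.1 x| ≤ H * |ζ.1 x|
  rw [abs_mul]
  exact mul_le_mul_of_nonneg_right (hH x) (abs_nonneg _)

end Pool.Agent.Q64.VP.HB

namespace Pool.Agent.Q64.VP

theorem t_HB (est : S_EST) : S_HB := by
  intro N hN Ω h H hΩ hb hm hH
  obtain ⟨R, hR⟩ := hb.subset_ball 0
  have hfin : IsFiniteMeasure (volume.restrict Ω) :=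
    ⟨by rw [Measure.restrict_apply_univ]; exact hb.measure_lt_top⟩
  have hH0 : 0 ≤ H := (abs_nonneg _).trans (hH 0)
  have hAA : ∀ ζ : HB.TT Ω, (HB.AA hΩ hb ζ : E N → ℝ) =ᵐ[volume.restrict Ω] (Δ ζ.1) :=
    fun ζ => (HB.lap_mem hΩ hb ζ.2.1).coeFn_toLp
  obtain ⟨v, hv1, hv2, hv3⟩ := HB.rep (H * R ^ 2) (by positivity) (HB.AA hΩ hb)
    (HB.BB hΩ hb hm hH) (by
      intro ζ
      refine (HB.abs_BB hΩ hb hm hH ζ).trans ?_
      have h1 := est N hN Ω R ζ.1 hΩ hR ζ.2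
      have h2 : ∫ x in Ω, |(HB.AA hΩ hb ζ : E N → ℝ) x| = ∫ x in Ω, |(Δ ζ.1) x| :=
        integral_congr_ae ((hAA ζ).fun_comp fun t => |t|)
      rw [h2, mul_assoc]
      exact mul_le_mul_of_nonneg_left h1 hH0)
  refine ⟨v, H * R ^ 2, hv1, hv2, fun ζ hζ => ?_⟩
  have h1 := hv3 ⟨ζ, hζ⟩
  have h2 : ∫ x in Ω, v x * (HB.AA hΩ hb ⟨ζ, hζ⟩ : E N → ℝ) x = ∫ x in Ω, v x * (Δ ζ) x := by
    refine integral_congr_ae ?_
    filter_upwards [hAA ⟨ζ, hζ⟩] with x hx
    rw [hx]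
  rw [← h2, h1]
  show - -∫ x in Ω, h x * ζ x = _
  rw [neg_neg]

end Pool.Agent.Q64.VP
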