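import Pool.Agent.Q64.VP.Stm
import Pool.Agent.Helper304.LapBasic

/-!
# Job VP-LOW of project VP (helper64): lower bound of `u` by potentials
-/

set_option autoImplicit false

open MeasureTheory Filter Topology Set Metric
open scoped ENNReal NNReal ContDiff Laplacian

namespace Pool.Agent.Q64.VP.LOW

variable {N : ℕ}

/-- the potential of `σ` with the kernel `k` -/
noncomputable def U (k : E N → ℝ) (σ : Measure (E N)) (x : E N) : ℝ := ∫ y, k (x - y) ∂σ

theorem int2 {k : E N → ℝ} (hk : Measurable k) (hki : Integrable k) (σ : Measure (E N))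
    [IsFiniteMeasure σ] :
    Integrable (fun p : E N × E N => k (p.1 - p.2)) ((volume : Measure (E N)).prod σ) := by
  have hm : AEStronglyMeasurable (fun p : E N × E N => k (p.1 - p.2))
      ((volume : Measure (E N)).prod σ) :=
    (hk.comp (measurable_fst.sub measurable_snd)).aestronglyMeasurable
  rw [integrable_prod_iff' hm]
  refine ⟨Eventually.of_forall fun y => hki.comp_sub_right y, ?_⟩
  have h0 : (fun y : E N => ∫ x : E N, ‖k ((x, y).1 - (x, y).2)‖) = fun _ => ∫ x, ‖k x‖ := by
    ext y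
    exact integral_sub_right_eq_self (fun x => ‖k x‖) y
  rw [h0]
  exact integrable_const _

theorem U_int {k : E N → ℝ} (hk : Measurable k) (hki : Integrable k) (σ : Measure (E N))
    [IsFiniteMeasure σ] : Integrable (U k σ) := (int2 hk hki σ).integral_prod_left

theorem fub {k ψ : E N → ℝ} {σ : Measure (E N)} [SFinite σ]
    (h : Integrable (fun p : E N × E N => k (p.1 - p.2) * ψ p.1)
      ((volume : Measure (E N)).prod σ)) :
    ∫ x, U k σ x * ψ x = ∫ y, (∫ x, k (x - y) * ψ x) ∂σ := by
  have h1 : ∀ x, U k σ x * ψ x = ∫ y, k (x - y) * ψ x ∂σ := fun x => (integral_mul_const _ _).symm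
  simp_rw [h1]
  exact integral_integral_swap h

theorem U_bd {m : E N → ℝ} {M : ℝ} (hM : ∀ x, |m x| ≤ M) (σ : Measure (E N)) [IsFiniteMeasure σ]
    (x : E N) : |U m σ x| ≤ M * σ.real univ := by
  have := norm_integral_le_of_norm_le_const (μ := σ) (f := fun y => m (x - y)) (C := M)
    (Eventually.of_forall fun y => hM _)
  simpa [U] using this

theorem U_meas {m : E N → ℝ} (hm : Continuous m) (σ : Measure (E N)) [IsFiniteMeasure σ] :
    StronglyMeasurable (U m σ) := by
  have h1 : StronglyMeasurable (fun p : E N × E N => m (p.1 - p.2)) :=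
    (hm.comp (continuous_fst.sub continuous_snd)).stronglyMeasurable
  exact StronglyMeasurable.integral_prod_right (f := fun x y : E N => m (x - y)) h1

theorem prod_m {m φ : E N → ℝ} {M : ℝ} (hm : Continuous m) (hM : ∀ x, |m x| ≤ M)
    (hφ : Integrable φ) (σ : Measure (E N)) [IsFiniteMeasure σ] :
    Integrable (fun p : E N × E N => m (p.1 - p.2) * φ p.1) ((volume : Measure (E N)).prod σ) := by
  have h1 : Integrable (fun p : E N × E N => φ p.1) ((volume : Measure (E N)).prod σ) :=
    hφ.comp_fst σ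
  refine h1.bdd_mul (c := M) ?_ (Eventually.of_forall fun p => hM _)
  exact (hm.comp (continuous_fst.sub continuous_snd)).aestronglyMeasurable

theorem prod_k {k ψ : E N → ℝ} {M : ℝ} (hk : Measurable k) (hki : Integrable k)
    (hψ : Continuous ψ) (hM : ∀ x, |ψ x| ≤ M) (σ : Measure (E N)) [IsFiniteMeasure σ] :
    Integrable (fun p : E N × E N => k (p.1 - p.2) * ψ p.1) ((volume : Measure (E N)).prod σ) := by
  refine (int2 hk hki σ).mul_bdd (c := M) ?_ (Eventually.of_forall fun p => hM _)
  exact (hψ.comp continuous_fst).aestronglyMeasurable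

theorem key {c : ℝ} {k m : E N → ℝ} {M : ℝ} (hk : Measurable k) (hki : Integrable k)
    (hm : Continuous m) (hM : ∀ x, |m x| ≤ M)
    (hid : ∀ ζ : E N → ℝ, ContDiff ℝ ∞ ζ → ∀ a, ∫ x, k (x - a) * (Δ ζ) x =
      -c * ζ a + ∫ x, m (x - a) * ζ x)
    (σ : Measure (E N)) [IsFiniteMeasure σ] {φ : E N → ℝ} (hφ : Helper304Lap.Tst φ) :
    ∫ x, U k σ x * (Δ φ) x = -c * (∫ x, φ x ∂σ) + ∫ x, U m σ x * φ x := by
  have hΔ : (Δ φ) = Helper304Lap.lap φ := funext fun x => Helper304Lap.lap_eq hφ.1 x
  obtain ⟨B, hB0, hB⟩ := hφ.lap.bdd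
  obtain ⟨B', hB0', hB'⟩ := hφ.bdd
  have h1 : Integrable (fun p : E N × E N => k (p.1 - p.2) * (Δ φ) p.1)
      ((volume : Measure (E N)).prod σ) := by
    rw [hΔ]
    exact prod_k hk hki hφ.lap.cont hB σ
  have h2 := prod_m hm hM hφ.integrable σ
  rw [fub h1, fub h2]
  simp_rw [hid φ hφ.1]
  have h3 : Integrable φ σ :=
    Integrable.of_bound hφ.cont.aestronglyMeasurable B' (Eventually.of_forall hB')
  rw [integral_add (h3.const_mul _) h2.integral_prod_right, integral_const_mul]

theorem pd_supp (i : Fin N) (φ : E N → ℝ) : tsupport (Helper304Lap.pd i φ) ⊆ tsupport φ := by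
  refine closure_minimal ?_ (isClosed_tsupport φ)
  intro y hy
  apply tsupport_fderiv_subset ℝ
  apply subset_tsupport
  intro h0
  apply hy
  unfold Helper304Lap.pd
  rw [h0]
  rfl

theorem lap_zero {φ : E N → ℝ} {x : E N} (hx : x ∉ tsupport φ) : Helper304Lap.lap φ x = 0 := by
  unfold Helper304Lap.lap
  refine Finset.sum_eq_zero fun i _ => ?_
  by_contra h
  exact hx (pd_supp i φ (pd_supp i _ (subset_tsupport _ h)))

theorem atoms (hN : 2 ≤ N) (μ : Measure (E N)) [IsFiniteMeasure μ] :
    ∀ᵐ x : E N, μ {x} = 0 := by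
  have : Nonempty (Fin N) := ⟨⟨0, by omega⟩⟩
  have : Nontrivial (E N) := inferInstance
  have h1 : Set.Countable {x : E N | 0 < μ {x}} := by
    refine Measure.countable_meas_pos_of_disjoint_iUnion (μ := μ) (As := fun x : E N => {x})
      (fun x => measurableSet_singleton x) ?_
    intro x y hxy
    simpa [Function.onFun] using hxy
  have h2 : volume {x : E N | 0 < μ {x}} = 0 := h1.measure_zero _
  rw [ae_iff]
  convert h2 using 2
  ext x
  simp [pos_iff_ne_zero]

theorem dens {Ω : Set (E N)} {f φ : E N → ℝ} (hf : IntegrableOn f Ω) (hφ : Helper304Lap.Tst φ) :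
    (∫ x, φ x ∂((volume.restrict Ω).withDensity fun y => ENNReal.ofReal (f y))) -
      (∫ x, φ x ∂((volume.restrict Ω).withDensity fun y => ENNReal.ofReal (-f y))) =
      ∫ x in Ω, f x * φ x := by
  obtain ⟨B', hB0', hB'⟩ := hφ.bdd
  have hfm : AEMeasurable f (volume.restrict Ω) := hf.aemeasurable
  have e1 : (∫ x, φ x ∂((volume.restrict Ω).withDensity fun y => ENNReal.ofReal (f y))) =
      ∫ x in Ω, max (f x) 0 * φ x := by
    rw [integral_withDensity_eq_integral_toReal_smul₀ hfm.ennreal_ofReal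
      (Eventually.of_forall fun x => ENNReal.ofReal_lt_top)]
    simp [ENNReal.toReal_ofReal']
  have e2 : (∫ x, φ x ∂((volume.restrict Ω).withDensity fun y => ENNReal.ofReal (-f y))) =
      ∫ x in Ω, max (-f x) 0 * φ x := by
    have hn : AEMeasurable (fun x => ENNReal.ofReal (-f x)) (volume.restrict Ω) :=
      hfm.neg.ennreal_ofReal
    rw [integral_withDensity_eq_integral_toReal_smul₀ hn
      (Eventually.of_forall fun x => ENNReal.ofReal_lt_top)]
    simp [ENNReal.toReal_ofReal']
  have i1 : IntegrableOn (fun x => max (f x) 0 * φ x) Ω :=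
    Integrable.mul_bdd (c := B') hf.pos_part hφ.cont.aestronglyMeasurable
      (Eventually.of_forall hB')
  have i2 : IntegrableOn (fun x => max (-f x) 0 * φ x) Ω :=
    Integrable.mul_bdd (c := B') hf.neg_part hφ.cont.aestronglyMeasurable
      (Eventually.of_forall hB')
  rw [e1, e2, ← integral_sub i1 i2]
  refine integral_congr_ae (Eventually.of_forall fun x => ?_)
  change max (f x) 0 * φ x - max (-f x) 0 * φ x = f x * φ x
  rw [← sub_mul, max_zero_sub_max_neg_zero_eq_self]

theorem comb4 {ν : Measure (E N)} {a b c d : E N → ℝ} (ha : Integrable a ν) (hb : Integrable b ν)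
    (hc : Integrable c ν) (hd : Integrable d ν) :
    ∫ x, (a x - b x + c x - d x) ∂ν =
      (∫ x, a x ∂ν) - (∫ x, b x ∂ν) + (∫ x, c x ∂ν) - ∫ x, d x ∂ν := by
  have h1 : Integrable (fun x => a x - b x) ν := ha.sub hb
  have h2 : Integrable (fun x => a x - b x + c x) ν := h1.add hc
  rw [integral_sub h2 hd, integral_add h1 hc, integral_sub ha hb]

theorem comb3 {ν : Measure (E N)} {b c d : E N → ℝ} (hb : Integrable b ν)
    (hc : Integrable c ν) (hd : Integrable d ν) :
    ∫ x, (- b x + c x - d x) ∂ν = -(∫ x, b x ∂ν) + (∫ x, c x ∂ν) - ∫ x, d x ∂ν := by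
  have h1 : Integrable (fun x => - b x) ν := hb.neg
  have h2 : Integrable (fun x => - b x + c x) ν := h1.add hc
  rw [integral_sub h2 hd, integral_add h1 hc, integral_neg]

end Pool.Agent.Q64.VP.LOW

namespace Pool.Agent.Q64.VP

open LOW

theorem t_LOW (reg : S_REG) (ton : S_TON) (_int : S_INT) : S_LOW := by
  intro N c hN hc hCK Ω D μ u f hΩ hΩb hD _ _ hu hf heq K hK hKΩ
  obtain ⟨k, m, M, hk, hki, hm, hkM, hsupp, hle, hge, hid⟩ := hCK D hD
  have hM : ∀ x, |m x| ≤ M := fun x => (hkM x).2
  have hM0 : 0 ≤ M := (abs_nonneg _).trans (hM 0)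
  set F := (volume.restrict Ω).withDensity fun y => ENNReal.ofReal (f y) with hF
  set F' := (volume.restrict Ω).withDensity fun y => ENNReal.ofReal (-f y) with hF'
  have : IsFiniteMeasure F := isFiniteMeasure_withDensity_ofReal hf.2
  have : IsFiniteMeasure F' := isFiniteMeasure_withDensity_ofReal hf.neg.2
  have Iμ := U_int hk hki μ
  have IF := U_int hk hki F
  have IF' := U_int hk hki F'
  set w : E N → ℝ := fun x => c * u x - U k μ x + U k F x - U k F' x with hw
  set b : E N → ℝ := fun x => - U m μ x + U m F x - U m F' x with hb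
  have wi : IntegrableOn w Ω :=
    (((hu.const_mul c).sub Iμ.integrableOn).add IF.integrableOn).sub IF'.integrableOn
  have bB : ∀ x, |b x| ≤ M * μ.real univ + M * F.real univ + M * F'.real univ := by
    intro x
    have h1 := abs_le.1 (U_bd hM μ x)
    have h2 := abs_le.1 (U_bd hM F x)
    have h3 := abs_le.1 (U_bd hM F' x)
    rw [abs_le]
    constructor
    · simp only [hb]; linarith
    · simp only [hb]; linarith
  have bm : StronglyMeasurable b := by
    exact (((U_meas hm μ).neg).add (U_meas hm F)).sub (U_meas hm F')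
  have bi : IntegrableOn b Ω := by
    refine Measure.integrableOn_of_bounded hΩb.measure_lt_top.ne bm.aestronglyMeasurable
      (M := M * μ.real univ + M * F.real univ + M * F'.real univ)
      (Eventually.of_forall fun x => ?_)
    exact bB x
  have hweak : ∀ φ : E N → ℝ, ContDiff ℝ ∞ φ → HasCompactSupport φ → tsupport φ ⊆ Ω →
      ∫ x in Ω, w x * (Δ φ) x = ∫ x in Ω, b x * φ x := by
    intro φ h1 h2 h3
    have hφ : Helper304Lap.Tst φ := ⟨h1, h2⟩
    have hΔ : (Δ φ) = Helper304Lap.lap φ := funext fun x => Helper304Lap.lap_eq hφ.1 x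
    obtain ⟨B, hB0, hB⟩ := hφ.lap.bdd
    obtain ⟨B', hB0', hB'⟩ := hφ.bdd
    have hz : ∀ x, x ∉ Ω → (Δ φ) x = 0 := fun x hx => by
      rw [hΔ]
      exact lap_zero fun h => hx (h3 h)
    have hz' : ∀ x, x ∉ Ω → φ x = 0 := fun x hx =>
      image_eq_zero_of_notMem_tsupport fun h => hx (h3 h)
    have kμ := key hk hki hm hM hid μ hφ
    have kF := key hk hki hm hM hid F hφ
    have kF' := key hk hki hm hM hid F' hφ
    have hd := dens hf hφ
    have he := heq φ h1 h2 h3
    have mb : ∀ {v : E N → ℝ}, IntegrableOn v Ω → IntegrableOn (fun x => v x * (Δ φ) x) Ω := by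
      intro v hv
      rw [hΔ]
      exact Integrable.mul_bdd (c := B) hv hφ.lap.cont.aestronglyMeasurable
        (Eventually.of_forall hB)
    have full : ∀ v : E N → ℝ, ∫ x in Ω, v x * (Δ φ) x = ∫ x, v x * (Δ φ) x := by
      intro v
      refine setIntegral_eq_integral_of_forall_compl_eq_zero fun x hx => ?_
      rw [hz x hx, mul_zero]
    have full' : ∀ v : E N → ℝ, ∫ x in Ω, v x * φ x = ∫ x, v x * φ x := by
      intro v
      refine setIntegral_eq_integral_of_forall_compl_eq_zero fun x hx => ?_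
      rw [hz' x hx, mul_zero]
    have mU : ∀ (σ : Measure (E N)) [IsFiniteMeasure σ], Integrable (fun x => U m σ x * φ x) := by
      intro σ _
      refine Integrable.bdd_mul (c := M * σ.real univ) hφ.integrable
        (U_meas hm σ).aestronglyMeasurable (Eventually.of_forall fun x => U_bd hM σ x)
    have e1 : ∫ x in Ω, w x * (Δ φ) x = c * (∫ x in Ω, u x * (Δ φ) x) -
        (∫ x in Ω, U k μ x * (Δ φ) x) + (∫ x in Ω, U k F x * (Δ φ) x) -
        ∫ x in Ω, U k F' x * (Δ φ) x := by
      rw [← integral_const_mul, ← comb4 ((mb hu).const_mul c) (mb Iμ.integrableOn)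
        (mb IF.integrableOn) (mb IF'.integrableOn)]
      refine integral_congr_ae (Eventually.of_forall fun x => ?_)
      simp only [hw]
      ring
    have e2 : ∫ x, b x * φ x = -(∫ x, U m μ x * φ x) + (∫ x, U m F x * φ x) -
        ∫ x, U m F' x * φ x := by
      rw [← comb3 (mU μ) (mU F) (mU F')]
      refine integral_congr_ae (Eventually.of_forall fun x => ?_)
      simp only [hb]
      ring
    rw [e1, full (U k μ), full (U k F), full (U k F'), full' b, e2, kμ, kF, kF']
    rw [← hd] at he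
    linear_combination (-c) * he
  obtain ⟨C, hC⟩ := reg N c hN hc hCK Ω w b _ hΩ hΩb wi bi bB hweak K hK hKΩ
  obtain ⟨M', hM'⟩ := hge D le_rfl
  set t : ℝ := (M' * μ univ).toReal with ht
  have ht' : ENNReal.ofReal t = M' * μ univ :=
    ENNReal.ofReal_toReal (ENNReal.mul_ne_top ENNReal.coe_ne_top (measure_ne_top μ _))
  have ht0 : 0 ≤ t := ENNReal.toReal_nonneg
  refine ⟨C + t, ?_⟩
  have hN' : Nonempty (Fin N) := ⟨⟨0, by omega⟩⟩
  have hnt : Nontrivial (E N) := inferInstance
  filter_upwards [hC, atoms hN μ, (int2 hk hki μ).prod_right_ae, (int2 hk hki F).prod_right_ae]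
    with x hx hat hiμ hiF hxK
  have hwx := (abs_le.1 (hx hxK)).1
  have hU' : 0 ≤ U k F' x := integral_nonneg fun y => (hkM _).1
  have hUF : 0 ≤ U k F x := integral_nonneg fun y => (hkM _).1
  have hUμ : 0 ≤ U k μ x := integral_nonneg fun y => (hkM _).1
  have s1 : P D μ x ≤ ENNReal.ofReal (U k μ x) + ENNReal.ofReal t := by
    rw [(ton N D μ inferInstance).1 x, ht']
    have r1 : ENNReal.ofReal (U k μ x) = ∫⁻ y, ENNReal.ofReal (k (x - y)) ∂μ :=
      ofReal_integral_eq_lintegral_ofReal hiμ (Eventually.of_forall fun y => (hkM _).1)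
    have r2 : (M' : ℝ≥0∞) * μ univ = ∫⁻ _, (M' : ℝ≥0∞) ∂μ := (lintegral_const _).symm
    rw [r1, r2, ← lintegral_add_right _ measurable_const]
    refine lintegral_mono_ae ?_
    have hne : ∀ᵐ y ∂μ, y ≠ x := by
      rw [ae_iff]
      simpa using hat
    filter_upwards [hne] with y hy
    exact hM' _ (sub_ne_zero.2 (Ne.symm hy))
  have s2 : ENNReal.ofReal (U k F x) ≤ P D F x := by
    rw [(ton N D F inferInstance).1 x]
    have r1 : ENNReal.ofReal (U k F x) = ∫⁻ y, ENNReal.ofReal (k (x - y)) ∂F :=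
      ofReal_integral_eq_lintegral_ofReal hiF (Eventually.of_forall fun y => (hkM _).1)
    rw [r1]
    refine lintegral_mono_ae ?_
    have hne : ∀ᵐ y ∂F, y ≠ x := by
      refine (withDensity_absolutelyContinuous _ _).ae_le ?_
      refine ae_restrict_of_ae ?_
      rw [ae_iff]
      simp
    filter_upwards [hne] with y hy
    exact hle D le_rfl _ (sub_ne_zero.2 (Ne.symm hy))
  calc P D μ x ≤ ENNReal.ofReal (U k μ x) + ENNReal.ofReal t := s1
    _ = ENNReal.ofReal (U k μ x + t) := (ENNReal.ofReal_add hUμ ht0).symm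
    _ ≤ ENNReal.ofReal (U k F x + (c * u x + (C + t))) := by
        apply ENNReal.ofReal_le_ofReal
        simp only [hw] at hwx
        linarith
    _ ≤ ENNReal.ofReal (U k F x) + ENNReal.ofReal (c * u x + (C + t)) := ENNReal.ofReal_add_le
    _ ≤ P D F x + ENNReal.ofReal (c * u x + (C + t)) := add_le_add_left s2 _

end Pool.Agent.Q64.VP
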