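import Pool.Agent.Q64.VP.Stm

open MeasureTheory Filter Topology Set Metric
open scoped ENNReal NNReal ContDiff Laplacian

namespace Pool.Agent.Q64.VP

lemma MAIN_P_mono {N : ℕ} {D : ℝ} {σ τ : Measure (E N)} (h : σ ≤ τ) (x : E N) :
    P D σ x ≤ P D τ x := by
  unfold P
  exact lintegral_mono fun s => mul_le_mul_left (h _) _

lemma MAIN_P_add (ton : S_TON) {N : ℕ} {D : ℝ} {σ τ : Measure (E N)} (hσ : IsFiniteMeasure σ)
    (hτ : IsFiniteMeasure τ) (x : E N) : P D (σ + τ) x = P D σ x + P D τ x := by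
  have h1 := (ton N D (σ + τ) inferInstance).1 x
  have h2 := (ton N D σ hσ).1 x
  have h3 := (ton N D τ hτ).1 x
  rw [h1, h2, h3, lintegral_add_measure]

theorem t_MAIN (ck : S_CK) (low : S_LOW) (ex : S_EX) (fro : S_FRO) (seld : S_SELD) (sel : S_SEL)
    (sing : S_SING) (ton : S_TON) (int : S_INT) : S_MAIN := by
  intro N hN Ω g μ hΩ hb hg hmono hμ hμΩ hgood δ hδ
  obtain ⟨u, hu, hgu, hζ⟩ := hgood
  obtain ⟨c, hc, hck⟩ := ck N hN
  have hlow := low N c hN hc hck Ω 1 μ u (fun x => g (u x)) hΩ hb one_pos hμ hμΩ hu hgu (by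
    intro φ h1 _ h3
    refine hζ φ ⟨h1, fun x hx => ?_⟩
    have hx' : x ∉ Ω := by
      rw [hΩ.frontier_eq] at hx
      exact hx.2
    by_contra hne
    exact hx' (h3 (subset_tsupport _ hne)))
  set F : Measure (E N) := (volume.restrict Ω).withDensity fun y => ENNReal.ofReal (g (u y)) with hF
  have hFfin : IsFiniteMeasure F := isFiniteMeasure_withDensity_ofReal hgu.2
  have hFac : F ≪ volume :=
    (withDensity_absolutelyContinuous _ _).trans (Measure.absolutelyContinuous_of_le Measure.restrict_le_self)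
  -- the number e
  set m : ℝ := (μ univ).toReal with hm
  have hm0 : 0 ≤ m := ENNReal.toReal_nonneg
  set e : ℝ := min (1 / 2) (δ / (3 * (m + 1))) with he
  have he0 : 0 < e := lt_min (by norm_num) (by positivity)
  have he1 : e < 1 := lt_of_le_of_lt (min_le_left _ _) (by norm_num)
  have hem : e * m ≤ δ / 3 := by
    have h1 : e ≤ δ / (3 * (m + 1)) := min_le_right _ _
    have h2 : e * m ≤ δ / (3 * (m + 1)) * m := mul_le_mul_of_nonneg_right h1 hm0
    have h3 : δ / (3 * (m + 1)) * m ≤ δ / 3 := by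
      rw [div_mul_eq_mul_div, div_le_div_iff₀ (by positivity) (by norm_num)]
      nlinarith
    exact h2.trans h3
  obtain ⟨κ, hκ, hsing⟩ := sing N hN e he0 he1
  have hδ3 : 0 < δ / 3 := by positivity
  obtain ⟨As, ρ0, hρ0, hAsc, hAsΩ, hAs0, hAsμ, hAsF⟩ :=
    sel N (by omega) 1 μ F Ω κ (δ / 3) hμ hFfin hFac hΩ.measurableSet hκ hδ3
  obtain ⟨Ad, M, hAdc, hAdΩ, hAdM, hAdμ⟩ := seld N 1 μ Ω (δ / 3) hμ hΩ.measurableSet hδ3
  have hAsm : MeasurableSet As := hAsc.isClosed.measurableSet
  have hAdm : MeasurableSet Ad := hAdc.isClosed.measurableSet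
  have hdisj : Disjoint Ad As := by
    rw [Set.disjoint_left]
    intro x h1 h2
    have h3 : P 1 μ x < ⊤ := (hAdΩ h1).2
    have h4 : P 1 μ x = ⊤ := (hAsΩ h2).2
    exact absurd h4 h3.ne
  set νd : Measure (E N) := μ.restrict Ad with hνd
  set νs : Measure (E N) := ENNReal.ofReal (1 - e) • μ.restrict As with hνs
  have hνdfin : IsFiniteMeasure νd := inferInstance
  have hνsfin : IsFiniteMeasure νs := Measure.smul_finite _ ENNReal.ofReal_ne_top
  have hνfin : IsFiniteMeasure (νd + νs) := inferInstance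
  -- the potential of the diffuse part is bounded
  obtain ⟨M', hM'⟩ := fro N hN 1 νd Ad M one_pos hνdfin hAdc
    (by rw [hνd, Measure.restrict_apply hAdm.compl, compl_inter_self, measure_empty])
    (fun x hx => (MAIN_P_mono Measure.restrict_le_self x).trans (hAdM x hx))
  have hνsA : νs Asᶜ = 0 := by
    rw [hνs, Measure.smul_apply, Measure.restrict_apply hAsm.compl, compl_inter_self, measure_empty,
      smul_zero]
  have hνsle : νs ≤ ENNReal.ofReal (1 - e) • μ := by
    rw [Measure.le_iff]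
    intro s _
    rw [hνs, Measure.smul_apply, Measure.smul_apply, smul_eq_mul, smul_eq_mul]
    exact mul_le_mul_right (Measure.restrict_le_self s) _
  have hint := hsing 1 c ρ0 Ω μ F νs As u g one_pos hc hρ0 hΩ hb hμ hFfin hνsfin hAsc
    (fun x hx => (hAsΩ hx).1) hνsA hνsle hmono hg hu hgu hAsF hlow
  have hKΩ : Ad ∪ As ⊆ Ω := union_subset (fun x hx => (hAdΩ hx).1) (fun x hx => (hAsΩ hx).1)
  have hνK : (νd + νs) (Ad ∪ As)ᶜ = 0 := by
    have h1 : νd (Ad ∪ As)ᶜ = 0 := by
      refine measure_mono_null (t := Adᶜ) (compl_subset_compl.2 subset_union_left) ?_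
      rw [hνd, Measure.restrict_apply hAdm.compl, compl_inter_self, measure_empty]
    have h2 : νs (Ad ∪ As)ᶜ = 0 :=
      measure_mono_null (t := Asᶜ) (compl_subset_compl.2 subset_union_right) hνsA
    rw [Measure.add_apply, h1, h2, add_zero]
  obtain ⟨w, C, hwint, hwζ, hwae⟩ := ex N c hN hc hck Ω (Ad ∪ As) 1 (νd + νs) hΩ hb
    (hAdc.union hAsc) hKΩ one_pos hνfin hνK
  refine ⟨νd + νs, μ.restrict (Ad ∪ As)ᶜ + ENNReal.ofReal e • μ.restrict As, ?_, ?_, ?_⟩
  · -- the decomposition
    have h1 : μ = μ.restrict (Ad ∪ As) + μ.restrict (Ad ∪ As)ᶜ :=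
      (Measure.restrict_add_restrict_compl (hAdm.union hAsm)).symm
    have h2 : μ.restrict (Ad ∪ As) = μ.restrict Ad + μ.restrict As :=
      Measure.restrict_union hdisj hAsm
    have h3 : μ.restrict As =
        ENNReal.ofReal (1 - e) • μ.restrict As + ENNReal.ofReal e • μ.restrict As := by
      rw [← add_smul, ← ENNReal.ofReal_add (by linarith) he0.le, sub_add_cancel, ENNReal.ofReal_one,
        one_smul]
    conv_lhs => rw [h1, h2, h3]
    rw [hνd, hνs]
    abel
  · -- the remainder is small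
    have h1 : μ (Ad ∪ As)ᶜ ≤ ENNReal.ofReal (δ / 3) + ENNReal.ofReal (δ / 3) := by
      have hsub : (Ad ∪ As)ᶜ ⊆ Ωᶜ ∪ (((Ω ∩ {x | P 1 μ x < ⊤}) \ Ad) ∪
          ((Ω ∩ {x | P 1 μ x = ⊤}) \ As)) := by
        intro x hx
        rw [mem_compl_iff, mem_union, not_or] at hx
        by_cases hxΩ : x ∈ Ω
        · by_cases hxP : P 1 μ x = ⊤
          · exact Or.inr (Or.inr ⟨⟨hxΩ, hxP⟩, hx.2⟩)
          · exact Or.inr (Or.inl ⟨⟨hxΩ, lt_top_iff_ne_top.2 hxP⟩, hx.1⟩)
        · exact Or.inl hxΩ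
      refine (measure_mono hsub).trans ((measure_union_le _ _).trans ?_)
      rw [hμΩ, zero_add]
      exact (measure_union_le _ _).trans (add_le_add hAdμ hAsμ)
    have h2 : ENNReal.ofReal e * μ As ≤ ENNReal.ofReal (δ / 3) := by
      calc ENNReal.ofReal e * μ As ≤ ENNReal.ofReal e * μ univ := by
            gcongr
            exact subset_univ _
        _ = ENNReal.ofReal e * ENNReal.ofReal m := by
            rw [hm, ENNReal.ofReal_toReal (measure_ne_top _ _)]
        _ = ENNReal.ofReal (e * m) := (ENNReal.ofReal_mul he0.le).symm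
        _ ≤ ENNReal.ofReal (δ / 3) := ENNReal.ofReal_le_ofReal hem
    rw [Measure.add_apply, Measure.smul_apply, Measure.restrict_apply_univ,
      Measure.restrict_apply_univ, smul_eq_mul]
    calc μ (Ad ∪ As)ᶜ + ENNReal.ofReal e * μ As
        ≤ ENNReal.ofReal (δ / 3) + ENNReal.ofReal (δ / 3) + ENNReal.ofReal (δ / 3) :=
          add_le_add h1 h2
      _ = ENNReal.ofReal δ := by
          rw [← ENNReal.ofReal_add hδ3.le hδ3.le, ← ENNReal.ofReal_add (by positivity) hδ3.le]
          congr 1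
          ring
  · refine ⟨w, hwint, ?_, hwζ⟩
    set C' : ℝ := ((M' : ℝ) + |C|) / c with hC'
    set q : E N → ℝ≥0∞ := fun x => ENNReal.ofReal (g ((P 1 νs x).toReal / c + C')) with hq
    have hqm : Measurable q :=
      ENNReal.measurable_ofReal.comp (hg.measurable.comp
        (((ton N 1 νs hνsfin).2.ennreal_toReal.div_const c).add_const C'))
    have hqint : ∫⁻ x in Ω, q x < ⊤ := by
      have h1 := hint C'
      have h2 : (Ω \ As : Set (E N)) =ᵐ[volume] Ω := sdiff_null_ae_eq_self hAs0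
      rwa [setLIntegral_congr h2] at h1
    have hbound : Integrable (fun x => |g (-C)| + (q x).toReal) (volume.restrict Ω) := by
      refine Integrable.add ?_ (integrable_toReal_of_lintegral_ne_top hqm.aemeasurable hqint.ne)
      have : IsFiniteMeasure ((volume : Measure (E N)).restrict Ω) :=
        ⟨by rw [Measure.restrict_apply_univ]; exact hb.measure_lt_top⟩
      exact integrable_const _
    have hfin : ∀ᵐ x : E N, P 1 νs x < ⊤ :=
      ae_lt_top (ton N 1 νs hνsfin).2 (int N (by omega) 1 νs hνsfin).ne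
    refine hbound.mono' (hg.comp_aestronglyMeasurable hwint.1) ?_
    refine ae_restrict_of_ae ?_
    filter_upwards [hwae, hfin] with x hx hPx
    obtain ⟨hx1, hx2⟩ := hx
    have hup : w x ≤ (P 1 νs x).toReal / c + C' := by
      have h1 : ENNReal.ofReal (c * w x) ≤ (M' : ℝ≥0∞) + P 1 νs x + ENNReal.ofReal C := by
        refine hx2.trans ?_
        rw [MAIN_P_add ton hνdfin hνsfin]
        gcongr
        exact hM' x
      have hne : (M' : ℝ≥0∞) + P 1 νs x + ENNReal.ofReal C ≠ ⊤ :=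
        ENNReal.add_ne_top.2 ⟨ENNReal.add_ne_top.2 ⟨ENNReal.coe_ne_top, hPx.ne⟩, ENNReal.ofReal_ne_top⟩
      have h2 : c * w x ≤ ((M' : ℝ≥0∞) + P 1 νs x + ENNReal.ofReal C).toReal :=
        (ENNReal.ofReal_le_iff_le_toReal hne).1 h1
      rw [ENNReal.toReal_add (ENNReal.add_ne_top.2 ⟨ENNReal.coe_ne_top, hPx.ne⟩)
        ENNReal.ofReal_ne_top, ENNReal.toReal_add ENNReal.coe_ne_top hPx.ne, ENNReal.coe_toReal,
        ENNReal.toReal_ofReal'] at h2
      have h3 : max C 0 ≤ |C| := max_le (le_abs_self C) (abs_nonneg C)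
      rw [hC', ← add_div, le_div_iff₀ hc]
      linarith
    have h1 : g (-C) ≤ g (w x) := hmono hx1
    have h2 : g (w x) ≤ g ((P 1 νs x).toReal / c + C') := hmono hup
    have h3 : (q x).toReal = max (g ((P 1 νs x).toReal / c + C')) 0 := by
      rw [hq]
      exact ENNReal.toReal_ofReal'
    rw [Real.norm_eq_abs, h3]
    refine abs_le.2 ⟨?_, ?_⟩
    · have := neg_abs_le (g (-C))
      have h4 : 0 ≤ max (g ((P 1 νs x).toReal / c + C')) 0 := le_max_right _ _
      linarith
    · have h4 := le_max_left (g ((P 1 νs x).toReal / c + C')) 0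
      have h5 := abs_nonneg (g (-C))
      linarith

end Pool.Agent.Q64.VP
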