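import Pool.Agent.Q64.VP.Stm

/-!
# Project VP: NEAR, one half of the ball (proof by helper40)
-/

set_option autoImplicit false

open MeasureTheory Filter Topology Set Metric
open scoped ENNReal NNReal ContDiff Laplacian

namespace Pool.Agent.Q64.VP

namespace NEAR

variable {N : ℕ}

/-- joint measurability -/
theorem meas_cb (σ : Measure (E N)) [IsFiniteMeasure σ] :
    Measurable (fun p : E N × ℝ => σ (closedBall p.1 p.2)) := by
  have h : MeasurableSet {q : (E N × ℝ) × E N | dist q.2 q.1.1 ≤ q.1.2} :=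
    (isClosed_le (by fun_prop) (by fun_prop)).measurableSet
  exact measurable_measure_prodMk_left h

theorem meas_k (N : ℕ) : Measurable (fun s : ℝ => ENNReal.ofReal (s ^ (1 - (N : ℝ)))) := by
  apply ENNReal.measurable_ofReal.comp
  fun_prop

theorem meas_cb1 (σ : Measure (E N)) [IsFiniteMeasure σ] (s : ℝ) :
    Measurable (fun z : E N => σ (closedBall z s)) := by
  have h : MeasurableSet {q : E N × E N | dist q.2 q.1 ≤ s} :=
    (isClosed_le (by fun_prop) (by fun_prop)).measurableSet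
  exact measurable_measure_prodMk_left h

/-- Tonelli -/
theorem tl (G : Measure (E N)) [IsFiniteMeasure G] (s : ℝ) :
    ∫⁻ z, G (closedBall z s) = G univ * volume (closedBall (0 : E N) s) := by
  have h : MeasurableSet {q : E N × E N | dist q.2 q.1 ≤ s} :=
    (isClosed_le (by fun_prop) (by fun_prop)).measurableSet
  have h1 := Measure.prod_apply (μ := (volume : Measure (E N))) (ν := G) h
  have h2 := Measure.prod_apply_symm (μ := (volume : Measure (E N))) (ν := G) h
  have e : ∫⁻ z, G (closedBall z s) = ∫⁻ w, volume (closedBall w s) ∂G := by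
    calc ∫⁻ z, G (closedBall z s)
        = ((volume : Measure (E N)).prod G) {q : E N × E N | dist q.2 q.1 ≤ s} := h1.symm
      _ = ∫⁻ w, volume ((fun x => (x, w)) ⁻¹' {q : E N × E N | dist q.2 q.1 ≤ s}) ∂G := h2
      _ = ∫⁻ w, volume (closedBall w s) ∂G := by
        refine lintegral_congr fun w => ?_
        congr 1
        ext z
        simp [dist_comm]
  rw [e]
  have e2 : ∀ w : E N, volume (closedBall w s) = volume (closedBall (0 : E N) s) := fun w =>
    Measure.addHaar_closedBall_center _ w s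
  simp only [e2]
  rw [lintegral_const, mul_comm]

theorem pw (N : ℕ) {s : ℝ} (hs : 0 < s) :
    ENNReal.ofReal (s ^ (1 - (N : ℝ))) * ENNReal.ofReal (s ^ N) = ENNReal.ofReal s := by
  rw [← ENNReal.ofReal_mul (by positivity)]
  congr 1
  rw [← Real.rpow_natCast s N, ← Real.rpow_add hs]
  simp

/-- the kernel at a multiple -/
theorem pw_mul (n : ℕ) {a s : ℝ} (ha : 0 < a) (hs : 0 < s) :
    ENNReal.ofReal (s ^ (1 - ((n + 1 : ℕ) : ℝ))) =
      ENNReal.ofReal (a ^ n) * ENNReal.ofReal ((a * s) ^ (1 - ((n + 1 : ℕ) : ℝ))) := by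
  rw [← ENNReal.ofReal_mul (by positivity)]
  congr 1
  have e : (1 - ((n + 1 : ℕ) : ℝ)) = -(n : ℝ) := by push_cast; ring
  rw [e, Real.mul_rpow ha.le hs.le, Real.rpow_neg ha.le, Real.rpow_natCast, ← mul_assoc,
    mul_inv_cancel₀ (by positivity), one_mul]

/-- the integral of the near part -/
theorem near_int (F : Measure (E N)) [IsFiniteMeasure F] (y : E N) (R r : ℝ)
    (S : Set (E N)) (hSm : MeasurableSet S) (hR : 0 < R)
    (hS : ∀ z ∈ S, ∀ s < R, closedBall z s ⊆ closedBall y r) :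
    ∫⁻ z in S, ∫⁻ s in Ioo 0 R, F (closedBall z s) * ENNReal.ofReal (s ^ (1 - (N : ℝ))) ≤
      F (closedBall y r) * volume (ball (0 : E N) 1) * ENNReal.ofReal (R ^ 2) := by
  have hm : Measurable (Function.uncurry fun (z : E N) (s : ℝ) =>
      F (closedBall z s) * ENNReal.ofReal (s ^ (1 - (N : ℝ)))) :=
    (meas_cb F).mul ((meas_k N).comp measurable_snd)
  rw [lintegral_lintegral_swap hm.aemeasurable]
  have key : ∀ s ∈ Ioo 0 R, ∫⁻ z in S, F (closedBall z s) * ENNReal.ofReal (s ^ (1 - (N : ℝ))) ≤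
      F (closedBall y r) * volume (ball (0 : E N) 1) * ENNReal.ofReal R := by
    intro s hs
    have hms : Measurable fun z : E N => F (closedBall z s) := meas_cb1 F s
    rw [lintegral_mul_const _ hms]
    have e0 : ∀ z ∈ S, F (closedBall z s) ≤ (F.restrict (closedBall y r)) (closedBall z s) := by
      intro z hz
      rw [Measure.restrict_apply measurableSet_closedBall,
        inter_eq_left.2 (hS z hz s hs.2)]
    have e1 : ∫⁻ z in S, F (closedBall z s) ≤
        ∫⁻ z, (F.restrict (closedBall y r)) (closedBall z s) :=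
      calc ∫⁻ z in S, F (closedBall z s)
          ≤ ∫⁻ z in S, (F.restrict (closedBall y r)) (closedBall z s) := setLIntegral_mono' hSm e0
        _ ≤ ∫⁻ z, (F.restrict (closedBall y r)) (closedBall z s) := setLIntegral_le_lintegral _ _
    refine le_trans (mul_le_mul_left e1 _) ?_
    rw [tl, Measure.restrict_apply_univ, Measure.addHaar_closedBall _ _ hs.1.le,
      finrank_euclideanSpace_fin]
    have e2 : F (closedBall y r) * (ENNReal.ofReal (s ^ N) * volume (ball (0 : E N) 1)) *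
        ENNReal.ofReal (s ^ (1 - (N : ℝ))) = F (closedBall y r) * volume (ball (0 : E N) 1) *
          (ENNReal.ofReal (s ^ (1 - (N : ℝ))) * ENNReal.ofReal (s ^ N)) := by ring
    rw [e2, pw N hs.1]
    exact mul_le_mul_right (ENNReal.ofReal_le_ofReal hs.2.le) _
  refine le_trans (setLIntegral_mono' measurableSet_Ioo key) ?_
  rw [setLIntegral_const, Real.volume_Ioo, sub_zero, mul_assoc _ (ENNReal.ofReal R),
    ← ENNReal.ofReal_mul hR.le, sq]

/-- the change of variables -/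
theorem subst (μ : Measure (E (N + 1))) (z : E (N + 1)) {a D ρ : ℝ} (ha : 1 ≤ a) (hρ : a * ρ ≤ D) :
    ∫⁻ s in Ioo 0 ρ, μ (closedBall z (a * s)) * ENNReal.ofReal (s ^ (1 - ((N + 1 : ℕ) : ℝ))) ≤
      ENNReal.ofReal (a ^ N) * P D μ z := by
  have ha0 : 0 < a := by linarith
  set h : ℝ → ℝ≥0∞ := (Ioo 0 D).indicator
    (fun s => μ (closedBall z s) * ENNReal.ofReal (s ^ (1 - ((N + 1 : ℕ) : ℝ)))) with hh
  have e1 : ∫⁻ s in Ioo 0 ρ, μ (closedBall z (a * s)) *
      ENNReal.ofReal (s ^ (1 - ((N + 1 : ℕ) : ℝ))) ≤ ∫⁻ s, ENNReal.ofReal (a ^ N) * h (a * s) := by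
    refine le_trans (setLIntegral_mono' measurableSet_Ioo
      (g := fun s => ENNReal.ofReal (a ^ N) * h (a * s)) (fun s hs => ?_))
      (setLIntegral_le_lintegral _ _)
    have h1 : a * s ∈ Ioo 0 D := ⟨by have := hs.1; positivity,
      lt_of_lt_of_le (mul_lt_mul_of_pos_left hs.2 ha0) hρ⟩
    have h2 : h (a * s) = μ (closedBall z (a * s)) *
        ENNReal.ofReal ((a * s) ^ (1 - ((N + 1 : ℕ) : ℝ))) := by
      rw [hh, indicator_of_mem h1]
    rw [h2, pw_mul N ha0 hs.1]
    apply le_of_eq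
    ring
  have e2 : ∫⁻ s, h (a * s) ≤ ∫⁻ s, h s := by
    have e3 : ∫⁻ s, h (a * s) = ∫⁻ s, h s ∂(Measure.map (fun x => a * x) volume) := by
      have := (measurableEmbedding_mulLeft₀ ha0.ne').lintegral_map h (μ := (volume : Measure ℝ))
      exact this.symm
    rw [e3, Real.map_volume_mul_left ha0.ne', lintegral_smul_measure]
    have h4 : ENNReal.ofReal |a⁻¹| ≤ 1 := by
      rw [ENNReal.ofReal_le_one, abs_of_pos (by positivity)]
      exact inv_le_one_of_one_le₀ ha
    calc ENNReal.ofReal |a⁻¹| • ∫⁻ s, h s ≤ 1 • ∫⁻ s, h s := by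
          rw [smul_eq_mul, one_smul]
          exact mul_le_of_le_one_left' h4
      _ = _ := one_smul _ _
  refine e1.trans ?_
  rw [lintegral_const_mul' _ _ ENNReal.ofReal_ne_top]
  refine le_trans (mul_le_mul_right e2 _) (le_of_eq ?_)
  rw [hh, lintegral_indicator measurableSet_Ioo]
  rfl

/-- Markov: one half of `B` -/
theorem half (B : Set (E N)) (hBfin : volume B ≠ ⊤) (f : E N → ℝ≥0∞) (hf : Measurable f)
    (t : ℝ≥0∞) (ht0 : t ≠ 0) (ht : t ≠ ⊤) (h : ∫⁻ z in B, f z ≤ t / 2 * volume B) :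
    volume B ≤ 2 * volume {z ∈ B | f z ≤ t} := by
  have h1 : t * volume {z ∈ B | t ≤ f z} ≤ t * (volume B / 2) := by
    have h2 := mul_meas_ge_le_lintegral₀ (μ := volume.restrict B) hf.aemeasurable t
    have h3 : volume {z ∈ B | t ≤ f z} ≤ (volume.restrict B) {z | t ≤ f z} := by
      refine le_trans (measure_mono ?_) (Measure.le_restrict_apply B {z | t ≤ f z})
      rintro z ⟨h4, h5⟩
      exact ⟨h5, h4⟩
    refine le_trans (mul_le_mul_right h3 _) (h2.trans (h.trans (le_of_eq ?_)))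
    rw [ENNReal.div_eq_inv_mul, ENNReal.div_eq_inv_mul]
    ring
  have h2 : volume {z ∈ B | t ≤ f z} ≤ volume B / 2 := (ENNReal.mul_le_mul_iff_right ht0 ht).1 h1
  have h3 : volume B ≤ volume {z ∈ B | f z ≤ t} + volume B / 2 := by
    refine le_trans (measure_mono (t := {z ∈ B | f z ≤ t} ∪ {z ∈ B | t ≤ f z}) ?_)
      ((measure_union_le _ _).trans (add_le_add le_rfl h2))
    intro z hz
    rcases le_total (f z) t with h4 | h4
    · exact Or.inl ⟨hz, h4⟩
    · exact Or.inr ⟨hz, h4⟩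
  have h4 : volume B + volume B ≤ 2 * volume {z ∈ B | f z ≤ t} + volume B := by
    calc volume B + volume B = 2 * volume B := (two_mul _).symm
      _ ≤ 2 * (volume {z ∈ B | f z ≤ t} + volume B / 2) := mul_le_mul_right h3 _
      _ = 2 * volume {z ∈ B | f z ≤ t} + volume B := by
        rw [mul_add, ENNReal.mul_div_cancel (by norm_num) (by norm_num)]
  exact (ENNReal.add_le_add_iff_right hBfin).1 h4

theorem meas_near (F : Measure (E N)) [IsFiniteMeasure F] (R : ℝ) :
    Measurable fun z : E N =>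
      ∫⁻ s in Ioo 0 R, F (closedBall z s) * ENNReal.ofReal (s ^ (1 - (N : ℝ))) := by
  have hm : Measurable (Function.uncurry fun (z : E N) (s : ℝ) =>
      F (closedBall z s) * ENNReal.ofReal (s ^ (1 - (N : ℝ)))) :=
    (meas_cb F).mul ((meas_k N).comp measurable_snd)
  exact hm.lintegral_prod_right'

end NEAR

open NEAR in
/-- NEAR -/
theorem t_NEAR : S_NEAR := by
  intro N hN η κ' hη hη4 hκ'
  obtain ⟨n, rfl⟩ : ∃ n, N = n + 1 := ⟨N - 1, by omega⟩
  obtain ⟨C2, hC2⟩ : ∃ C2 : ℝ, C2 = 12 ^ n / (24 * η ^ (n + 1)) := ⟨_, rfl⟩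
  have hC2pos : 0 < C2 := by rw [hC2]; positivity
  obtain ⟨κ, hκ⟩ : ∃ κ : ℝ, κ = κ' / (2 * C2 + 11 ^ n) := ⟨_, rfl⟩
  have hκpos : 0 < κ := by rw [hκ]; positivity
  have hκκ : κ * (2 * C2 + 11 ^ n) = κ' := by rw [hκ]; field_simp
  refine ⟨κ, hκpos, ?_⟩
  intro D μ F A ρ0 hD hμ hF hA hAne hρ0 hFA
  obtain ⟨ρ1, hρ1⟩ : ∃ ρ1 : ℝ, ρ1 = min (ρ0 / 4) (D / 11) := ⟨_, rfl⟩
  have hρ1pos : 0 < ρ1 := by rw [hρ1]; positivity
  have hρ1a : ρ1 ≤ ρ0 / 4 := by rw [hρ1]; exact min_le_left _ _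
  have hρ1b : ρ1 ≤ D / 11 := by rw [hρ1]; exact min_le_right _ _
  have hexp : (1 - ((n + 1 : ℕ) : ℝ)) ≤ 0 := by push_cast; linarith [Nat.cast_nonneg (α := ℝ) n]
  obtain ⟨C, hC⟩ : ∃ C : ℝ≥0∞, C = F univ * ENNReal.ofReal (ρ1 ^ (1 - ((n + 1 : ℕ) : ℝ))) *
    volume (Ico ρ1 D) := ⟨_, rfl⟩
  have hCtop : C ≠ ⊤ := by
    rw [hC, Real.volume_Ico]
    exact ENNReal.mul_ne_top (ENNReal.mul_ne_top (measure_ne_top F _) ENNReal.ofReal_ne_top)
      ENNReal.ofReal_ne_top
  refine ⟨min (ρ0 / 2) (D / 12), (C + 1).toNNReal, by positivity, ?_⟩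
  intro y hy0 hy
  obtain ⟨x, hxA, hxy⟩ := hA.exists_infDist_eq_dist hAne y
  generalize infDist y A = r at hy0 hy hxy
  have hr1 : 2 * r < ρ0 := by
    have := lt_of_lt_of_le hy (min_le_left _ _)
    linarith
  have hr2 : 12 * r < D := by
    have := lt_of_lt_of_le hy (min_le_right _ _)
    linarith
  have hηr : η * r ≤ r / 4 := by nlinarith
  have hηr0 : 0 < η * r := by positivity
  -- distances
  have hzx : ∀ z ∈ ball y (η * r), dist z x ≤ 5 / 4 * r := by
    intro z hz
    have h1 : dist z y < η * r := hz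
    have h2 := dist_triangle z y x
    rw [← hxy] at h2
    linarith
  obtain ⟨m, hm⟩ : ∃ m : ℝ≥0∞, m = μ (closedBall x (4 * r)) := ⟨_, rfl⟩
  have hmtop : m ≠ ⊤ := by rw [hm]; exact measure_ne_top _ _
  obtain ⟨Q, hQ⟩ : ∃ Q : ℝ≥0∞, Q = m * ENNReal.ofReal (6 * r * (12 * r) ^ (1 - ((n + 1 : ℕ) : ℝ))) :=
    ⟨_, rfl⟩
  have hQtop : Q ≠ ⊤ := by rw [hQ]; exact ENNReal.mul_ne_top hmtop ENNReal.ofReal_ne_top
  obtain ⟨t, ht⟩ : ∃ t : ℝ≥0∞, t = 2 * (ENNReal.ofReal κ * ENNReal.ofReal C2 * Q) + 1 := ⟨_, rfl⟩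
  have httop : t ≠ ⊤ := by
    rw [ht]
    exact ENNReal.add_ne_top.2 ⟨ENNReal.mul_ne_top (by norm_num) (ENNReal.mul_ne_top
      (ENNReal.mul_ne_top ENNReal.ofReal_ne_top ENNReal.ofReal_ne_top) hQtop), by norm_num⟩
  have ht0 : t ≠ 0 := by rw [ht]; simp
  -- the lower bound of the potential
  have hlow : ∀ z ∈ ball y (η * r), Q ≤ P D μ z := by
    intro z hz
    have h1 : ∫⁻ s in Ioo (6 * r) (12 * r), m * ENNReal.ofReal ((12 * r) ^ (1 - ((n + 1 : ℕ) : ℝ))) ≤
        ∫⁻ s in Ioo (6 * r) (12 * r), μ (closedBall z s) *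
          ENNReal.ofReal (s ^ (1 - ((n + 1 : ℕ) : ℝ))) := by
      refine setLIntegral_mono' measurableSet_Ioo (fun s hs => ?_)
      refine mul_le_mul' ?_ ?_
      · rw [hm]
        refine measure_mono (closedBall_subset_closedBall' ?_)
        have h2 := hzx z hz
        rw [dist_comm] at h2
        linarith [hs.1]
      · refine ENNReal.ofReal_le_ofReal (Real.rpow_le_rpow_of_nonpos ?_ hs.2.le hexp)
        linarith [hs.1]
    have h2 : ∫⁻ s in Ioo (6 * r) (12 * r), μ (closedBall z s) *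
          ENNReal.ofReal (s ^ (1 - ((n + 1 : ℕ) : ℝ))) ≤ P D μ z :=
      lintegral_mono_set (Ioo_subset_Ioo (by positivity) hr2.le)
    refine le_trans (le_of_eq ?_) (h1.trans h2)
    rw [setLIntegral_const, Real.volume_Ioo, hQ, mul_assoc m,
      ← ENNReal.ofReal_mul (p := (12 * r) ^ (1 - ((n + 1 : ℕ) : ℝ))) (by positivity)]
    congr 2
    ring
  -- the integral of the near part
  have hnear : ∫⁻ z in ball y (η * r), ∫⁻ s in Ioo 0 (r / 2), F (closedBall z s) *
      ENNReal.ofReal (s ^ (1 - ((n + 1 : ℕ) : ℝ))) ≤ t / 2 * volume (ball y (η * r)) := by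
    have h1 := near_int F y (r / 2) r (ball y (η * r)) measurableSet_ball (by positivity) (by
      intro z hz s hs
      refine closedBall_subset_closedBall' ?_
      have h2 : dist z y < η * r := hz
      linarith)
    refine h1.trans ?_
    have h2 : F (closedBall y r) ≤ ENNReal.ofReal κ * m := by
      have h3 := hFA x hxA (2 * r) (by positivity) hr1
      rw [show 2 * (2 * r) = 4 * r by ring, ← hm] at h3
      refine le_trans (measure_mono (closedBall_subset_closedBall' ?_)) h3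
      rw [← hxy]; linarith
    have h4 : ENNReal.ofReal κ * ENNReal.ofReal C2 * Q ≤ t / 2 := by
      rw [ENNReal.le_div_iff_mul_le (Or.inl (by norm_num)) (Or.inl (by norm_num)), ht, mul_comm]
      exact le_self_add
    have h5 : volume (ball y (η * r)) = ENNReal.ofReal ((η * r) ^ (n + 1)) *
        volume (ball (0 : E (n + 1)) 1) := by
      rw [Measure.addHaar_ball _ _ hηr0.le, finrank_euclideanSpace_fin]
    have h6 : ENNReal.ofReal ((r / 2) ^ 2) = ENNReal.ofReal C2 *
        ENNReal.ofReal (6 * r * (12 * r) ^ (1 - ((n + 1 : ℕ) : ℝ))) *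
          ENNReal.ofReal ((η * r) ^ (n + 1)) := by
      rw [← ENNReal.ofReal_mul hC2pos.le, ← ENNReal.ofReal_mul (by positivity)]
      congr 1
      have e : (1 - ((n + 1 : ℕ) : ℝ)) = -(n : ℝ) := by push_cast; ring
      rw [e, Real.rpow_neg (by positivity), Real.rpow_natCast, hC2, mul_pow, mul_pow]
      field_simp
      ring
    calc F (closedBall y r) * volume (ball (0 : E (n + 1)) 1) * ENNReal.ofReal ((r / 2) ^ 2)
        ≤ ENNReal.ofReal κ * m * volume (ball (0 : E (n + 1)) 1) *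
          ENNReal.ofReal ((r / 2) ^ 2) := mul_le_mul_left (mul_le_mul_left h2 _) _
      _ = ENNReal.ofReal κ * ENNReal.ofReal C2 * Q * volume (ball y (η * r)) := by
        rw [h6, h5, hQ]; ring
      _ ≤ t / 2 * volume (ball y (η * r)) := mul_le_mul_left h4 _
  have hhalf := half (ball y (η * r)) measure_ball_lt_top.ne _ (meas_near F (r / 2)) t ht0 httop hnear
  refine hhalf.trans (mul_le_mul_right (measure_mono ?_) _)
  rintro z ⟨hz, hzt⟩
  refine ⟨hz, ?_⟩
  -- the middle part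
  have hmid : ∫⁻ s in Ico (r / 2) ρ1, F (closedBall z s) *
      ENNReal.ofReal (s ^ (1 - ((n + 1 : ℕ) : ℝ))) ≤
        ENNReal.ofReal κ * (ENNReal.ofReal (11 ^ n) * P D μ z) := by
    have h1 : ∫⁻ s in Ico (r / 2) ρ1, F (closedBall z s) *
      ENNReal.ofReal (s ^ (1 - ((n + 1 : ℕ) : ℝ))) ≤
        ∫⁻ s in Ico (r / 2) ρ1, ENNReal.ofReal κ * (μ (closedBall z (11 * s)) *
          ENNReal.ofReal (s ^ (1 - ((n + 1 : ℕ) : ℝ)))) := by
      refine setLIntegral_mono' measurableSet_Ico (fun s hs => ?_)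
      rw [← mul_assoc]
      refine mul_le_mul_left ?_ _
      have hs1 := hs.1
      have h3 := hFA x hxA (4 * s) (by linarith) (by linarith [hs.2])
      have h2 := hzx z hz
      refine le_trans (measure_mono (closedBall_subset_closedBall' ?_)) (h3.trans
        (mul_le_mul_right (measure_mono (closedBall_subset_closedBall' ?_)) _))
      · linarith
      · rw [dist_comm] at h2; linarith
    refine h1.trans ?_
    rw [lintegral_const_mul' _ _ ENNReal.ofReal_ne_top]
    refine mul_le_mul_right (le_trans (lintegral_mono_set ?_)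
      (subst μ z (a := 11) (D := D) (ρ := ρ1) (by norm_num) (by linarith))) _
    intro s hs
    exact ⟨by linarith [hs.1], hs.2⟩
  have hfar : ∫⁻ s in Ico ρ1 D, F (closedBall z s) *
      ENNReal.ofReal (s ^ (1 - ((n + 1 : ℕ) : ℝ))) ≤ C := by
    rw [hC, ← setLIntegral_const]
    refine setLIntegral_mono' measurableSet_Ico (fun s hs => ?_)
    refine mul_le_mul' (measure_mono (subset_univ _)) (ENNReal.ofReal_le_ofReal
      (Real.rpow_le_rpow_of_nonpos hρ1pos hs.1 hexp))
  have hsum : P D F z ≤ t + (ENNReal.ofReal κ * (ENNReal.ofReal (11 ^ n) * P D μ z) + C) := by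
    have h1 : P D F z ≤ ∫⁻ s in Ioo 0 (r / 2) ∪ (Ico (r / 2) ρ1 ∪ Ico ρ1 D), F (closedBall z s) *
      ENNReal.ofReal (s ^ (1 - ((n + 1 : ℕ) : ℝ))) := by
      refine lintegral_mono_set ?_
      intro s hs
      rcases lt_or_ge s (r / 2) with h2 | h2
      · exact Or.inl ⟨hs.1, h2⟩
      · rcases lt_or_ge s ρ1 with h3 | h3
        · exact Or.inr (Or.inl ⟨h2, h3⟩)
        · exact Or.inr (Or.inr ⟨h3, hs.2⟩)
    refine h1.trans ((lintegral_union_le _ _ _).trans (add_le_add hzt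
      ((lintegral_union_le _ _ _).trans (add_le_add hmid hfar))))
  refine hsum.trans ?_
  have hC1 : ((C + 1).toNNReal : ℝ≥0∞) = C + 1 :=
    ENNReal.coe_toNNReal (ENNReal.add_ne_top.2 ⟨hCtop, by norm_num⟩)
  rw [hC1, ht, ← hκκ, ENNReal.ofReal_mul hκpos.le, ENNReal.ofReal_add (by positivity) (by positivity),
    ENNReal.ofReal_mul (by norm_num : (0 : ℝ) ≤ 2), ENNReal.ofReal_ofNat]
  have hQ' := hlow z hz
  calc 2 * (ENNReal.ofReal κ * ENNReal.ofReal C2 * Q) + 1 +
        (ENNReal.ofReal κ * (ENNReal.ofReal (11 ^ n) * P D μ z) + C)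
      ≤ 2 * (ENNReal.ofReal κ * ENNReal.ofReal C2 * P D μ z) + 1 +
        (ENNReal.ofReal κ * (ENNReal.ofReal (11 ^ n) * P D μ z) + C) := by gcongr
    _ = _ := by ring

end Pool.Agent.Q64.VP
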