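import Pool.Agent.Q64.VP.Stm

open MeasureTheory Filter Topology Set Metric
open scoped ENNReal NNReal ContDiff Laplacian

namespace Pool.Agent.Q64.VP

namespace PT

/-- the choice of `η` -/
theorem exists_eta (n : ℕ) {e : ℝ} (he : 0 < e) :
    ∃ η : ℝ, 0 < η ∧ η ≤ 1 / 4 ∧ (1 + η) ^ n * (1 - e) < 1 := by
  have h1 : Tendsto (fun η : ℝ => (1 + η) ^ n * (1 - e)) (𝓝[>] 0) (𝓝 ((1 + 0) ^ n * (1 - e))) := by
    have : Continuous fun η : ℝ => (1 + η) ^ n * (1 - e) := by fun_prop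
    exact (this.tendsto 0).mono_left nhdsWithin_le_nhds
  have h2 : ((1 : ℝ) + 0) ^ n * (1 - e) < 1 := by
    rw [add_zero, one_pow, one_mul]
    linarith
  have h3 := h1.eventually (gt_mem_nhds h2)
  have h4 : ∀ᶠ η : ℝ in 𝓝[>] 0, η ≤ 1 / 4 :=
    (eventually_le_nhds (by norm_num : (0 : ℝ) < 1 / 4)).filter_mono nhdsWithin_le_nhds
  have h5 : ∀ᶠ η : ℝ in 𝓝[>] 0, 0 < η := self_mem_nhdsWithin
  obtain ⟨η, ha, hb, hc⟩ := (h3.and (h4.and h5)).exists
  exact ⟨η, hc, hb, ha⟩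

/-- monotonicity of the potential -/
theorem P_le {N : ℕ} {D : ℝ} {μ ν : Measure (E N)} {b : ℝ≥0∞} (hb : b ≠ ⊤) (h : ν ≤ b • μ) (x : E N) :
    P D ν x ≤ b * P D μ x := by
  unfold P
  rw [← lintegral_const_mul' _ _ hb]
  refine lintegral_mono fun s => ?_
  rw [← mul_assoc]
  gcongr
  exact h _

/-- the arithmetic -/
theorem arith {q κ' c₁ C C₂ p : ℝ} {x : ℝ} (hq : 0 ≤ q) (hκ : 0 < 1 - κ') (hqκ : q < 1 - κ')
    (h : x ≤ c₁ + κ' * x + max (p + C) 0) (hc₁ : 0 ≤ c₁) (hC₂ : 0 ≤ C₂) :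
    q * x + C₂ ≤ max p ((q / (1 - κ') * (c₁ + |C|) + C₂) / (1 - q / (1 - κ')) + 1) := by
  set θ := q / (1 - κ') with hθ
  have hθ0 : 0 ≤ θ := div_nonneg hq hκ.le
  have hθ1 : θ < 1 := (div_lt_one hκ).2 hqκ
  have h1 : max (p + C) 0 ≤ max p 0 + |C| := by
    apply max_le
    · linarith [le_max_left p 0, le_abs_self C]
    · linarith [le_max_right p 0, abs_nonneg C]
  have h2 : (1 - κ') * x ≤ c₁ + (max p 0 + |C|) := by linarith
  have h3 : q * x ≤ θ * (c₁ + (max p 0 + |C|)) := by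
    have : q * x = θ * ((1 - κ') * x) := by
      rw [hθ]
      field_simp
    rw [this]
    exact mul_le_mul_of_nonneg_left h2 hθ0
  set C₄ := θ * (c₁ + |C|) + C₂ with hC₄
  have hC₄0 : 0 ≤ C₄ := by positivity
  have h4 : q * x + C₂ ≤ θ * max p 0 + C₄ := by
    rw [hC₄]
    linarith
  set M := C₄ / (1 - θ) + 1 with hM
  have hM1 : C₄ ≤ (1 - θ) * M := by
    rw [hM, mul_add, mul_div_cancel₀ _ (by linarith : (1 - θ) ≠ 0)]
    linarith
  have hM0 : 0 < M := by
    have : 0 ≤ C₄ / (1 - θ) := div_nonneg hC₄0 (by linarith)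
    linarith
  refine h4.trans ?_
  rcases le_or_gt M p with hp | hp
  · rw [max_eq_left hp, max_eq_left (by linarith)]
    have : (1 - θ) * M ≤ (1 - θ) * p := mul_le_mul_of_nonneg_left hp (by linarith)
    linarith
  · rw [max_eq_right hp.le]
    have : max p 0 ≤ M := max_le hp.le hM0.le
    have : θ * max p 0 ≤ θ * M := mul_le_mul_of_nonneg_left this hθ0
    linarith

end PT

theorem t_PT (near : S_NEAR) (har : S_HAR) (int : S_INT) (ton : S_TON) : S_PT := by
  intro N hN e he he1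
  obtain ⟨η, hη, hη4, hq1⟩ := PT.exists_eta (N - 2) he
  set q : ℝ := (1 + η) ^ (N - 2) * (1 - e) with hq
  have hq0 : 0 ≤ q := mul_nonneg (by positivity) (by linarith)
  set κ' : ℝ := (1 - q) / 2 with hκ'
  have hκ'0 : 0 < κ' := by rw [hκ']; linarith
  have hκ'1 : q < 1 - κ' := by rw [hκ']; linarith
  obtain ⟨κ, hκ, hnear⟩ := near N hN η κ' hη hη4 hκ'0
  refine ⟨η, κ, hη, hη4, hκ, ?_⟩
  intro D c r1 ρ0 μ F ν A u C hD hc hr1 hρ0 hμ hF hν hA hne hνA hνμ hdens hae C'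
  obtain ⟨r2, C₁, hr2, h1⟩ := hnear D μ F A ρ0 hD hμ hF hA hne hρ0 hdens
  obtain ⟨C₂, h2⟩ := har N hN η D ν A hη hη4 hD hν hA hne hνA
  set M : ℝ := (q / (1 - κ') * (C₁ + |C|) + (C₂ + C' : ℝ)) / (1 - q / (1 - κ')) + 1 with hM
  have hκ1 : 0 < 1 - κ' := by linarith
  have hθ1 : q / (1 - κ') < 1 := (div_lt_one hκ1).2 hκ'1
  have hM0 : 0 < M := by
    have : 0 ≤ (q / (1 - κ') * (C₁ + |C|) + (C₂ + C' : ℝ)) / (1 - q / (1 - κ')) :=
      div_nonneg (by positivity) (by linarith)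
    linarith
  have hfin : ∀ᵐ z : E N, P D μ z < ⊤ := by
    have h3 := int N (by omega) D μ hμ
    exact ae_lt_top (ton N D μ hμ).2 h3.ne
  refine ⟨min r2 (r1 / 2), M, lt_min hr2 (by linarith), hM0, fun y hy hy2 => ?_⟩
  have hyr2 : infDist y A < r2 := lt_of_lt_of_le hy2 (min_le_left _ _)
  have hyr1 : infDist y A < r1 / 2 := lt_of_lt_of_le hy2 (min_le_right _ _)
  refine (h1 y hy hyr2).trans ?_
  gcongr 2 * ?_
  refine measure_mono_ae ?_
  filter_upwards [hae, hfin] with z hz1 hz2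
  rintro ⟨hzb, hz⟩
  refine ⟨hzb, ?_⟩
  have hzA : infDist z A ≤ r1 := by
    have h5 := infDist_le_infDist_add_dist (s := A) (x := z) (y := y)
    rw [mem_ball] at hzb
    have h6 : η * infDist y A ≤ 1 / 4 * infDist y A := by gcongr
    linarith
  have h5 := hz1 hzA
  have hz' : P D μ z ≤ ENNReal.ofReal κ' * P D μ z + C₁ + ENNReal.ofReal (c * u z + C) :=
    h5.trans (by gcongr)
  -- real numbers
  set x : ℝ := (P D μ z).toReal with hx
  have hPx : P D μ z = ENNReal.ofReal x := by rw [hx, ENNReal.ofReal_toReal hz2.ne]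
  have hx0 : 0 ≤ x := ENNReal.toReal_nonneg
  have hxle : x ≤ C₁ + κ' * x + max (c * u z + C) 0 := by
    rw [hPx] at hz'
    have ht : ENNReal.ofReal (c * u z + C) = ENNReal.ofReal (max (c * u z + C) 0) := by
      rw [ENNReal.ofReal_max, ENNReal.ofReal_zero]
      simp
    rw [ht] at hz'
    have h6 : ENNReal.ofReal κ' * ENNReal.ofReal x + (C₁ : ℝ≥0∞) +
        ENNReal.ofReal (max (c * u z + C) 0) =
        ENNReal.ofReal (C₁ + κ' * x + max (c * u z + C) 0) := by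
      have hm : 0 ≤ max (c * u z + C) 0 := le_max_right _ _
      generalize max (c * u z + C) 0 = m at hm
      rw [ENNReal.ofReal_add (by positivity) hm, ENNReal.ofReal_add (by positivity)
        (by positivity), ENNReal.ofReal_mul hκ'0.le, ENNReal.ofReal_coe_nnreal]
      congr 1
      rw [add_comm]
    rw [h6] at hz'
    exact (ENNReal.ofReal_le_ofReal_iff (by positivity)).1 hz'
  have h7 := PT.arith hq0 hκ1 hκ'1 hxle C₁.2 (C₂ := (C₂ : ℝ) + C') (by positivity)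
  have h8 : P D ν y + C' ≤ ENNReal.ofReal (q * x + (C₂ + C')) := by
    have h9 := h2 y z hy hzb
    have h10 := PT.P_le (D := D) ENNReal.ofReal_ne_top hνμ z
    calc P D ν y + C' ≤ (ENNReal.ofReal ((1 + η) ^ (N - 2)) * (ENNReal.ofReal (1 - e) *
          ENNReal.ofReal x) + C₂) + C' := by
          rw [← hPx]
          gcongr
          refine h9.trans ?_
          gcongr
      _ = ENNReal.ofReal (q * x + (C₂ + C')) := by
          rw [ENNReal.ofReal_add (by positivity) (by positivity), ENNReal.ofReal_add (by positivity)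
            (by positivity), ENNReal.ofReal_mul hq0, hq, ENNReal.ofReal_mul (by positivity),
            ENNReal.ofReal_coe_nnreal, ENNReal.ofReal_coe_nnreal]
          ring
  refine h8.trans (ENNReal.ofReal_le_ofReal ?_)
  exact h7

end Pool.Agent.Q64.VP
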