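import Mathlib
import Pool.Agent.Q64.VP.Stm
import Pool.Agent.Helper304.LapBasic

open MeasureTheory Filter Topology Set Metric
open scoped ENNReal NNReal ContDiff Laplacian Convolution

namespace Pool.Agent.Q64.VP.REG

open Pool.Agent.Q64.VP

variable {N : ℕ}

theorem lap_ml (n : ℕ) {u : E N → ℝ} (hu : LocallyIntegrable u) (x : E N) :
    Helper304Lap.lap (Helper304Lap.ml n u) x =
      ∫ t, Helper304Lap.lap (Helper304Lap.mol n) (x - t) * u t := by
  unfold Helper304Lap.lap
  simp only [Helper304Lap.ml_pd2 n hu, convolution_lsmul_swap, smul_eq_mul, Finset.sum_mul]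
  rw [integral_finsetSum]
  intro i _
  have := ((((Helper304Lap.mol_tst (N := N) n).pd i).pd i).2.convolutionExists_left
    (ContinuousLinearMap.lsmul ℝ ℝ)
    (((Helper304Lap.mol_tst (N := N) n).pd i).pd i).cont hu x).integrable_swap
  simpa using this

theorem mol_tsupport (n : ℕ) (x : E N) :
    tsupport (fun t => Helper304Lap.mol n (x - t)) ⊆ closedBall x (1 / ((n : ℝ) + 1)) := by
  apply closure_minimal _ isClosed_closedBall
  intro t ht
  have h1 : x - t ∈ Function.support (Helper304Lap.mol (N := N) n) := ht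
  have h2 : x - t ∈ ball (0 : E N) (1 / ((n : ℝ) + 1)) := by
    have h3 : Function.support (Helper304Lap.mol (N := N) n) = ball 0 (Helper304Lap.bump (N := N) n).rOut :=
      (Helper304Lap.bump (N := N) n).support_normed_eq
    rw [h3] at h1
    exact h1
  rw [mem_ball_zero_iff] at h2
  rw [mem_closedBall, dist_comm, dist_eq_norm]
  exact h2.le

theorem mol_int_sub (n : ℕ) (x : E N) : ∫ t, Helper304Lap.mol (N := N) n (x - t) = 1 := by
  rw [integral_sub_left_eq_self, Helper304Lap.mol_int]

theorem lap_bound (Ω : Set (E N)) (w b : E N → ℝ) (B : ℝ) (hΩ : IsOpen Ω)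
    (hw : IntegrableOn w Ω) (hbB : ∀ x, |b x| ≤ B)
    (h : ∀ φ : E N → ℝ, ContDiff ℝ ∞ φ → HasCompactSupport φ → tsupport φ ⊆ Ω →
      ∫ x in Ω, w x * (Δ φ) x = ∫ x in Ω, b x * φ x)
    (n : ℕ) (x : E N) (hx : closedBall x (1 / ((n : ℝ) + 1)) ⊆ Ω) :
    |(Δ (Helper304Lap.ml n (Ω.indicator w))) x| ≤ B := by
  have hu : Integrable (Ω.indicator w) := (integrable_indicator_iff hΩ.measurableSet).2 hw
  have hul := hu.locallyIntegrable
  have hT := Helper304Lap.tst_reflect (Helper304Lap.mol_tst (N := N) n) x
  have h1 := h _ hT.1 hT.2 ((mol_tsupport n x).trans hx)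
  have h2 : (Δ (Helper304Lap.ml n (Ω.indicator w))) x =
      ∫ t in Ω, b t * Helper304Lap.mol n (x - t) := by
    rw [← h1, Helper304Lap.lap_eq (Helper304Lap.ml_contDiff n hul), lap_ml n hul,
      ← integral_indicator hΩ.measurableSet]
    congr 1
    ext t
    by_cases ht : t ∈ Ω
    · rw [indicator_of_mem ht, indicator_of_mem ht, Helper304Lap.lap_eq hT.1,
        Helper304Lap.lap_reflect (Helper304Lap.mol_tst n).1]
      ring
    · rw [indicator_of_notMem ht, indicator_of_notMem ht, mul_zero]
  rw [h2, ← Real.norm_eq_abs]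
  have hi : Integrable (fun t => Helper304Lap.mol n (x - t)) := hT.integrable
  calc ‖∫ t in Ω, b t * Helper304Lap.mol n (x - t)‖
      ≤ ∫ t in Ω, ‖b t * Helper304Lap.mol n (x - t)‖ := norm_integral_le_integral_norm _
    _ ≤ ∫ t in Ω, B * Helper304Lap.mol n (x - t) := by
        apply integral_mono_of_nonneg
        · exact Eventually.of_forall fun t => norm_nonneg _
        · exact (hi.const_mul B).integrableOn
        · refine Eventually.of_forall fun t => ?_
          change ‖_‖ ≤ _
          rw [Real.norm_eq_abs, abs_mul, abs_of_nonneg (Helper304Lap.mol_nonneg _ _)]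
          exact mul_le_mul_of_nonneg_right (hbB t) (Helper304Lap.mol_nonneg _ _)
    _ = B * ∫ t in Ω, Helper304Lap.mol n (x - t) := integral_const_mul _ _
    _ ≤ B * 1 := by
        apply mul_le_mul_of_nonneg_left _ ((abs_nonneg _).trans (hbB 0))
        rw [← mol_int_sub n x]
        exact setIntegral_le_integral hi (Eventually.of_forall fun t => Helper304Lap.mol_nonneg _ _)
    _ = B := mul_one B

end Pool.Agent.Q64.VP.REG

namespace Pool.Agent.Q64.VP

open REG

theorem t_REG : S_REG := by
  intro N c _ hc hCK Ω w b B hΩ _ hw _ hbB h K hK hKΩ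
  obtain ⟨δ, hδ, hδK⟩ := hK.exists_cthickening_subset_open hΩ hKΩ
  obtain ⟨k, m, M, hkm, hki, hmc, hkM, hsupp, _, _, hid⟩ := hCK (δ / 2) (by positivity)
  set u := Ω.indicator w with hu_def
  have hu : Integrable u := (integrable_indicator_iff hΩ.measurableSet).2 hw
  have hul := hu.locallyIntegrable
  have hB0 : 0 ≤ B := (abs_nonneg _).trans (hbB 0)
  have hM0 : 0 ≤ M := (abs_nonneg _).trans (hkM 0).2
  refine ⟨(B * (∫ x, k x) + M * ∫ x, |u x|) / c, ?_⟩
  have hbound : ∀ᶠ n : ℕ in atTop, ∀ z ∈ K,
      |Helper304Lap.ml n u z| ≤ (B * (∫ x, k x) + M * ∫ x, |u x|) / c := by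
    have hlim : Tendsto (fun n : ℕ => 1 / ((n : ℝ) + 1)) atTop (𝓝 0) :=
      tendsto_one_div_add_atTop_nhds_zero_nat
    filter_upwards [hlim.eventually_lt_const (by positivity : (0 : ℝ) < δ / 2)] with n hn z hz
    have hζ := Helper304Lap.ml_contDiff n hul
    have hzi := Helper304Lap.ml_integrable n hu
    have hid' := hid _ hζ z
    have hlap : ∀ x : E N, |k (x - z) * (Δ (Helper304Lap.ml n u)) x| ≤ B * k (x - z) := by
      intro x
      by_cases hx : δ / 2 ≤ ‖x - z‖
      · rw [(hsupp _ hx).1]; simp
      · push Not at hx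
        have hball : closedBall x (1 / ((n : ℝ) + 1)) ⊆ Ω := by
          intro y hy
          apply hδK
          apply mem_cthickening_of_dist_le y z δ K hz
          rw [mem_closedBall] at hy
          have h1 : dist x z < δ / 2 := by rwa [dist_eq_norm]
          have h2 := dist_triangle y x z
          linarith
        have h3 := lap_bound Ω w b B hΩ hw hbB h n x hball
        rw [abs_mul, abs_of_nonneg (hkM _).1, mul_comm B]
        exact mul_le_mul_of_nonneg_left h3 (hkM _).1
    have hk1 : Integrable (fun x => B * k (x - z)) := (hki.comp_sub_right z).const_mul B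
    have hA : |∫ x, k (x - z) * (Δ (Helper304Lap.ml n u)) x| ≤ B * ∫ x, k x := by
      rw [← Real.norm_eq_abs]
      calc ‖∫ x, k (x - z) * (Δ (Helper304Lap.ml n u)) x‖
          ≤ ∫ x, ‖k (x - z) * (Δ (Helper304Lap.ml n u)) x‖ := norm_integral_le_integral_norm _
        _ ≤ ∫ x, B * k (x - z) := by
            apply integral_mono_of_nonneg
            · exact Eventually.of_forall fun t => norm_nonneg _
            · exact hk1
            · exact Eventually.of_forall fun x => hlap x
        _ = B * ∫ x, k x := by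
            rw [integral_const_mul, integral_sub_right_eq_self]
    have hD : |∫ x, m (x - z) * Helper304Lap.ml n u x| ≤ M * ∫ x, |u x| := by
      rw [← Real.norm_eq_abs]
      calc ‖∫ x, m (x - z) * Helper304Lap.ml n u x‖
          ≤ ∫ x, ‖m (x - z) * Helper304Lap.ml n u x‖ := norm_integral_le_integral_norm _
        _ ≤ ∫ x, M * |Helper304Lap.ml n u x| := by
            apply integral_mono_of_nonneg
            · exact Eventually.of_forall fun t => norm_nonneg _
            · exact hzi.abs.const_mul M
            · refine Eventually.of_forall fun x => ?_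
              change ‖_‖ ≤ _
              rw [Real.norm_eq_abs, abs_mul]
              exact mul_le_mul_of_nonneg_right (hkM _).2 (abs_nonneg _)
        _ = M * ∫ x, |Helper304Lap.ml n u x| := integral_const_mul _ _
        _ ≤ M * ∫ x, |u x| := mul_le_mul_of_nonneg_left (Helper304Lap.ml_L1_le n hu) hM0
    rw [le_div_iff₀ hc]
    have h5 : Helper304Lap.ml n u z * c =
        (∫ x, m (x - z) * Helper304Lap.ml n u x) - ∫ x, k (x - z) * (Δ (Helper304Lap.ml n u)) x := by
      rw [hid']; ring
    have h6 : |Helper304Lap.ml n u z| * c = |Helper304Lap.ml n u z * c| := by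
      rw [abs_mul, abs_of_pos hc]
    rw [h6, h5]
    have := abs_sub (∫ x, m (x - z) * Helper304Lap.ml n u x)
      (∫ x, k (x - z) * (Δ (Helper304Lap.ml n u)) x)
    linarith
  filter_upwards [Helper304Lap.ml_ae u hul] with z hz hzK
  have h7 : u z = w z := indicator_of_mem (hKΩ hzK) w
  rw [← h7]
  exact le_of_tendsto hz.abs (hbound.mono fun n hn => hn z hzK)

end Pool.Agent.Q64.VP
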