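import Pool.Agent.Q64.VP.Stm

/-!
# SEL: selection of a compact part of the set where the potential is infinite
-/

set_option autoImplicit false

open MeasureTheory Filter Topology Set Metric
open scoped ENNReal NNReal ContDiff Laplacian

namespace Pool.Agent.Q64.VP

namespace SEL

theorem meas_ball {N : ℕ} (σ : Measure (E N)) [IsFiniteMeasure σ] (r : ℝ) :
    Measurable fun x => σ (closedBall x r) := by
  have h : MeasurableSet {p : E N × E N | dist p.2 p.1 ≤ r} :=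
    measurableSet_le (measurable_snd.dist measurable_fst) measurable_const
  exact measurable_measure_prodMk_left (ν := σ) h

theorem ae_zero {N : ℕ} {μ F : Measure (E N)} [IsFiniteMeasure μ] [IsFiniteMeasure F]
    {Z : Set (E N)} (hZ : MeasurableSet Z) (hF : F Z = 0) :
    ∀ᵐ x ∂μ, x ∈ Z → F.rnDeriv μ x = 0 := by
  have h1 : ∫⁻ x in Z, F.rnDeriv μ x ∂μ = 0 :=
    le_antisymm ((Measure.setLIntegral_rnDeriv_le Z).trans hF.le) bot_le
  rw [lintegral_eq_zero_iff (Measure.measurable_rnDeriv F μ)] at h1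
  exact (ae_restrict_iff' hZ).1 h1

theorem ae_good {N : ℕ} {μ F : Measure (E N)} [IsFiniteMeasure μ] [IsFiniteMeasure F]
    {Z : Set (E N)} (hZ : MeasurableSet Z) (hF : F Z = 0) {ε : ℝ} (hε : 0 < ε) :
    ∀ᵐ x ∂μ, x ∈ Z → ∃ j : ℕ, ∀ i, j ≤ i →
      F (closedBall x ((1 / 2) ^ i)) ≤ ENNReal.ofReal ε * μ (closedBall x ((1 / 2) ^ i)) := by
  filter_upwards [ae_zero hZ hF, Besicovitch.ae_tendsto_rnDeriv F μ] with x h1 h2 hx
  rw [h1 hx] at h2
  have hε0 : (0 : ℝ≥0∞) < ENNReal.ofReal ε := ENNReal.ofReal_pos.2 hε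
  have h3 := h2.eventually_lt_const hε0
  have h4 : Tendsto (fun i : ℕ => ((1 : ℝ) / 2) ^ i) atTop (𝓝[>] 0) := by
    refine tendsto_nhdsWithin_iff.2 ⟨?_, Eventually.of_forall fun i => ?_⟩
    · exact tendsto_pow_atTop_nhds_zero_of_lt_one (by norm_num) (by norm_num)
    · exact mem_Ioi.2 (pow_pos (by norm_num : (0 : ℝ) < 1 / 2) i)
  obtain ⟨j, hj⟩ := eventually_atTop.1 (h4.eventually h3)
  refine ⟨j, fun i hi => ?_⟩
  exact (ENNReal.div_le_iff_le_mul (Or.inr ENNReal.ofReal_ne_top)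
    (Or.inl (measure_ne_top _ _))).1 (hj i hi).le

theorem core {N : ℕ} {μ F : Measure (E N)} [IsFiniteMeasure μ] [IsFiniteMeasure F]
    {Z : Set (E N)} (hZ : MeasurableSet Z) (hF : F Z = 0) {ε δ : ℝ} (hε : 0 < ε) (hδ : 0 < δ) :
    ∃ (A : Set (E N)) (ρ0 : ℝ), 0 < ρ0 ∧ IsCompact A ∧ A ⊆ Z ∧ μ (Z \ A) ≤ ENNReal.ofReal δ ∧
      ∀ x ∈ A, ∀ s : ℝ, 0 < s → s < ρ0 →
        F (closedBall x s) ≤ ENNReal.ofReal ε * μ (closedBall x (2 * s)) := by
  obtain ⟨T, hT⟩ : ∃ T : ℕ → Set (E N), T = fun j : ℕ => {x | x ∈ Z ∧ ∀ i, j ≤ i →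
      F (closedBall x ((1 / 2) ^ i)) ≤ ENNReal.ofReal ε * μ (closedBall x ((1 / 2) ^ i))} :=
    ⟨_, rfl⟩
  have hTm : ∀ j, MeasurableSet (T j) := fun j => by
    have h1 : T j = Z ∩ ⋂ i : {i : ℕ // j ≤ i}, {x | F (closedBall x ((1 / 2) ^ (i : ℕ))) ≤
        ENNReal.ofReal ε * μ (closedBall x ((1 / 2) ^ (i : ℕ)))} := by
      rw [hT]
      ext x
      rw [mem_inter_iff, mem_iInter]
      exact ⟨fun h => ⟨h.1, fun i => h.2 i i.2⟩, fun h => ⟨h.1, fun i hi => h.2 ⟨i, hi⟩⟩⟩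
    rw [h1]
    exact hZ.inter (MeasurableSet.iInter fun i =>
      measurableSet_le (meas_ball F _) ((meas_ball μ _).const_mul _))
  have hanti : Antitone fun j => Z \ T j := by
    intro n m hnm x hx
    refine ⟨hx.1, fun h => hx.2 ?_⟩
    rw [hT] at h ⊢
    exact ⟨h.1, fun i hi => h.2 i (hnm.trans hi)⟩
  have hempty : μ (⋂ j, Z \ T j) = 0 := by
    refine measure_mono_null ?_ (ae_good (μ := μ) hZ hF hε)
    intro x hx
    rw [mem_iInter] at hx
    intro h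
    obtain ⟨j, hj⟩ := h (hx 0).1
    refine (hx j).2 ?_
    rw [hT]
    exact ⟨(hx 0).1, hj⟩
  have hlim : Tendsto (fun n => μ (Z \ T n)) atTop (𝓝 0) := by
    have h := tendsto_measure_iInter_atTop (μ := μ)
      (fun n => (hZ.diff (hTm n)).nullMeasurableSet) hanti ⟨0, measure_ne_top _ _⟩
    rwa [hempty] at h
  have hδ2 : (0 : ℝ≥0∞) < ENNReal.ofReal (δ / 2) := ENNReal.ofReal_pos.2 (by positivity)
  obtain ⟨j, hj⟩ := (hlim.eventually_lt_const hδ2).exists
  obtain ⟨A, hAT, hA, hAn⟩ := (hTm j).exists_isCompact_sdiff_lt (μ := μ) (measure_ne_top _ _)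
    hδ2.ne'
  refine ⟨A, (1 / 2) ^ j, by positivity, hA, fun x hx => ?_, ?_, ?_⟩
  · have h := hAT hx
    rw [hT] at h
    exact h.1
  · have h1 : Z \ A ⊆ (Z \ T j) ∪ (T j \ A) := by
      intro x hx
      by_cases h : x ∈ T j
      · exact Or.inr ⟨h, hx.2⟩
      · exact Or.inl ⟨hx.1, h⟩
    calc μ (Z \ A) ≤ μ ((Z \ T j) ∪ (T j \ A)) := measure_mono h1
      _ ≤ μ (Z \ T j) + μ (T j \ A) := measure_union_le _ _
      _ ≤ ENNReal.ofReal (δ / 2) + ENNReal.ofReal (δ / 2) := add_le_add hj.le hAn.le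
      _ = ENNReal.ofReal δ := by
        rw [← ENNReal.ofReal_add (by positivity) (by positivity)]
        congr 1
        ring
  · intro x hx s hs0 hs
    have h := hAT hx
    rw [hT] at h
    have hs1 : s ≤ 1 := hs.le.trans (pow_le_one₀ (by norm_num) (by norm_num))
    obtain ⟨i, hi1, hi2⟩ := exists_nat_pow_near_of_lt_one hs0 hs1 (y := (1 : ℝ) / 2) (by norm_num)
      (by norm_num)
    have hij : j ≤ i := by
      by_contra hcon
      have h5 : ((1 : ℝ) / 2) ^ j ≤ (1 / 2) ^ (i + 1) :=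
        pow_le_pow_of_le_one (by norm_num) (by norm_num) (by omega)
      linarith
    calc F (closedBall x s) ≤ F (closedBall x ((1 / 2) ^ i)) := measure_mono (closedBall_subset_closedBall hi2)
      _ ≤ ENNReal.ofReal ε * μ (closedBall x ((1 / 2) ^ i)) := h.2 i hij
      _ ≤ ENNReal.ofReal ε * μ (closedBall x (2 * s)) := by
        refine mul_le_mul_right (measure_mono (closedBall_subset_closedBall ?_)) _
        have h6 : ((1 : ℝ) / 2) ^ (i + 1) = (1 / 2) ^ i / 2 := by rw [pow_succ]; ring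
        linarith

end SEL

theorem t_SEL (ton : S_TON) (int : S_INT) : S_SEL := by
  intro N hN D μ F Ω ε δ hμ hF hFv hΩ hε hδ
  have hP : Measurable (P D μ) := (ton N D μ hμ).2
  have hZm : MeasurableSet (Ω ∩ {x | P D μ x = ⊤}) :=
    hΩ.inter (hP (measurableSet_singleton ⊤))
  have hZv : volume (Ω ∩ {x | P D μ x = ⊤}) = 0 := by
    refine measure_mono_null inter_subset_right ?_
    have h := ae_lt_top hP (int N hN D μ hμ).ne
    refine measure_mono_null ?_ h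
    intro x hx hx2
    exact hx2.ne hx
  obtain ⟨A, ρ0, h1, h2, h3, h4, h5⟩ := SEL.core (μ := μ) hZm (hFv hZv) hε hδ
  exact ⟨A, ρ0, h1, h2, h3, measure_mono_null h3 hZv, h4, h5⟩

end Pool.Agent.Q64.VP
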