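import Pool.Agent.Q64.VP.Stm

/-!
# SELD: inner regularity on the set where the potential is finite
-/

set_option autoImplicit false

open MeasureTheory Filter Topology Set Metric
open scoped ENNReal NNReal ContDiff Laplacian

namespace Pool.Agent.Q64.VP

theorem t_SELD (ton : S_TON) : S_SELD := by
  intro N D μ Ω δ hμ hΩ hδ
  have hP : Measurable (P D μ) := (ton N D μ hμ).2
  obtain ⟨S, hS⟩ : ∃ S : Set (E N), S = Ω ∩ {x | P D μ x < ⊤} := ⟨_, rfl⟩
  obtain ⟨T, hT⟩ : ∃ T : ℕ → Set (E N), T = fun n : ℕ => Ω ∩ {x | P D μ x ≤ (n : ℝ≥0∞)} := ⟨_, rfl⟩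
  have hTm : ∀ n, MeasurableSet (T n) := fun n => by
    rw [hT]
    exact hΩ.inter (measurableSet_le hP measurable_const)
  have hSm : MeasurableSet S := by
    rw [hS]
    exact hΩ.inter (measurableSet_lt hP measurable_const)
  have hTS : ∀ n, T n ⊆ S := fun n x hx => by
    rw [hT] at hx
    rw [hS]
    exact ⟨hx.1, lt_of_le_of_lt hx.2 (ENNReal.natCast_lt_top n)⟩
  have hanti : Antitone fun n => S \ T n := by
    intro n m hnm x hx
    refine ⟨hx.1, fun h => hx.2 ?_⟩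
    rw [hT] at h ⊢
    have h2 : P D μ x ≤ (n : ℝ≥0∞) := h.2
    exact ⟨h.1, h2.trans (Nat.cast_le.2 hnm)⟩
  have hempty : ⋂ n, S \ T n = ∅ := by
    rw [eq_empty_iff_forall_notMem]
    intro x hx
    rw [mem_iInter] at hx
    have hxS : x ∈ S := (hx 0).1
    rw [hS] at hxS
    have h1 : P D μ x < ⊤ := hxS.2
    obtain ⟨n, hn⟩ := ENNReal.exists_nat_gt h1.ne
    refine (hx n).2 ?_
    rw [hT]
    exact ⟨hxS.1, hn.le⟩
  have hlim : Tendsto (fun n => μ (S \ T n)) atTop (𝓝 0) := by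
    have h := tendsto_measure_iInter_atTop (μ := μ)
      (fun n => (hSm.diff (hTm n)).nullMeasurableSet) hanti ⟨0, measure_ne_top _ _⟩
    rwa [hempty, measure_empty] at h
  have hδ2 : (0 : ℝ≥0∞) < ENNReal.ofReal (δ / 2) := ENNReal.ofReal_pos.2 (by positivity)
  obtain ⟨n, hn⟩ := (hlim.eventually_lt_const hδ2).exists
  obtain ⟨A, hAT, hA, hAn⟩ := (hTm n).exists_isCompact_sdiff_lt (μ := μ) (measure_ne_top _ _) hδ2.ne'
  refine ⟨A, n, hA, ?_, ?_, ?_⟩
  · rw [← hS]
    exact hAT.trans (hTS n)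
  · intro x hx
    have h := hAT hx
    rw [hT] at h
    exact_mod_cast h.2
  · rw [← hS]
    have h1 : S \ A ⊆ (S \ T n) ∪ (T n \ A) := by
      intro x hx
      by_cases h : x ∈ T n
      · exact Or.inr ⟨h, hx.2⟩
      · exact Or.inl ⟨hx.1, h⟩
    calc μ (S \ A) ≤ μ ((S \ T n) ∪ (T n \ A)) := measure_mono h1
      _ ≤ μ (S \ T n) + μ (T n \ A) := measure_union_le _ _
      _ ≤ ENNReal.ofReal (δ / 2) + ENNReal.ofReal (δ / 2) := add_le_add hn.le hAn.le
      _ = ENNReal.ofReal δ := by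
        rw [← ENNReal.ofReal_add (by positivity) (by positivity)]
        congr 1
        ring

end Pool.Agent.Q64.VP
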