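import Pool.Agent.Q64.VP.Stm

/-! Project VP, job SING: the estimate near the singular set. -/

set_option autoImplicit false

open MeasureTheory Filter Topology Set Metric
open scoped ENNReal NNReal ContDiff Laplacian

namespace Pool.Agent.Q64.VP

namespace SING

/-- off `A` the potential is bounded -/
theorem far {N : ℕ} (hN : 2 ≤ N) {D r : ℝ} (hr : 0 < r) (ν : Measure (E N)) (A : Set (E N))
    (hA : ν Aᶜ = 0) (y : E N) (hy : r ≤ infDist y A) :
    P D ν y ≤ ν univ * ENNReal.ofReal (r ^ (1 - (N : ℝ))) * ENNReal.ofReal D := by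
  have hN' : (2 : ℝ) ≤ N := by exact_mod_cast hN
  unfold P
  calc ∫⁻ s in Ioo 0 D, ν (closedBall y s) * ENNReal.ofReal (s ^ (1 - (N : ℝ)))
      ≤ ∫⁻ _ in Ioo 0 D, ν univ * ENNReal.ofReal (r ^ (1 - (N : ℝ))) := by
        refine setLIntegral_mono' measurableSet_Ioo (fun s hs => ?_)
        rcases lt_or_ge s r with h | h
        · have h0 : ν (closedBall y s) = 0 := by
            refine measure_mono_null (t := Aᶜ) (fun z hz hzA => ?_) hA
            have h1 := infDist_le_dist_of_mem (x := y) hzA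
            rw [mem_closedBall, dist_comm] at hz
            linarith
          rw [h0, zero_mul]
          exact zero_le
        · refine mul_le_mul' (measure_mono (subset_univ _)) (ENNReal.ofReal_le_ofReal ?_)
          exact Real.rpow_le_rpow_of_nonpos hr h (by linarith)
    _ = ν univ * ENNReal.ofReal (r ^ (1 - (N : ℝ))) * ENNReal.ofReal D := by
        rw [setLIntegral_const, Real.volume_Ioo, sub_zero]

theorem val {N : ℕ} {D c M : ℝ} (hc : 0 < c) (hM : 0 < M) (ν : Measure (E N)) {g : ℝ → ℝ}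
    (hg : Monotone g) (C' : ℝ) (y : E N) (t : ℝ)
    (h : P D ν y + (Real.toNNReal (c * |C'|) : ℝ≥0) ≤ ENNReal.ofReal (max (c * t) M)) :
    ENNReal.ofReal (g ((P D ν y).toReal / c + C')) ≤
      ENNReal.ofReal (g t) + ENNReal.ofReal (g (M / c)) := by
  have hfin : P D ν y ≠ ⊤ := by
    intro h'
    rw [h', top_add] at h
    exact ENNReal.ofReal_ne_top (top_le_iff.1 h)
  have hmax : 0 ≤ max (c * t) M := hM.le.trans (le_max_right _ _)
  have h1 : (P D ν y).toReal + c * |C'| ≤ max (c * t) M := by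
    have h2 := ENNReal.toReal_mono ENNReal.ofReal_ne_top h
    rw [ENNReal.toReal_add hfin ENNReal.coe_ne_top, ENNReal.toReal_ofReal hmax,
      ENNReal.coe_toReal, Real.coe_toNNReal _ (by positivity)] at h2
    exact h2
  have h2 : (P D ν y).toReal / c + C' ≤ max t (M / c) := by
    have h3 : (P D ν y).toReal / c + |C'| ≤ max t (M / c) := by
      have h4 : max t (M / c) = max (c * t) M / c := by
        rw [← max_div_div_right hc.le]
        congr 1
        field_simp
      rw [h4, le_div_iff₀ hc]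
      have : ((P D ν y).toReal / c + |C'|) * c = (P D ν y).toReal + c * |C'| := by
        field_simp
      rw [this]
      exact h1
    exact (add_le_add le_rfl (le_abs_self C')).trans h3
  have h3 := hg h2
  rw [hg.map_max] at h3
  refine (ENNReal.ofReal_le_ofReal h3).trans ?_
  rcases max_cases (g t) (g (M / c)) with h4 | h4
  · rw [h4.1]
    exact le_self_add
  · rw [h4.1]
    exact le_add_self

end SING

open SING in
theorem t_SING (pt : S_PT) (avg : S_AVG) (ton : S_TON) : S_SING := by
  intro N hN e he he1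
  obtain ⟨η, κ, hη, hη4, hκ, hpt⟩ := pt N hN e he he1
  refine ⟨κ, hκ, ?_⟩
  intro D c ρ0 Ω μ F ν A u g hD hc hρ hΩ hΩb hμ hF hν hA hAΩ hνA hνμ hg hgc hu hgu hAF hlow C'
  have hvol : volume Ω < ⊤ := hΩb.measure_lt_top
  have hPm := (ton N D ν hν).2
  set V : E N → ℝ≥0∞ := fun y => ENNReal.ofReal (g ((P D ν y).toReal / c + C')) with hV
  have hVm : Measurable V :=
    ENNReal.measurable_ofReal.comp (hgc.measurable.comp ((hPm.ennreal_toReal.div_const c).add_const C'))
  rcases A.eq_empty_or_nonempty with hAe | hAn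
  · subst hAe
    have h0 : ν = 0 := by
      rw [compl_empty] at hνA
      exact Measure.measure_univ_eq_zero.1 hνA
    have hP : ∀ x, P D ν x = 0 := by
      intro x
      unfold P
      simp [h0]
    have h1 : ∫⁻ x in Ω \ ∅, ENNReal.ofReal (g ((P D ν x).toReal / c + C')) =
        ENNReal.ofReal (g (0 / c + C')) * volume Ω := by
      simp only [hP, ENNReal.toReal_zero, sdiff_empty]
      rw [setLIntegral_const]
    rw [h1]
    exact ENNReal.mul_lt_top ENNReal.ofReal_lt_top hvol
  obtain ⟨r1, hr1, hr1Ω⟩ := hA.exists_cthickening_subset_open hΩ hAΩ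
  have hmemK : ∀ z : E N, infDist z A ≤ r1 → z ∈ cthickening r1 A := by
    intro z hz
    rw [mem_cthickening_iff]
    rw [infDist, ← ENNReal.le_ofReal_iff_toReal_le (infEDist_ne_top hAn) hr1.le] at hz
    exact hz
  obtain ⟨C0, hC0⟩ := hlow _ (hA.cthickening) hr1Ω
  obtain ⟨r2, M, hr2, hM, hball⟩ := hpt D c r1 ρ0 μ F ν A u C0 hD hc hr1 hρ hμ hF hν hA hAn hνA
    hνμ hAF (hC0.mono fun z hz hz' => hz (hmemK z hz')) (Real.toNNReal (c * |C'|))
  -- measurable version of `u`
  have hum : AEStronglyMeasurable u (volume.restrict Ω) := hu.aestronglyMeasurable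
  set u' : E N → ℝ := hum.mk u with hu'
  have hu'm : Measurable u' := hum.stronglyMeasurable_mk.measurable
  have huu' : ∀ᵐ z : E N, z ∈ Ω → u z = u' z := (ae_restrict_iff' hΩ.measurableSet).1 hum.ae_eq_mk
  set q : E N → ℝ≥0∞ := Ω.indicator fun z => ENNReal.ofReal (g (u' z)) + ENNReal.ofReal (g (M / c))
    with hq
  have hqm : Measurable q := by
    refine Measurable.indicator ?_ hΩ.measurableSet
    exact (ENNReal.measurable_ofReal.comp (hgc.measurable.comp hu'm)).add_const _
  set r3 : ℝ := min r2 (r1 / 2) with hr3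
  have hr3p : 0 < r3 := lt_min hr2 (by linarith)
  have key := avg N (by omega) A η r3 V q hA hAn hη hη4 hr3p hVm hqm ?_
  swap
  · intro y hy0 hy
    have hy2 : infDist y A < r2 := hy.trans_le (min_le_left _ _)
    have hy1 : infDist y A < r1 / 2 := hy.trans_le (min_le_right _ _)
    refine (hball y hy0 hy2).trans (mul_le_mul' le_rfl (measure_mono_ae ?_))
    filter_upwards [huu'] with z hz hzS
    obtain ⟨hzb, hzP⟩ := hzS
    refine ⟨hzb, ?_⟩
    have hzΩ : z ∈ Ω := by
      refine hr1Ω (hmemK z ?_)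
      have h1 : infDist z A ≤ infDist y A + dist z y := infDist_le_infDist_add_dist
      rw [mem_ball] at hzb
      nlinarith
    have h2 := val (D := D) hc hM ν hg C' y (u z) hzP
    rw [hq, indicator_of_mem hzΩ, ← hz hzΩ]
    exact h2
  have hqfin : ∫⁻ z, q z < ⊤ := by
    rw [hq, lintegral_indicator hΩ.measurableSet]
    rw [lintegral_add_right _ measurable_const, setLIntegral_const]
    refine ENNReal.add_lt_top.2 ⟨?_, ENNReal.mul_lt_top ENNReal.ofReal_lt_top hvol⟩
    have h1 : ∫⁻ z in Ω, ENNReal.ofReal (g (u' z)) = ∫⁻ z in Ω, ENNReal.ofReal (g (u z)) := by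
      refine lintegral_congr_ae ?_
      filter_upwards [hum.ae_eq_mk] with z hz
      rw [hz]
    rw [h1]
    exact hgu.lintegral_lt_top
  set b : ℝ≥0∞ := ν univ * ENNReal.ofReal (r3 ^ (1 - (N : ℝ))) * ENNReal.ofReal D with hb
  have hbfin : b ≠ ⊤ := by
    rw [hb]
    exact ENNReal.mul_ne_top (ENNReal.mul_ne_top (measure_ne_top ν _) ENNReal.ofReal_ne_top)
      ENNReal.ofReal_ne_top
  have hsub : Ω \ A ⊆ {y | 0 < infDist y A ∧ infDist y A < r3} ∪ (Ω ∩ {y | r3 ≤ infDist y A}) := by
    intro y hy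
    have h0 : 0 < infDist y A := (hA.isClosed.notMem_iff_infDist_pos hAn).1 hy.2
    rcases lt_or_ge (infDist y A) r3 with h | h
    · exact Or.inl ⟨h0, h⟩
    · exact Or.inr ⟨hy.1, h⟩
  refine (lintegral_mono_set hsub).trans_lt ?_
  refine (lintegral_union_le _ _ _).trans_lt ?_
  refine ENNReal.add_lt_top.2 ⟨?_, ?_⟩
  · refine key.trans_lt ?_
    refine ENNReal.mul_lt_top ?_ ((setLIntegral_le_lintegral _ _).trans_lt hqfin)
    exact ENNReal.mul_lt_top (by norm_num) (ENNReal.pow_lt_top (by norm_num))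
  · have hms : MeasurableSet (Ω ∩ {y : E N | r3 ≤ infDist y A}) :=
      hΩ.measurableSet.inter (measurableSet_le measurable_const (continuous_infDist_pt A).measurable)
    calc ∫⁻ y in Ω ∩ {y | r3 ≤ infDist y A}, ENNReal.ofReal (g ((P D ν y).toReal / c + C'))
        ≤ ∫⁻ _ in Ω ∩ {y | r3 ≤ infDist y A}, ENNReal.ofReal (g (b.toReal / c + C')) := by
          refine setLIntegral_mono' hms (fun y hy => ENNReal.ofReal_le_ofReal (hg ?_))
          have h1 := far hN (D := D) hr3p ν A hνA y hy.2
          have h2 : (P D ν y).toReal ≤ b.toReal := ENNReal.toReal_mono hbfin h1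
          gcongr
      _ = ENNReal.ofReal (g (b.toReal / c + C')) * volume (Ω ∩ {y | r3 ≤ infDist y A}) :=
          setLIntegral_const _ _
      _ < ⊤ := ENNReal.mul_lt_top ENNReal.ofReal_lt_top
          ((measure_mono inter_subset_left).trans_lt hvol)

end Pool.Agent.Q64.VP
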