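import Pool.Agent.Q64.VP.TON
import Pool.Agent.Q54.VP.INT
import Pool.Agent.Q64.VP.FRO
import Pool.Agent.Q64.VP.SELD
import Pool.Agent.Q64.VP.SEL
import Pool.Agent.Q64.VP.NEAR
import Pool.Agent.Q64.VP.HAR
import Pool.Agent.Q64.VP.PT
import Pool.Agent.Q64.VP.AVG
import Pool.Agent.Q64.VP.SING
import Pool.Agent.Q91.VP.CK
import Pool.Agent.Q64.VP.REG
import Pool.Agent.Q64.VP.LOW
import Pool.Agent.Q64.VP.EST
import Pool.Agent.Q64.VP.HB
import Pool.Agent.Q39.VP.EX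
import Pool.Agent.Q64.VP.MAIN

/-! Assembly of project VP (helper64, lemmas by helper39, 40, 54, 65, 68, 76, 87, 91, 139, 154, 160,
178, 194, 223; further proofs of the kernel lemma by helper147, 192). -/

open MeasureTheory Filter Topology Set Metric
open scoped ENNReal NNReal ContDiff Laplacian

namespace Pool.Agent.Q64.VP

theorem all_MAIN : S_MAIN :=
  t_MAIN Pool.Agent.Q91.VP.CK.t_CK (t_LOW t_REG t_TON Pool.Agent.Q54.VP.t_INT)
    (Pool.Agent.Q39.VP.t_EX (t_HB t_EST) t_TON Pool.Agent.Q54.VP.t_INT) t_FRO (t_SELD t_TON)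
    (t_SEL t_TON Pool.Agent.Q54.VP.t_INT)
    (t_SING (t_PT t_NEAR t_HAR Pool.Agent.Q54.VP.t_INT t_TON) t_AVG t_TON) t_TON Pool.Agent.Q54.VP.t_INT

end Pool.Agent.Q64.VP
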