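import Mathlib
import Pool.Agent.Q64.VP.Stm

/-!
# Project VP: the statement `CK2` (cut-off fundamental solution of the Laplacian in the plane)

`k(x) = ∫_0^ρ ψ(x/s) ds/s` with `ψ(y) = (1-|y|²)_+²`, `∇ψ = -η(y) y`, `η(y) = 4 (1-|y|²)_+`,
`m(x) = ρ^(-2) η(x/ρ)`, `c = ∫ η`.
-/

set_option autoImplicit false

open MeasureTheory Filter Topology Set Metric
open scoped ENNReal NNReal ContDiff Laplacian

namespace Pool.Agent.Q64.VP.CK2

/-- `(1-|y|²)_+²` -/
noncomputable def psi (y : E 2) : ℝ := (max 0 (1 - ‖y‖ ^ 2)) ^ 2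

/-- `4 (1-|y|²)_+` -/
noncomputable def eta (y : E 2) : ℝ := 4 * max 0 (1 - ‖y‖ ^ 2)

theorem psi_cont : Continuous psi := by unfold psi; fun_prop

theorem eta_cont : Continuous eta := by unfold eta; fun_prop

theorem psi_nonneg (y : E 2) : 0 ≤ psi y := by unfold psi; positivity

theorem eta_nonneg (y : E 2) : 0 ≤ eta y := by unfold eta; positivity

theorem psi_zero {y : E 2} (h : 1 ≤ ‖y‖) : psi y = 0 := by
  unfold psi
  rw [max_eq_left (by nlinarith)]
  norm_num

theorem eta_zero {y : E 2} (h : 1 ≤ ‖y‖) : eta y = 0 := by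
  unfold eta
  rw [max_eq_left (by nlinarith)]
  norm_num

theorem psi_le (y : E 2) : psi y ≤ 1 := by
  unfold psi
  have h1 : max 0 (1 - ‖y‖ ^ 2) ≤ 1 := max_le (by norm_num) (by nlinarith [sq_nonneg ‖y‖])
  have h0 : 0 ≤ max 0 (1 - ‖y‖ ^ 2) := le_max_left _ _
  nlinarith

theorem eta_le (y : E 2) : eta y ≤ 4 := by
  unfold eta
  have h1 : max 0 (1 - ‖y‖ ^ 2) ≤ 1 := max_le (by norm_num) (by nlinarith [sq_nonneg ‖y‖])
  linarith

theorem psi_comp : HasCompactSupport psi :=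
  HasCompactSupport.intro (isCompact_closedBall (0 : E 2) 1) fun x hx => psi_zero (by
    rw [mem_closedBall, dist_zero_right, not_le] at hx
    exact hx.le)

theorem eta_comp : HasCompactSupport eta :=
  HasCompactSupport.intro (isCompact_closedBall (0 : E 2) 1) fun x hx => eta_zero (by
    rw [mem_closedBall, dist_zero_right, not_le] at hx
    exact hx.le)

theorem hasDerivAt_pp (t : ℝ) : HasDerivAt (fun t : ℝ => (max 0 t) ^ 2) (2 * max 0 t) t := by
  rcases lt_trichotomy t 0 with h | h | h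
  · have h1 : (fun t : ℝ => (max 0 t) ^ 2) =ᶠ[𝓝 t] fun _ => 0 := by
      filter_upwards [gt_mem_nhds h] with u hu
      rw [max_eq_left (le_of_lt hu)]
      norm_num
    rw [max_eq_left h.le, mul_zero]
    exact (hasDerivAt_const t (0 : ℝ)).congr_of_eventuallyEq h1
  · subst h
    rw [max_self, mul_zero, hasDerivAt_iff_tendsto_slope_zero]
    refine squeeze_zero_norm (a := fun t : ℝ => |t|) (fun u => ?_) ?_
    · simp only [zero_add, max_self, smul_eq_mul]
      rw [Real.norm_eq_abs, abs_mul, abs_inv]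
      have h1 : |(max 0 u) ^ 2 - 0 ^ 2| ≤ |u| ^ 2 := by
        rw [zero_pow (by norm_num), sub_zero, abs_pow]
        refine pow_le_pow_left₀ (abs_nonneg _) ?_ 2
        rw [abs_of_nonneg (le_max_left _ _)]
        exact max_le (abs_nonneg _) (le_abs_self _)
      rcases eq_or_ne u 0 with rfl | hu
      · simp
      · have hu' : 0 < |u| := abs_pos.2 hu
        calc |u|⁻¹ * |(max 0 u) ^ 2 - 0 ^ 2| ≤ |u|⁻¹ * |u| ^ 2 :=
              mul_le_mul_of_nonneg_left h1 (inv_nonneg.2 hu'.le)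
          _ = |u| := by field_simp
    · have : Tendsto (fun t : ℝ => |t|) (𝓝 0) (𝓝 0) := by
        simpa using (continuous_abs.tendsto (0 : ℝ))
      exact this.mono_left nhdsWithin_le_nhds
  · have h1 : (fun t : ℝ => (max 0 t) ^ 2) =ᶠ[𝓝 t] fun u => u ^ 2 := by
      filter_upwards [lt_mem_nhds h] with u hu
      rw [max_eq_right (le_of_lt hu)]
    rw [max_eq_right h.le]
    have h2 : HasDerivAt (fun u : ℝ => u ^ 2) (2 * t) t := by
      simpa using hasDerivAt_pow 2 t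
    exact h2.congr_of_eventuallyEq h1

theorem hasFDerivAt_psi (y : E 2) :
    HasFDerivAt psi ((2 * max 0 (1 - ‖y‖ ^ 2)) • (-(2 • innerSL ℝ y)) : E 2 →L[ℝ] ℝ) y := by
  have h1 : HasFDerivAt (fun x : E 2 => 1 - ‖x‖ ^ 2) (-(2 • innerSL ℝ y) : E 2 →L[ℝ] ℝ) y :=
    (hasStrictFDerivAt_norm_sq y).hasFDerivAt.const_sub 1
  exact (hasDerivAt_pp (1 - ‖y‖ ^ 2)).comp_hasFDerivAt y h1

theorem psi_diff : Differentiable ℝ psi := fun y => (hasFDerivAt_psi y).differentiableAt

theorem fderiv_psi (y v : E 2) : fderiv ℝ psi y v = -(eta y * inner ℝ y v) := by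
  rw [(hasFDerivAt_psi y).fderiv]
  unfold eta
  simp only [smul_apply, neg_apply, innerSL_apply_apply,
    smul_eq_mul, nsmul_eq_mul]
  push_cast
  ring

theorem ibp (h : E 2 → ℝ) (hh : ContDiff ℝ 1 h) (v : E 2) :
    ∫ y, psi y * fderiv ℝ h y v = ∫ y, eta y * inner ℝ y v * h y := by
  have hc : Continuous fun y => fderiv ℝ h y v := (hh.continuous_fderiv (by norm_num)).clm_apply continuous_const
  have he : (fun y => fderiv ℝ psi y v * h y) = fun y => -(eta y * inner ℝ y v * h y) := by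
    funext y
    rw [fderiv_psi]
    ring
  have hic : Continuous fun y : E 2 => inner ℝ y v := continuous_id.inner continuous_const
  have hi : Integrable (fun y => eta y * inner ℝ y v * h y) :=
    Continuous.integrable_of_hasCompactSupport ((eta_cont.mul hic).mul hh.continuous)
      ((eta_comp.mul_right (f' := fun y => inner ℝ y v)).mul_right (f' := h))
  rw [integral_mul_fderiv_eq_neg_fderiv_mul_of_integrable (by rw [he]; exact hi.neg)
    (Continuous.integrable_of_hasCompactSupport (psi_cont.mul hc) psi_comp.mul_right)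
    (Continuous.integrable_of_hasCompactSupport (psi_cont.mul hh.continuous) psi_comp.mul_right)
    (fun y _ => psi_diff y) (fun y _ => hh.differentiable (by norm_num) y), he, integral_neg, neg_neg]

/-- the kernel on the product -/
noncomputable def G (x : E 2) (s : ℝ) : ℝ := psi (s⁻¹ • x) * s⁻¹

theorem G_meas : Measurable (Function.uncurry G) :=
  (psi_cont.measurable.comp ((measurable_snd.inv).smul measurable_fst)).mul measurable_snd.inv

theorem G_meas' (x : E 2) : Measurable (G x) := G_meas.of_uncurry_left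

/-- the kernel -/
noncomputable def k (ρ : ℝ) (x : E 2) : ℝ := ∫ s in Ioo 0 ρ, G x s

theorem int_scale {s : ℝ} (hs : 0 < s) (f : E 2 → ℝ) :
    ∫ x, f (s⁻¹ • x) * s⁻¹ = s * ∫ x, f x := by
  rw [integral_mul_const, Measure.integral_comp_inv_smul, finrank_euclideanSpace_fin,
    abs_of_pos (by positivity), smul_eq_mul]
  field_simp

theorem G_nonneg (x : E 2) {s : ℝ} (hs : 0 < s) : 0 ≤ G x s :=
  mul_nonneg (psi_nonneg _) (inv_nonneg.2 hs.le)

theorem G_int (ρ : ℝ) :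
    Integrable (Function.uncurry G) ((volume : Measure (E 2)).prod (volume.restrict (Ioo 0 ρ))) := by
  rw [integrable_prod_iff' G_meas.aestronglyMeasurable]
  constructor
  · filter_upwards [self_mem_ae_restrict measurableSet_Ioo] with s hs
    have hs0 : s ≠ 0 := ne_of_gt hs.1
    have hp : Integrable psi (volume : Measure (E 2)) :=
      psi_cont.integrable_of_hasCompactSupport psi_comp
    exact (hp.comp_smul (inv_ne_zero hs0)).mul_const s⁻¹
  · have hc : Continuous fun s : ℝ => s * ∫ x, psi x := continuous_id.mul continuous_const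
    have h1 : IntegrableOn (fun s : ℝ => s * ∫ x, psi x) (Ioo 0 ρ) :=
      (hc.integrableOn_Icc (μ := volume) (a := 0) (b := ρ)).mono_set Ioo_subset_Icc_self
    refine Integrable.congr h1 ?_
    filter_upwards [self_mem_ae_restrict measurableSet_Ioo] with s hs
    have h2 : ∀ x, ‖Function.uncurry G (x, s)‖ = psi (s⁻¹ • x) * s⁻¹ := fun x =>
      Real.norm_of_nonneg (G_nonneg x hs.1)
    simp only [h2]
    exact (int_scale hs.1 psi).symm

theorem k_meas (ρ : ℝ) : Measurable (k ρ) :=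
  (G_meas.stronglyMeasurable.integral_prod_right (ν := volume.restrict (Ioo 0 ρ))).measurable

theorem k_integrable (ρ : ℝ) : Integrable (k ρ) := (G_int ρ).integral_prod_left

theorem k_nonneg (ρ : ℝ) (x : E 2) : 0 ≤ k ρ x :=
  setIntegral_nonneg measurableSet_Ioo fun _ hs => G_nonneg x hs.1

theorem norm_inv_smul {x : E 2} {s : ℝ} (hs : 0 < s) (h : s ≤ ‖x‖) : 1 ≤ ‖s⁻¹ • x‖ := by
  rw [norm_smul, norm_inv, Real.norm_of_nonneg hs.le, ← div_eq_inv_mul, le_div_iff₀ hs, one_mul]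
  exact h

theorem G_zero {x : E 2} {s : ℝ} (hs : 0 < s) (h : s ≤ ‖x‖) : G x s = 0 := by
  unfold G
  rw [psi_zero (norm_inv_smul hs h), zero_mul]

theorem k_zero {ρ : ℝ} {x : E 2} (h : ρ ≤ ‖x‖) : k ρ x = 0 := by
  unfold k
  rw [setIntegral_congr_fun (g := fun _ => (0 : ℝ)) measurableSet_Ioo
    (fun s hs => G_zero hs.1 (hs.2.le.trans h))]
  simp

theorem kk_eq (D t : ℝ) : kk 2 D t = ∫⁻ s in Ioo t D, ENNReal.ofReal (s⁻¹) := by
  unfold kk
  have h : ((1 : ℝ) - ((2 : ℕ) : ℝ)) = -1 := by norm_num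
  simp only [h, Real.rpow_neg_one]

theorem upper {ρ D : ℝ} (hD : ρ ≤ D) (x : E 2) : ENNReal.ofReal (k ρ x) ≤ kk 2 D ‖x‖ := by
  rw [kk_eq]
  unfold k
  rw [integral_eq_lintegral_of_nonneg_ae
    ((ae_restrict_iff' measurableSet_Ioo).2 (ae_of_all _ fun s hs => G_nonneg x hs.1))
    (G_meas' x).aestronglyMeasurable]
  refine ENNReal.ofReal_toReal_le.trans ?_
  rw [← lintegral_indicator measurableSet_Ioo, ← lintegral_indicator measurableSet_Ioo]
  refine lintegral_mono fun s => ?_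
  by_cases h : s ∈ Ioo 0 ρ
  · rw [indicator_of_mem h]
    by_cases h' : s ≤ ‖x‖
    · rw [G_zero h.1 h', ENNReal.ofReal_zero]
      exact zero_le
    · have h2 : s ∈ Ioo ‖x‖ D := ⟨not_le.1 h', h.2.trans_le hD⟩
      rw [indicator_of_mem h2]
      refine ENNReal.ofReal_le_ofReal ?_
      unfold G
      exact mul_le_of_le_one_left (inv_nonneg.2 h.1.le) (psi_le _)
  · rw [indicator_of_notMem h]
    exact zero_le

theorem G_bdd {x : E 2} (hx : x ≠ 0) {s : ℝ} (hs : 0 < s) : G x s ≤ ‖x‖⁻¹ := by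
  rcases le_or_gt s ‖x‖ with h | h
  · rw [G_zero hs h]
    positivity
  · calc G x s ≤ s⁻¹ := mul_le_of_le_one_left (inv_nonneg.2 hs.le) (psi_le _)
      _ ≤ ‖x‖⁻¹ := inv_anti₀ (norm_pos_iff.2 hx) h.le

theorem G_int_s {x : E 2} (hx : x ≠ 0) (ρ : ℝ) : IntegrableOn (G x) (Ioo 0 ρ) := by
  refine Measure.integrableOn_of_bounded (M := ‖x‖⁻¹) (by simp) (G_meas' x).aestronglyMeasurable ?_
  filter_upwards [self_mem_ae_restrict measurableSet_Ioo] with s hs
  rw [Real.norm_of_nonneg (G_nonneg x hs.1)]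
  exact G_bdd hx hs.1

theorem psi_ge (y : E 2) : 1 - 2 * ‖y‖ ^ 2 ≤ psi y := by
  unfold psi
  rcases le_or_gt (1 - ‖y‖ ^ 2) 0 with h | h
  · rw [max_eq_left h]
    nlinarith
  · rw [max_eq_right h.le]
    nlinarith [sq_nonneg (‖y‖ ^ 2)]

theorem G_ge (x : E 2) {s : ℝ} (hs : 0 < s) : s⁻¹ ≤ G x s + 2 * ‖x‖ ^ 2 * s ^ (-3 : ℝ) := by
  have h1 := psi_ge (s⁻¹ • x)
  rw [norm_smul, norm_inv, Real.norm_of_nonneg hs.le] at h1
  have h2 : s ^ (-3 : ℝ) = s⁻¹ ^ 2 * s⁻¹ := by
    rw [Real.rpow_neg hs.le, show (3 : ℝ) = ((3 : ℕ) : ℝ) by norm_num, Real.rpow_natCast]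
    field_simp
  rw [h2]
  unfold G
  have h3 : 0 < s⁻¹ := inv_pos.2 hs
  have h4 := mul_le_mul_of_nonneg_right h1 h3.le
  nlinarith

theorem tail (t : ℝ) (ht : 0 < t) (D : ℝ) :
    ∫⁻ s in Ioo t D, ENNReal.ofReal (2 * t ^ 2 * s ^ (-3 : ℝ)) ≤ 1 := by
  have hi : IntegrableOn (fun s : ℝ => 2 * t ^ 2 * s ^ (-3 : ℝ)) (Ioi t) :=
    (integrableOn_Ioi_rpow_of_lt (by norm_num) ht).const_mul _
  have h0 : 0 ≤ᵐ[volume.restrict (Ioi t)] fun s : ℝ => 2 * t ^ 2 * s ^ (-3 : ℝ) :=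
    (ae_restrict_iff' measurableSet_Ioi).2 (ae_of_all _ fun s hs => by
      have : (0 : ℝ) < s := ht.trans hs
      positivity)
  calc ∫⁻ s in Ioo t D, ENNReal.ofReal (2 * t ^ 2 * s ^ (-3 : ℝ))
      ≤ ∫⁻ s in Ioi t, ENNReal.ofReal (2 * t ^ 2 * s ^ (-3 : ℝ)) :=
        lintegral_mono_set Ioo_subset_Ioi_self
    _ = ENNReal.ofReal (∫ s in Ioi t, 2 * t ^ 2 * s ^ (-3 : ℝ)) :=
        (ofReal_integral_eq_lintegral_ofReal hi h0).symm
    _ = 1 := by
        rw [integral_const_mul, integral_Ioi_rpow_of_lt (by norm_num) ht]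
        have h2 : t ^ ((-3 : ℝ) + 1) = (t ^ 2)⁻¹ := by
          rw [show (-3 : ℝ) + 1 = -((2 : ℕ) : ℝ) by norm_num, Real.rpow_neg ht.le, Real.rpow_natCast]
        rw [h2]
        have h3 : 2 * t ^ 2 * (-(t ^ 2)⁻¹ / (-3 + 1)) = 1 := by
          field_simp
          norm_num
        rw [h3, ENNReal.ofReal_one]

theorem lower {ρ D : ℝ} (hρ : 0 < ρ) (x : E 2) (hx : x ≠ 0) :
    kk 2 D ‖x‖ ≤ ENNReal.ofReal (k ρ x) + ((1 + Real.toNNReal ρ⁻¹ * Real.toNNReal D : ℝ≥0) : ℝ≥0∞) := by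
  rw [kk_eq]
  have ht : 0 < ‖x‖ := norm_pos_iff.2 hx
  have h1 : ∀ s ∈ Ioo ‖x‖ D, ENNReal.ofReal (s⁻¹) ≤
      (Ioo 0 ρ).indicator (fun s => ENNReal.ofReal (G x s)) s +
        (ENNReal.ofReal (2 * ‖x‖ ^ 2 * s ^ (-3 : ℝ)) + ENNReal.ofReal ρ⁻¹) := by
    intro s hs
    have hs0 : 0 < s := ht.trans hs.1
    rcases lt_or_ge s ρ with h | h
    · rw [indicator_of_mem (show s ∈ Ioo 0 ρ from ⟨hs0, h⟩)]
      calc ENNReal.ofReal (s⁻¹) ≤ ENNReal.ofReal (G x s + 2 * ‖x‖ ^ 2 * s ^ (-3 : ℝ)) :=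
            ENNReal.ofReal_le_ofReal (G_ge x hs0)
        _ ≤ ENNReal.ofReal (G x s) + ENNReal.ofReal (2 * ‖x‖ ^ 2 * s ^ (-3 : ℝ)) :=
            ENNReal.ofReal_add_le
        _ ≤ _ := by
            gcongr
            exact le_self_add
    · calc ENNReal.ofReal (s⁻¹) ≤ ENNReal.ofReal ρ⁻¹ :=
            ENNReal.ofReal_le_ofReal (inv_anti₀ hρ h)
        _ ≤ _ := le_add_left le_add_self
  have hk : ∫⁻ s in Ioo 0 ρ, ENNReal.ofReal (G x s) = ENNReal.ofReal (k ρ x) :=
    (ofReal_integral_eq_lintegral_ofReal (G_int_s hx ρ)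
      ((ae_restrict_iff' measurableSet_Ioo).2 (ae_of_all _ fun s hs => G_nonneg x hs.1))).symm
  calc ∫⁻ s in Ioo ‖x‖ D, ENNReal.ofReal (s⁻¹)
      ≤ ∫⁻ s in Ioo ‖x‖ D, ((Ioo 0 ρ).indicator (fun s => ENNReal.ofReal (G x s)) s +
        (ENNReal.ofReal (2 * ‖x‖ ^ 2 * s ^ (-3 : ℝ)) + ENNReal.ofReal ρ⁻¹)) :=
        setLIntegral_mono' measurableSet_Ioo h1
    _ = (∫⁻ s in Ioo ‖x‖ D, (Ioo 0 ρ).indicator (fun s => ENNReal.ofReal (G x s)) s) +
        ((∫⁻ s in Ioo ‖x‖ D, ENNReal.ofReal (2 * ‖x‖ ^ 2 * s ^ (-3 : ℝ))) +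
          ∫⁻ s in Ioo ‖x‖ D, ENNReal.ofReal ρ⁻¹) := by
        rw [lintegral_add_left ((G_meas' x).ennreal_ofReal.indicator measurableSet_Ioo),
          lintegral_add_right _ measurable_const]
    _ ≤ ENNReal.ofReal (k ρ x) + (1 + ENNReal.ofReal ρ⁻¹ * ENNReal.ofReal D) := by
        gcongr
        · rw [← hk]
          exact (setLIntegral_le_lintegral _ _).trans (lintegral_indicator measurableSet_Ioo _).le
        · exact tail _ ht D
        · rw [setLIntegral_const, Real.volume_Ioo]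
          gcongr
          linarith
    _ = _ := by
        push_cast
        rfl

theorem lap_eq (ζ : E 2 → ℝ) (x : E 2) :
    (Δ ζ) x = ∑ i, fderiv ℝ (fderiv ℝ ζ) x (EuclideanSpace.basisFun (Fin 2) ℝ i)
      (EuclideanSpace.basisFun (Fin 2) ℝ i) := by
  rw [InnerProductSpace.laplacian_eq_iteratedFDeriv_orthonormalBasis ζ
    (EuclideanSpace.basisFun (Fin 2) ℝ)]
  simp only [iteratedFDeriv_two_apply]
  rfl

theorem sum_basis (L : E 2 →L[ℝ] ℝ) (y : E 2) :
    ∑ i, inner ℝ y (EuclideanSpace.basisFun (Fin 2) ℝ i) * L (EuclideanSpace.basisFun (Fin 2) ℝ i) =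
      L y := by
  conv_rhs => rw [← (EuclideanSpace.basisFun (Fin 2) ℝ).sum_repr' y]
  rw [map_sum]
  refine Finset.sum_congr rfl fun i _ => ?_
  rw [map_smul, smul_eq_mul, real_inner_comm]

theorem ibp_scale (ζ : E 2 → ℝ) (hζ : ContDiff ℝ ∞ ζ) (a : E 2) (s : ℝ) :
    s * ∫ y, psi y * (Δ ζ) (s • y + a) = ∫ y, eta y * fderiv ℝ ζ (s • y + a) y := by
  have h1 : ContDiff ℝ ∞ (fderiv ℝ ζ) := hζ.fderiv_right (by simp)
  have haff : ContDiff ℝ ∞ (fun y : E 2 => s • y + a) := by fun_prop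
  have h2 : ∀ v : E 2, ContDiff ℝ 1 fun y : E 2 => fderiv ℝ ζ (s • y + a) v := fun v =>
    ((h1.comp haff).clm_apply contDiff_const).of_le (by norm_cast)
  have h3 : ∀ v y : E 2, fderiv ℝ (fun y : E 2 => fderiv ℝ ζ (s • y + a) v) y v =
      s * fderiv ℝ (fderiv ℝ ζ) (s • y + a) v v := by
    intro v y
    have ha : HasFDerivAt (fun y : E 2 => s • y + a) (s • ContinuousLinearMap.id ℝ (E 2)) y :=
      ((hasFDerivAt_id y).const_smul s).add_const a
    have hd : HasFDerivAt (fderiv ℝ ζ) (fderiv ℝ (fderiv ℝ ζ) (s • y + a)) (s • y + a) :=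
      (h1.differentiable (by simp) _).hasFDerivAt
    have hc := (hd.comp y ha).clm_apply (hasFDerivAt_const v y)
    have he := hc.fderiv
    simp only [Function.comp_apply] at he
    rw [he]
    simp
  have hi1 : ∀ v : E 2, Integrable fun y : E 2 =>
      psi y * fderiv ℝ (fun y : E 2 => fderiv ℝ ζ (s • y + a) v) y v := fun v =>
    Continuous.integrable_of_hasCompactSupport
      (psi_cont.mul (((h2 v).continuous_fderiv (by norm_num)).clm_apply continuous_const))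
      psi_comp.mul_right
  have hi2 : ∀ v : E 2, Integrable fun y : E 2 =>
      eta y * inner ℝ y v * fderiv ℝ ζ (s • y + a) v := fun v =>
    Continuous.integrable_of_hasCompactSupport
      ((eta_cont.mul (continuous_id.inner continuous_const)).mul (h2 v).continuous)
      ((eta_comp.mul_right (f' := fun y => inner ℝ y v)).mul_right
        (f' := fun y : E 2 => fderiv ℝ ζ (s • y + a) v))
  calc s * ∫ y, psi y * (Δ ζ) (s • y + a)
      = ∫ y, ∑ i, psi y * fderiv ℝ (fun y : E 2 => fderiv ℝ ζ (s • y + a)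
          (EuclideanSpace.basisFun (Fin 2) ℝ i)) y (EuclideanSpace.basisFun (Fin 2) ℝ i) := by
        rw [← integral_const_mul]
        refine integral_congr_ae (ae_of_all _ fun y => ?_)
        simp only [h3, lap_eq, Finset.mul_sum]
        refine Finset.sum_congr rfl fun i _ => ?_
        ring
    _ = ∑ i, ∫ y, psi y * fderiv ℝ (fun y : E 2 => fderiv ℝ ζ (s • y + a)
          (EuclideanSpace.basisFun (Fin 2) ℝ i)) y (EuclideanSpace.basisFun (Fin 2) ℝ i) :=
        integral_finsetSum _ fun i _ => hi1 _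
    _ = ∑ i, ∫ y, eta y * inner ℝ y (EuclideanSpace.basisFun (Fin 2) ℝ i) *
          fderiv ℝ ζ (s • y + a) (EuclideanSpace.basisFun (Fin 2) ℝ i) :=
        Finset.sum_congr rfl fun i _ => ibp _ (h2 _) _
    _ = ∫ y, ∑ i, eta y * inner ℝ y (EuclideanSpace.basisFun (Fin 2) ℝ i) *
          fderiv ℝ ζ (s • y + a) (EuclideanSpace.basisFun (Fin 2) ℝ i) :=
        (integral_finsetSum _ fun i _ => hi2 _).symm
    _ = ∫ y, eta y * fderiv ℝ ζ (s • y + a) y := by
        refine integral_congr_ae (ae_of_all _ fun y => ?_)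
        simp only
        rw [← sum_basis (fderiv ℝ ζ (s • y + a)) y, Finset.mul_sum]
        refine Finset.sum_congr rfl fun i _ => ?_
        ring

theorem ae_snd (ρ : ℝ) : ∀ᵐ p : E 2 × ℝ ∂((volume : Measure (E 2)).prod
    (volume.restrict (Ioo 0 ρ))), p.2 ∈ Ioo 0 ρ :=
  Measure.quasiMeasurePreserving_snd.ae (self_mem_ae_restrict measurableSet_Ioo)

theorem swap1 (ρ : ℝ) (h : E 2 → ℝ) (hh : Continuous h) :
    ∫ x, k ρ x * h x = ∫ s in Ioo 0 ρ, ∫ x, G x s * h x := by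
  obtain ⟨C, hC⟩ := (isCompact_closedBall (0 : E 2) ρ).exists_bound_of_continuousOn hh.continuousOn
  have hi : Integrable (Function.uncurry fun x s => G x s * h x)
      ((volume : Measure (E 2)).prod (volume.restrict (Ioo 0 ρ))) := by
    refine Integrable.mono' ((G_int ρ).const_mul C)
      (G_meas.mul (hh.measurable.comp measurable_fst)).aestronglyMeasurable ?_
    filter_upwards [ae_snd ρ] with p hp
    have hG := G_nonneg p.1 hp.1
    show ‖G p.1 p.2 * h p.1‖ ≤ C * G p.1 p.2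
    rw [norm_mul, Real.norm_of_nonneg hG, mul_comm]
    rcases le_or_gt ρ ‖p.1‖ with hx | hx
    · rw [G_zero hp.1 (hp.2.le.trans hx), mul_zero, mul_zero]
    · exact mul_le_mul_of_nonneg_right (hC _ (by
        rw [mem_closedBall, dist_zero_right]; exact hx.le)) hG
  rw [← integral_integral_swap hi]
  refine integral_congr_ae (ae_of_all _ fun x => ?_)
  show k ρ x * h x = ∫ s in Ioo 0 ρ, G x s * h x
  rw [integral_mul_const]
  rfl

theorem swap2 (ρ : ℝ) (F : E 2 → ℝ → ℝ) (hF : Continuous (Function.uncurry F)) :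
    ∫ s in Ioo 0 ρ, ∫ y, eta y * F y s = ∫ y, ∫ s in Ioo 0 ρ, eta y * F y s := by
  obtain ⟨C, hC⟩ := ((isCompact_closedBall (0 : E 2) 1).prod
    (isCompact_Icc (a := (0 : ℝ)) (b := ρ))).exists_bound_of_continuousOn hF.continuousOn
  have he : Integrable eta (volume : Measure (E 2)) :=
    eta_cont.integrable_of_hasCompactSupport eta_comp
  have hi : Integrable (Function.uncurry fun y s => eta y * F y s)
      ((volume : Measure (E 2)).prod (volume.restrict (Ioo 0 ρ))) := by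
    refine Integrable.mono' ((he.comp_fst (volume.restrict (Ioo 0 ρ))).const_mul C)
      ((eta_cont.comp continuous_fst).mul hF).measurable.aestronglyMeasurable ?_
    filter_upwards [ae_snd ρ] with p hp
    show ‖eta p.1 * F p.1 p.2‖ ≤ C * eta p.1
    rw [norm_mul, Real.norm_of_nonneg (eta_nonneg _), mul_comm]
    rcases le_or_gt 1 ‖p.1‖ with hx | hx
    · rw [eta_zero hx, mul_zero, mul_zero]
    · exact mul_le_mul_of_nonneg_right (hC p ⟨by
        rw [mem_closedBall, dist_zero_right]; exact hx.le, Ioo_subset_Icc_self hp⟩) (eta_nonneg _)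
  exact (integral_integral_swap hi).symm

theorem ftc {ρ : ℝ} (hρ : 0 < ρ) (ζ : E 2 → ℝ) (hζ : ContDiff ℝ ∞ ζ) (a y : E 2) :
    ∫ s in Ioo 0 ρ, eta y * fderiv ℝ ζ (s • y + a) y = eta y * (ζ (ρ • y + a) - ζ a) := by
  rw [integral_const_mul, ← integral_Ioc_eq_integral_Ioo, ← intervalIntegral.integral_of_le hρ.le]
  have h1 : ContDiff ℝ ∞ (fderiv ℝ ζ) := hζ.fderiv_right (by simp)
  have hc : Continuous fun s : ℝ => fderiv ℝ ζ (s • y + a) y :=
    (h1.continuous.comp (by fun_prop)).clm_apply continuous_const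
  rw [intervalIntegral.integral_eq_sub_of_hasDerivAt (f := fun s => ζ (s • y + a))
    (fun s _ => ?_) (hc.intervalIntegrable _ _)]
  · simp
  · have ha : HasDerivAt (fun s : ℝ => s • y + a) y s := by
      simpa using ((hasDerivAt_id s).smul_const y).add_const a
    exact (hζ.differentiable (by simp) _).hasFDerivAt.comp_hasDerivAt s ha

theorem main_id {ρ : ℝ} (hρ : 0 < ρ) (ζ : E 2 → ℝ) (hζ : ContDiff ℝ ∞ ζ) (a : E 2) :
    ∫ x, k ρ (x - a) * (Δ ζ) x =
      -(∫ y, eta y) * ζ a + ∫ x, ((ρ ^ 2)⁻¹ * eta (ρ⁻¹ • (x - a))) * ζ x := by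
  have h1 : ContDiff ℝ ∞ (fderiv ℝ ζ) := hζ.fderiv_right (by simp)
  have h2 : Continuous (fderiv ℝ (fderiv ℝ ζ)) := h1.continuous_fderiv (by simp)
  have hL : Continuous (Δ ζ) := by
    have : (Δ ζ) = fun x => ∑ i, fderiv ℝ (fderiv ℝ ζ) x (EuclideanSpace.basisFun (Fin 2) ℝ i)
      (EuclideanSpace.basisFun (Fin 2) ℝ i) := funext (lap_eq ζ)
    rw [this]
    exact continuous_finsetSum _ fun i _ => (h2.clm_apply continuous_const).clm_apply continuous_const
  have hLa : Continuous fun x => (Δ ζ) (x + a) := hL.comp (by fun_prop)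
  have hFc : Continuous (Function.uncurry fun (y : E 2) (s : ℝ) => fderiv ℝ ζ (s • y + a) y) := by
    have : Continuous fun p : E 2 × ℝ => p.2 • p.1 + a := by fun_prop
    exact (h1.continuous.comp this).clm_apply continuous_fst
  have e1 : ∫ x, k ρ (x - a) * (Δ ζ) x = ∫ x, k ρ x * (Δ ζ) (x + a) := by
    have h5 := integral_sub_right_eq_self (μ := (volume : Measure (E 2)))
      (fun x => k ρ x * (Δ ζ) (x + a)) a
    simp only [sub_add_cancel] at h5
    exact h5
  have e2 : ∀ s ∈ Ioo 0 ρ, ∫ x, G x s * (Δ ζ) (x + a) = ∫ y, eta y * fderiv ℝ ζ (s • y + a) y := by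
    intro s hs
    have h6 := int_scale hs.1 (fun y => psi y * (Δ ζ) (s • y + a))
    rw [← ibp_scale ζ hζ a s]
    refine Eq.trans ?_ h6
    refine integral_congr_ae (ae_of_all _ fun x => ?_)
    simp only [G, smul_smul, mul_inv_cancel₀ (ne_of_gt hs.1), one_smul]
    ring
  have e3 : ∫ y, eta y * ζ (ρ • y + a) = ∫ x, ((ρ ^ 2)⁻¹ * eta (ρ⁻¹ • (x - a))) * ζ x := by
    have h3 := int_scale hρ (fun y => eta y * ζ (ρ • y + a))
    simp only [smul_smul, mul_inv_cancel₀ (ne_of_gt hρ), one_smul] at h3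
    have h4 : ∫ y, eta y * ζ (ρ • y + a) = ρ⁻¹ * ∫ x, eta (ρ⁻¹ • x) * ζ (x + a) * ρ⁻¹ := by
      rw [h3]
      field_simp
    rw [h4, ← integral_const_mul,
      ← integral_sub_right_eq_self (fun x => ρ⁻¹ * (eta (ρ⁻¹ • x) * ζ (x + a) * ρ⁻¹)) a]
    refine integral_congr_ae (ae_of_all _ fun x => ?_)
    simp only [sub_add_cancel]
    field_simp
  have hce : Continuous fun y : E 2 => ζ (ρ • y + a) := hζ.continuous.comp (by fun_prop)
  rw [e1, swap1 ρ _ hLa, setIntegral_congr_fun measurableSet_Ioo e2, swap2 ρ _ hFc]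
  simp only [ftc hρ ζ hζ a]
  rw [← e3]
  have e4 : (fun y => eta y * (ζ (ρ • y + a) - ζ a)) = fun y => eta y * ζ (ρ • y + a) - eta y * ζ a := by
    funext y
    ring
  have hi1 : Integrable fun y : E 2 => eta y * ζ (ρ • y + a) :=
    Continuous.integrable_of_hasCompactSupport (eta_cont.mul hce) eta_comp.mul_right
  have hi2 : Integrable fun y : E 2 => eta y * ζ a :=
    (eta_cont.integrable_of_hasCompactSupport eta_comp).mul_const _
  rw [e4, integral_sub hi1 hi2, integral_mul_const]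
  ring

theorem eta_pos : 0 < ∫ y, eta y :=
  eta_cont.integral_pos_of_hasCompactSupport_nonneg_nonzero eta_comp (fun y => eta_nonneg y)
    (x := 0) (by unfold eta; norm_num)

end Pool.Agent.Q64.VP.CK2

namespace Pool.Agent.Q64.VP

open CK2 in
theorem t_CK2 : S_CK2 := by
  refine ⟨∫ y, eta y, eta_pos, fun ρ hρ => ⟨k ρ, fun x => (ρ ^ 2)⁻¹ * eta (ρ⁻¹ • x),
    (ρ ^ 2)⁻¹ * 4, k_meas ρ, k_integrable ρ, ?_, fun x => ⟨k_nonneg ρ x, ?_⟩, fun x hx => ⟨k_zero hx, ?_⟩,
    fun D hD x _ => upper hD x, fun D _ => ⟨_, fun x hx => lower hρ x hx⟩,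
    fun ζ hζ a => main_id hρ ζ hζ a⟩⟩
  · exact continuous_const.mul (eta_cont.comp (by fun_prop))
  · have h := eta_nonneg (ρ⁻¹ • x)
    have h0 : 0 < (ρ ^ 2)⁻¹ := by positivity
    rw [abs_of_nonneg (mul_nonneg h0.le h)]
    exact mul_le_mul_of_nonneg_left (eta_le _) h0.le
  · show (ρ ^ 2)⁻¹ * eta (ρ⁻¹ • x) = 0
    rw [eta_zero (norm_inv_smul hρ hx), mul_zero]

end Pool.Agent.Q64.VP
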