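import Pool.Agent.Q64.VP.Stm

/-!
# The potential is integrable (Tonelli)
-/

open MeasureTheory Filter Topology Set Metric
open scoped ENNReal NNReal ContDiff Laplacian

namespace Pool.Agent.Q64.VP

namespace INT

/-- the set of the `((x, s), y)` with `y` in the closed ball of radius `s` about `x` -/
def inc (N : ℕ) : Set ((E N × ℝ) × E N) := {q | dist q.2 q.1.1 ≤ q.1.2}

theorem measurableSet_inc (N : ℕ) : MeasurableSet (inc N) := by
  refine (isClosed_le ?_ ?_).measurableSet
  · exact (continuous_snd.dist (continuous_fst.comp continuous_fst))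
  · exact continuous_snd.comp continuous_fst

theorem measurable_ball (N : ℕ) (σ : Measure (E N)) [IsFiniteMeasure σ] :
    Measurable fun p : E N × ℝ => σ (closedBall p.1 p.2) :=
  measurable_measure_prodMk_left (measurableSet_inc N)

theorem measurable_ball' (N : ℕ) (σ : Measure (E N)) [IsFiniteMeasure σ] (s : ℝ) :
    Measurable fun x : E N => σ (closedBall x s) := by
  have hS : MeasurableSet {q : E N × E N | dist q.2 q.1 ≤ s} :=
    (isClosed_le (continuous_snd.dist continuous_fst) continuous_const).measurableSet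
  exact measurable_measure_prodMk_left hS

theorem pow_aux (N : ℕ) {s : ℝ} (hs0 : 0 < s) :
    ENNReal.ofReal (s ^ N) * ENNReal.ofReal (s ^ (1 - (N : ℝ))) = ENNReal.ofReal s := by
  rw [← ENNReal.ofReal_mul (by positivity), ← Real.rpow_natCast, ← Real.rpow_add hs0]
  norm_num

theorem lintegral_ball (N : ℕ) (σ : Measure (E N)) [IsFiniteMeasure σ] (s : ℝ) :
    ∫⁻ x, σ (closedBall x s) = ∫⁻ y, volume (closedBall y s) ∂σ := by
  have hS : MeasurableSet {q : E N × E N | dist q.2 q.1 ≤ s} :=
    (isClosed_le (continuous_snd.dist continuous_fst) continuous_const).measurableSet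
  have h1 := Measure.prod_apply (μ := (volume : Measure (E N))) (ν := σ) hS
  have h2 := Measure.prod_apply_symm (μ := (volume : Measure (E N))) (ν := σ) hS
  have e1 : ∀ x : E N, Prod.mk x ⁻¹' {q : E N × E N | dist q.2 q.1 ≤ s} = closedBall x s := by
    intro x; ext y; rfl
  have e2 : ∀ y : E N, (fun x => (x, y)) ⁻¹' {q : E N × E N | dist q.2 q.1 ≤ s} =
      closedBall y s := by
    intro y; ext x
    simp only [mem_preimage, mem_setOf_eq, mem_closedBall, dist_comm]
  simp only [e1] at h1
  simp only [e2] at h2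
  rw [← h1, h2]

end INT

open INT in
/-- the potential of a finite measure is integrable -/
theorem t_INT : S_INT := by
  intro N _ D σ hσ
  have hm : Measurable fun p : E N × ℝ =>
      σ (closedBall p.1 p.2) * ENNReal.ofReal (p.2 ^ (1 - (N : ℝ))) :=
    (measurable_ball N σ).mul
      ((measurable_snd.pow_const (1 - (N : ℝ))).ennreal_ofReal)
  have hT : ∫⁻ x, P D σ x = ∫⁻ s in Ioo 0 D, ∫⁻ x : E N,
      σ (closedBall x s) * ENNReal.ofReal (s ^ (1 - (N : ℝ))) := by
    unfold P
    exact lintegral_lintegral_swap (f := fun (x : E N) (s : ℝ) =>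
      σ (closedBall x s) * ENNReal.ofReal (s ^ (1 - (N : ℝ)))) hm.aemeasurable
  rw [hT]
  have hb : ∀ s ∈ Ioo 0 D, (∫⁻ x : E N, σ (closedBall x s) * ENNReal.ofReal (s ^ (1 - (N : ℝ)))) ≤
      σ univ * volume (ball (0 : E N) 1) * ENNReal.ofReal D := by
    intro s hs
    have hs0 : 0 < s := hs.1
    have hms := measurable_ball' N σ s
    rw [lintegral_mul_const _ hms, lintegral_ball]
    have hv : ∀ y : E N, volume (closedBall y s) =
        ENNReal.ofReal (s ^ N) * volume (ball (0 : E N) 1) := by
      intro y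
      rw [Measure.addHaar_closedBall _ _ hs0.le, finrank_euclideanSpace_fin]
    simp only [hv, lintegral_const]
    have hp := pow_aux N hs0
    calc ENNReal.ofReal (s ^ N) * volume (ball (0 : E N) 1) * σ univ *
          ENNReal.ofReal (s ^ (1 - (N : ℝ)))
        = σ univ * volume (ball (0 : E N) 1) *
          (ENNReal.ofReal (s ^ N) * ENNReal.ofReal (s ^ (1 - (N : ℝ)))) := by ring
      _ ≤ σ univ * volume (ball (0 : E N) 1) * ENNReal.ofReal D := by
          rw [hp]
          gcongr
          exact hs.2.le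
  calc ∫⁻ s in Ioo 0 D, ∫⁻ x : E N, σ (closedBall x s) * ENNReal.ofReal (s ^ (1 - (N : ℝ)))
      ≤ ∫⁻ _ in Ioo 0 D, σ univ * volume (ball (0 : E N) 1) * ENNReal.ofReal D :=
        setLIntegral_mono' measurableSet_Ioo hb
    _ = σ univ * volume (ball (0 : E N) 1) * ENNReal.ofReal D * volume (Ioo 0 D) := by
        rw [lintegral_const, Measure.restrict_apply_univ]
    _ < ⊤ := by
        refine ENNReal.mul_lt_top (ENNReal.mul_lt_top (ENNReal.mul_lt_top (measure_lt_top σ _)
          measure_ball_lt_top) ENNReal.ofReal_lt_top) ?_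
        rw [Real.volume_Ioo]
        exact ENNReal.ofReal_lt_top

end Pool.Agent.Q64.VP
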