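import Pool.Agent.Q64.VP.Stm

/-!
# Job VP-TON of project VP (helper64): Tonelli and measurability of the potential
-/

set_option autoImplicit false

open MeasureTheory Filter Topology Set Metric
open scoped ENNReal NNReal ContDiff Laplacian

namespace Pool.Agent.Q64.VP.TON

theorem kk_antitone (N : ℕ) (D : ℝ) : Antitone (kk N D) := by
  intro s t hst
  unfold kk
  exact lintegral_mono_set (Ioo_subset_Ioo_left hst)

theorem set_ae (t D : ℝ) (ht : 0 ≤ t) :
    (Ici t ∩ Ioo 0 D : Set ℝ) =ᵐ[volume] (Ioo t D : Set ℝ) := by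
  rcases ht.eq_or_lt with h0 | h0
  · have : (Ici t ∩ Ioo 0 D : Set ℝ) = Ioo t D := by
      ext s
      simp only [mem_inter_iff, mem_Ici, mem_Ioo, ← h0]
      constructor
      · rintro ⟨_, h⟩
        exact h
      · intro h
        exact ⟨h.1.le, h⟩
    rw [this]
  · have : (Ici t ∩ Ioo 0 D : Set ℝ) = Ico t D := by
      ext s
      simp only [mem_inter_iff, mem_Ici, mem_Ioo, mem_Ico]
      constructor
      · rintro ⟨h1, _, h2⟩
        exact ⟨h1, h2⟩
      · rintro ⟨h1, h2⟩
        exact ⟨h1, h0.trans_le h1, h2⟩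
    rw [this]
    exact Ioo_ae_eq_Ico.symm

theorem main_eq (N : ℕ) (D : ℝ) (σ : Measure (E N)) [IsFiniteMeasure σ] (x : E N) :
    P D σ x = ∫⁻ y, kk N D ‖x - y‖ ∂σ := by
  have hw : Measurable fun s : ℝ => ENNReal.ofReal (s ^ (1 - (N : ℝ))) := by fun_prop
  have h1 : ∀ s : ℝ, σ (closedBall x s) * ENNReal.ofReal (s ^ (1 - (N : ℝ))) =
      ∫⁻ y, (closedBall x s).indicator (fun _ => ENNReal.ofReal (s ^ (1 - (N : ℝ)))) y ∂σ := by
    intro s
    rw [lintegral_indicator measurableSet_closedBall, setLIntegral_const, mul_comm]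
  have h2 : ∀ (s : ℝ) (y : E N),
      (closedBall x s).indicator (fun _ => ENNReal.ofReal (s ^ (1 - (N : ℝ)))) y =
        (Ici ‖x - y‖).indicator (fun s : ℝ => ENNReal.ofReal (s ^ (1 - (N : ℝ)))) s := by
    intro s y
    by_cases h : ‖x - y‖ ≤ s
    · rw [indicator_of_mem (by rw [mem_closedBall, dist_comm, dist_eq_norm]; exact h),
        indicator_of_mem (mem_Ici.2 h)]
    · rw [indicator_of_notMem (by rw [mem_closedBall, dist_comm, dist_eq_norm]; exact h),
        indicator_of_notMem (by rwa [mem_Ici])]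
  unfold P
  simp_rw [h1, h2]
  rw [lintegral_lintegral_swap]
  · refine lintegral_congr fun y => ?_
    rw [setLIntegral_indicator measurableSet_Ici]
    unfold kk
    exact setLIntegral_congr (set_ae _ _ (norm_nonneg _))
  · have hset : MeasurableSet {p : ℝ × E N | ‖x - p.2‖ ≤ p.1} :=
      measurableSet_le (by fun_prop) measurable_fst
    have : (Function.uncurry fun (s : ℝ) (y : E N) =>
        (Ici ‖x - y‖).indicator (fun s : ℝ => ENNReal.ofReal (s ^ (1 - (N : ℝ)))) s) =
        {p : ℝ × E N | ‖x - p.2‖ ≤ p.1}.indicator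
          (fun p => ENNReal.ofReal (p.1 ^ (1 - (N : ℝ)))) := by
      ext ⟨s, y⟩
      by_cases h : ‖x - y‖ ≤ s
      · simp only [Function.uncurry_apply_pair]
        rw [indicator_of_mem (mem_Ici.2 h),
          indicator_of_mem (show (s, y) ∈ {p : ℝ × E N | ‖x - p.2‖ ≤ p.1} from h)]
      · simp only [Function.uncurry_apply_pair]
        rw [indicator_of_notMem (by rwa [mem_Ici]),
          indicator_of_notMem (show (s, y) ∉ {p : ℝ × E N | ‖x - p.2‖ ≤ p.1} from h)]
    rw [this]
    exact ((hw.comp measurable_fst).indicator hset).aemeasurable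

end Pool.Agent.Q64.VP.TON

namespace Pool.Agent.Q64.VP

theorem t_TON : S_TON := by
  intro N D σ hσ
  have h : ∀ x, P D σ x = ∫⁻ y, kk N D ‖x - y‖ ∂σ := TON.main_eq N D σ
  refine ⟨h, ?_⟩
  have h' : P D σ = fun x => ∫⁻ y, kk N D ‖x - y‖ ∂σ := funext h
  rw [h']
  have hk : Measurable (kk N D) := (TON.kk_antitone N D).measurable
  have hm : Measurable fun p : E N × E N => kk N D ‖p.1 - p.2‖ :=
    hk.comp (by fun_prop)
  exact hm.lintegral_prod_right'

end Pool.Agent.Q64.VP
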